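import Mathlib
import Pool.Agent.H204R3.GP.TateG

/-!
# The normalizer of the Lie algebra that kills all Tate forms
-/

set_option linter.unusedSectionVars false

namespace Pool.Agent.W516.FT

open Module Pool.Agent.H204R3.CM Pool.Agent.H204R3.SP Pool.Agent.H204R3.GP

noncomputable section

variable {Ω : Type*} [Field Ω] [CharZero Ω] {V : Type*} [AddCommGroup V] [Module Ω V]
  {R : Type*} [Fintype R] [DecidableEq R] (e : Basis R Ω V) {inv : R → R} {jj : R → Ω}
  (hinv : ∀ x, inv (inv x) = x) (hne : ∀ x, inv x ≠ x)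
  (hjj : ∀ x, jj (inv x) = -jj x) (hj0 : ∀ x, jj x ≠ 0)
  (ω : V →ₗ[Ω] V →ₗ[Ω] Ω) (hω : ∀ x y, ω (e x) (e y) = JJ inv jj x y)
  {Γ : Type*} [Group Γ] (ρ : Representation Ω Γ V) (χ : Γ →* Ω)

/-- The endomorphisms that commute with a subgroup of finite index. -/
def AlmostEquivariant (P : Module.End Ω V) : Prop :=
  ∃ Δ : Subgroup Γ, Δ.FiniteIndex ∧ ∀ s ∈ Δ, ∀ v, P (ρ s v) = ρ s (P v)

/-- The infinitesimal isometries that normalize the Lie algebra of the endomorphisms killing all
Tate forms, and commute with all almost equivariant endomorphisms. -/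
def nrm : Submodule Ω (Module.End Ω V) where
  carrier := {Y | (∀ u w, ω (Y u) w + ω u (Y w) = 0) ∧
    (∀ X ∈ lieT ρ χ, Y * X - X * Y ∈ lieT ρ χ) ∧
    ∀ P, AlmostEquivariant ρ P → ∀ v, Y (P v) = P (Y v)}
  zero_mem' := by
    refine ⟨fun u w => ?_, fun X _ => ?_, fun P _ v => ?_⟩
    · simp
    · rw [zero_mul, mul_zero, sub_zero]
      exact Submodule.zero_mem _
    · simp
  add_mem' := by
    rintro Y Z ⟨hY1, hY2, hY3⟩ ⟨hZ1, hZ2, hZ3⟩
    refine ⟨fun u w => ?_, fun X hX => ?_, fun P hP v => ?_⟩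
    · have h1 := hY1 u w
      have h2 := hZ1 u w
      rw [LinearMap.add_apply, LinearMap.add_apply, map_add, map_add, LinearMap.add_apply]
      linear_combination h1 + h2
    · have h1 : (Y + Z) * X - X * (Y + Z) = (Y * X - X * Y) + (Z * X - X * Z) := by
        rw [add_mul, mul_add]
        abel
      rw [h1]
      exact Submodule.add_mem _ (hY2 X hX) (hZ2 X hX)
    · rw [LinearMap.add_apply, LinearMap.add_apply, map_add, hY3 P hP, hZ3 P hP]
  smul_mem' := by
    rintro c Y ⟨hY1, hY2, hY3⟩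
    refine ⟨fun u w => ?_, fun X hX => ?_, fun P hP v => ?_⟩
    · have h1 := hY1 u w
      rw [LinearMap.smul_apply, LinearMap.smul_apply, map_smul, map_smul, LinearMap.smul_apply,
        smul_eq_mul, smul_eq_mul]
      linear_combination c * h1
    · have h1 : (c • Y) * X - X * (c • Y) = c • (Y * X - X * Y) := by
        rw [smul_mul_assoc, mul_smul_comm, smul_sub]
      rw [h1]
      exact Submodule.smul_mem _ _ (hY2 X hX)
    · rw [LinearMap.smul_apply, LinearMap.smul_apply, map_smul, hY3 P hP]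

theorem nrm_bracket : ∀ X ∈ nrm ω ρ χ, ∀ Y ∈ nrm ω ρ χ, X * Y - Y * X ∈ nrm ω ρ χ := by
  rintro Y ⟨hY1, hY2, hY3⟩ Z ⟨hZ1, hZ2, hZ3⟩
  refine ⟨fun u w => ?_, fun X hX => ?_, fun P hP v => ?_⟩
  · have h1 := hY1 (Z u) w
    have h2 := hZ1 u (Y w)
    have h3 := hZ1 (Y u) w
    have h4 := hY1 u (Z w)
    rw [LinearMap.sub_apply, LinearMap.sub_apply, Module.End.mul_apply, Module.End.mul_apply,
      Module.End.mul_apply, Module.End.mul_apply, map_sub, map_sub, LinearMap.sub_apply]
    linear_combination h1 - h2 - h3 + h4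
  · have h1 : (Y * Z - Z * Y) * X - X * (Y * Z - Z * Y) =
        (Y * (Z * X - X * Z) - (Z * X - X * Z) * Y) -
        (Z * (Y * X - X * Y) - (Y * X - X * Y) * Z) := by
      noncomm_ring
    rw [h1]
    exact Submodule.sub_mem _ (hY2 _ (hZ2 X hX)) (hZ2 _ (hY2 X hX))
  · rw [LinearMap.sub_apply, LinearMap.sub_apply, Module.End.mul_apply, Module.End.mul_apply,
      Module.End.mul_apply, Module.End.mul_apply, map_sub, hZ3 P hP, hY3 P hP, hY3 P hP, hZ3 P hP]

theorem nrm_sp : ∀ X ∈ nrm ω ρ χ, ∀ u w, ω (X u) w + ω u (X w) = 0 :=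
  fun _ hX => hX.1

theorem nrm_comm (Δ : Subgroup Γ) (hΔ : Δ.FiniteIndex) (P : Module.End Ω V)
    (hP : ∀ s ∈ Δ, ∀ v, P (ρ s v) = ρ s (P v)) :
    ∀ X ∈ nrm ω ρ χ, ∀ v, X (P v) = P (X v) :=
  fun _ hX => hX.2.2 P ⟨Δ, hΔ, hP⟩

theorem nrm_conj (hωρ : ∀ s u v, ω (ρ s u) (ρ s v) = χ s * ω u v) (s : Γ) (Y : Module.End Ω V)
    (hY : Y ∈ nrm ω ρ χ) : ρ s * Y * ρ s⁻¹ ∈ nrm ω ρ χ := by
  obtain ⟨hY1, hY2, hY3⟩ := hY
  refine ⟨fun u w => ?_, fun X hX => ?_, fun P hP v => ?_⟩
  · have h1 := hY1 (ρ s⁻¹ u) (ρ s⁻¹ w)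
    have h2 := hωρ s (Y (ρ s⁻¹ u)) (ρ s⁻¹ w)
    have h3 := hωρ s (ρ s⁻¹ u) (Y (ρ s⁻¹ w))
    rw [rho_inv'] at h2 h3
    rw [Module.End.mul_apply, Module.End.mul_apply, Module.End.mul_apply, Module.End.mul_apply,
      h2, h3]
    linear_combination χ s * h1
  · have h1 := lieT_conj ρ χ s⁻¹ hX
    rw [inv_inv] at h1
    have h2 := lieT_conj ρ χ s (hY2 _ h1)
    have h3 : ρ s * ρ s⁻¹ = 1 := by rw [← map_mul, mul_inv_cancel, map_one]
    have h4 : ρ s * (Y * (ρ s⁻¹ * X * ρ s) - ρ s⁻¹ * X * ρ s * Y) * ρ s⁻¹ =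
        ρ s * Y * ρ s⁻¹ * X * (ρ s * ρ s⁻¹) - (ρ s * ρ s⁻¹) * X * (ρ s * Y * ρ s⁻¹) := by
      noncomm_ring
    rw [h4, h3, mul_one, one_mul] at h2
    exact h2
  · obtain ⟨Δ, hΔ, hP⟩ := hP
    have hP' : AlmostEquivariant ρ (ρ s⁻¹ * P * ρ s) := by
      refine ⟨Δ.comap (MulAut.conj s).toMonoidHom, ⟨by
        rw [Subgroup.index_comap_of_surjective _ (MulAut.conj s).surjective]
        exact hΔ.index_ne_zero⟩, fun t ht v => ?_⟩
      have h1 : s * t * s⁻¹ ∈ Δ := by
        rw [Subgroup.mem_comap] at ht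
        exact ht
      have h2 := hP _ h1 (ρ s v)
      have h3 : ∀ v, ρ (s * t * s⁻¹) (ρ s v) = ρ s (ρ t v) := by
        intro v
        rw [map_mul, map_mul, Module.End.mul_apply, Module.End.mul_apply, rho_inv]
      rw [h3] at h2
      rw [Module.End.mul_apply, Module.End.mul_apply, Module.End.mul_apply, Module.End.mul_apply,
        h2, map_mul, map_mul, Module.End.mul_apply, Module.End.mul_apply, rho_inv]
    have h1 := hY3 _ hP' (ρ s⁻¹ v)
    rw [Module.End.mul_apply, Module.End.mul_apply, Module.End.mul_apply, Module.End.mul_apply,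
      rho_inv'] at h1
    rw [Module.End.mul_apply, Module.End.mul_apply, Module.End.mul_apply, Module.End.mul_apply, h1,
      rho_inv']

/-- `lieT` is contained in the normalizer. -/
theorem lieT_le_nrm (hωρ : ∀ s u v, ω (ρ s u) (ρ s v) = χ s * ω u v)
    (hnd : ∀ u, (∀ w, ω u w = 0) → u = 0) {X : Module.End Ω V}
    (hX : X ∈ lieT ρ χ) : X ∈ nrm ω ρ χ := by
  refine ⟨lieT_sp ρ χ ω hωρ hX, fun Y hY => lieT_bracket ρ χ hX hY, fun P hP v => ?_⟩
  obtain ⟨Δ, hΔ, hP⟩ := hP
  have hB : IsTate2 ρ χ (ω.comp P) := by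
    refine ⟨Δ, hΔ, fun s hs u v => ?_⟩
    rw [LinearMap.comp_apply, LinearMap.comp_apply, hP s hs, hωρ]
  rw [← sub_eq_zero]
  apply hnd
  intro w
  have h1 := lieT_bil ρ χ hB hX v w
  have h2 := lieT_sp ρ χ ω hωρ hX (P v) w
  rw [LinearMap.comp_apply, LinearMap.comp_apply] at h1
  rw [map_sub, LinearMap.sub_apply]
  linear_combination h2 - h1

variable {γ : Γ} {a : R → Ω} (hγ : ∀ x, ρ γ (e x) = a x • e x)

include hγ in
theorem pow_eig (M : ℕ) (x : R) : ρ (γ ^ M) (e x) = a x ^ M • e x := by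
  induction M with
  | zero => rw [pow_zero, pow_zero, one_smul, map_one]; rfl
  | succ n ih =>
    rw [pow_succ, map_mul, pow_succ, Module.End.mul_apply, hγ, map_smul, ih, smul_smul, mul_comm]

include hγ in
theorem repr_pow_eig (M : ℕ) (v : V) (z : R) :
    e.repr (ρ (γ ^ M) v) z = a z ^ M * e.repr v z := by
  conv_lhs => rw [← e.sum_repr v]
  rw [map_sum, map_sum, Finsupp.finsetSum_apply, Finset.sum_eq_single z]
  · rw [map_smul, pow_eig e ρ hγ, map_smul, map_smul, e.repr_self, Finsupp.smul_apply,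
      Finsupp.smul_apply, Finsupp.single_eq_same, smul_eq_mul, smul_eq_mul]
    ring
  · intro b _ hb
    rw [map_smul, pow_eig e ρ hγ, map_smul, map_smul, e.repr_self, Finsupp.smul_apply,
      Finsupp.smul_apply, Finsupp.single_eq_of_ne hb.symm, smul_zero, smul_zero]
  · intro h
    exact absurd (Finset.mem_univ _) h

include hγ in
theorem eig_ne_zero (x : R) : a x ≠ 0 := by
  intro h
  apply e.ne_zero x
  rw [← rho_inv ρ γ (e x), hγ, h, zero_smul, map_zero]

include hγ in
/-- An almost equivariant endomorphism is diagonal. -/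
theorem diag_of_almost (hdist : ∀ M : ℕ, 0 < M → ∀ x y, a x ^ M = a y ^ M → x = y)
    {P : Module.End Ω V} (hP : AlmostEquivariant ρ P) {x z : R} (h : e.repr (P (e x)) z ≠ 0) :
    z = x := by
  obtain ⟨Δ, hΔ, hP⟩ := hP
  obtain ⟨M, hM, -, hMΔ⟩ := Subgroup.exists_pow_mem_of_index_ne_zero hΔ.index_ne_zero γ
  have h1 := congrArg (fun v => e.repr v z) (hP _ hMΔ (e x))
  simp only [pow_eig e ρ hγ, map_smul, Finsupp.smul_apply, smul_eq_mul, repr_pow_eig e ρ hγ] at h1
  exact (hdist M hM x z (mul_right_cancel₀ h h1)).symm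

include hinv hjj hω in
theorem DD_sp (y : R) (u w : V) : ω (DD e inv y u) w + ω u (DD e inv y w) = 0 := by
  have key : ω.comp (DD e inv y) + (ω.compl₂ (DD e inv y)) = 0 := by
    refine e.ext fun x => e.ext fun z => ?_
    rw [LinearMap.add_apply, LinearMap.add_apply, LinearMap.comp_apply, LinearMap.compl₂_apply,
      DD_basis, DD_basis, map_smul, LinearMap.smul_apply, map_smul, hω, smul_eq_mul, smul_eq_mul,
      LinearMap.zero_apply, LinearMap.zero_apply]
    unfold JJ
    by_cases h : z = inv x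
    · subst h
      rw [if_pos rfl]
      have h1 : (dd inv y (inv x) : Ω) = -dd inv y x := by
        unfold dd
        by_cases h2 : inv x = y
        · have h3 : x = inv y := by rw [← h2, hinv]
          rw [if_pos h2, if_pos h3]
          by_cases h4 : x = y
          · rw [if_pos h4]
            have h5 : inv x = inv y := by rw [h4]
            rw [if_pos h5]
            ring
          · rw [if_neg h4]
            have h5 : ¬ inv x = inv y := fun h => h4 (by rw [← hinv x, h, hinv])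
            rw [if_neg h5]
            ring
        · have h3 : ¬ x = inv y := fun h => h2 (by rw [h, hinv])
          rw [if_neg h2, if_neg h3]
          by_cases h4 : x = y
          · have h5 : inv x = inv y := by rw [h4]
            rw [if_pos h4, if_pos h5]
            ring
          · have h5 : ¬ inv x = inv y := fun h => h4 (by rw [← hinv x, h, hinv])
            rw [if_neg h4, if_neg h5]
            ring
      rw [h1]
      ring
    · rw [if_neg h]
      ring
  exact congrArg (fun F : V →ₗ[Ω] V →ₗ[Ω] Ω => F u w) key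

include hγ in
/-- Polynomials in the adjoint action of `γ`. -/
theorem poly_mem (X : Module.End Ω V) (hX : X ∈ lieT ρ χ) (p : Polynomial Ω) :
    ∃ Y ∈ lieT ρ χ, ∀ x z, e.repr (Y (e x)) z = p.eval (a z / a x) * e.repr (X (e x)) z := by
  induction p using Polynomial.induction_on with
  | C c =>
    refine ⟨c • X, Submodule.smul_mem _ _ hX, fun x z => ?_⟩
    rw [Polynomial.eval_C, LinearMap.smul_apply, map_smul, Finsupp.smul_apply, smul_eq_mul]
  | add p q hp hq =>
    obtain ⟨Y, hY, hY'⟩ := hp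
    obtain ⟨Z, hZ, hZ'⟩ := hq
    refine ⟨Y + Z, Submodule.add_mem _ hY hZ, fun x z => ?_⟩
    rw [Polynomial.eval_add, LinearMap.add_apply, map_add, Finsupp.add_apply, hY', hZ']
    ring
  | monomial n c ih =>
    obtain ⟨Y, hY, hY'⟩ := ih
    refine ⟨ρ γ * Y * ρ γ⁻¹, lieT_conj ρ χ γ hY, fun x z => ?_⟩
    have ha := eig_ne_zero e ρ hγ x
    have h1 : ρ γ⁻¹ (e x) = (a x)⁻¹ • e x := by
      have h2 : ρ γ⁻¹ (a x • e x) = e x := by rw [← hγ, rho_inv]
      rw [map_smul] at h2
      rw [← h2, smul_smul, inv_mul_cancel₀ ha, one_smul, h2]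
    have h3 : ∀ v, e.repr (ρ γ v) z = a z * e.repr v z := by
      intro v
      have h4 := repr_pow_eig e ρ hγ 1 v z
      rwa [pow_one, pow_one] at h4
    rw [Module.End.mul_apply, Module.End.mul_apply, h1, map_smul, map_smul, map_smul,
      Finsupp.smul_apply, h3, hY', smul_eq_mul]
    simp only [Polynomial.eval_mul, Polynomial.eval_C, Polynomial.eval_pow, Polynomial.eval_X]
    rw [pow_succ, div_eq_mul_inv]
    ring

include hγ in
/-- Multiplication of the matrix coefficients by a function of the ratio of the eigenvalues. -/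
theorem ratio_mem (δ : R → R → Ω)
    (hδ : ∀ x z x' z', a z / a x = a z' / a x' → δ x z = δ x' z') (X : Module.End Ω V)
    (hX : X ∈ lieT ρ χ) :
    ∃ Y ∈ lieT ρ χ, ∀ x z, e.repr (Y (e x)) z = δ x z * e.repr (X (e x)) z := by
  classical
  let r : R × R → Ω := fun p => a p.2 / a p.1
  let f : Ω → Ω := Function.extend r (fun p => δ p.1 p.2) 0
  have hf : ∀ x z, f (a z / a x) = δ x z := by
    intro x z
    have h1 : Function.FactorsThrough (fun p : R × R => δ p.1 p.2) r := by
      intro p p' h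
      exact hδ _ _ _ _ h
    exact h1.extend_apply 0 (x, z)
  obtain ⟨Y, hY, hY'⟩ := poly_mem e ρ χ hγ X hX
    (Lagrange.interpolate (Finset.univ.image r) id f)
  refine ⟨Y, hY, fun x z => ?_⟩
  rw [hY']
  congr 1
  have h1 : a z / a x ∈ Finset.univ.image r := Finset.mem_image.2 ⟨(x, z), Finset.mem_univ _, rfl⟩
  have h2 := Lagrange.eval_interpolate_at_node f (s := Finset.univ.image r) (v := id)
    Function.injective_id.injOn h1
  rw [id] at h2
  rw [h2, hf]

include hγ in
/-- The diagonal elements normalize. -/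
theorem DD_norm (y : R)
    (hδ : ∀ x z x' z', a z / a x = a z' / a x' →
      (dd inv y z - dd inv y x : Ω) = dd inv y z' - dd inv y x')
    (X : Module.End Ω V) (hX : X ∈ lieT ρ χ) :
    DD e inv y * X - X * DD e inv y ∈ lieT ρ χ := by
  obtain ⟨Y, hY, hY'⟩ := ratio_mem e ρ χ hγ (fun x z => dd inv y z - dd inv y x) hδ X hX
  have h1 : DD e inv y * X - X * DD e inv y = Y := by
    refine e.ext fun x => e.repr.injective (Finsupp.ext fun z => ?_)
    rw [hY', LinearMap.sub_apply, Module.End.mul_apply, Module.End.mul_apply, map_sub,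
      Finsupp.sub_apply, DD_repr, DD_basis, map_smul, map_smul, Finsupp.smul_apply, smul_eq_mul]
    ring
  rw [h1]
  exact hY

end

end Pool.Agent.W516.FT
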