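import Mathlib
import Pool.Agent.W516.TateN

/-!
# An element without multiplicative relations of length four
-/

set_option linter.unusedSectionVars false

namespace Pool.Agent.W516.FT

open Module Pool.Agent.H204R3.CM Pool.Agent.H204R3.SP Pool.Agent.H204R3.GP

noncomputable section

/-- There is a homomorphism to the additive group which does not vanish on a given element that is
not a root of unity. -/
theorem exists_log {Ω : Type*} [Field Ω] [CharZero Ω] {t : Ω} (ht0 : t ≠ 0)
    (ht : ∀ M : ℕ, 0 < M → t ^ M ≠ 1) :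
    ∃ F : Ω → Ω, (∀ x y, x ≠ 0 → y ≠ 0 → F (x * y) = F x + F y) ∧ F t ≠ 0 := by
  classical
  let A := Additive Ωˣ
  let j : A →ₗ[ℤ] TensorProduct ℤ ℚ A := TensorProduct.mk ℤ ℚ A 1
  have _ : IsLocalizedModule (nonZeroDivisors ℤ) j :=
    (isLocalizedModule_iff_isBaseChange (nonZeroDivisors ℤ) ℚ _).mpr
      (TensorProduct.isBaseChange ℤ A ℚ)
  let t' : A := Additive.ofMul (Units.mk0 t ht0)
  have h1 : j t' ≠ 0 := by
    intro h
    obtain ⟨s, hs⟩ := (IsLocalizedModule.eq_zero_iff (nonZeroDivisors ℤ) j).mp h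
    have hs0 : (s : ℤ) ≠ 0 := nonZeroDivisors.coe_ne_zero s
    have h2 : (s : ℤ) • t' = 0 := hs
    have h3 : (((s : ℤ).natAbs : ℕ) : ℤ) • t' = 0 := by
      rcases Int.natAbs_eq (s : ℤ) with h3 | h3
      · rw [← h3]; exact h2
      · have h4 : (((s : ℤ).natAbs : ℕ) : ℤ) = -(s : ℤ) := by omega
        rw [h4, neg_smul, h2, neg_zero]
    rw [natCast_zsmul] at h3
    have h4 : (Units.mk0 t ht0) ^ (s : ℤ).natAbs = 1 := h3
    apply ht _ (Int.natAbs_pos.mpr hs0)
    have h5 := congrArg (fun u : Ωˣ => (u : Ω)) h4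
    simpa using h5
  obtain ⟨ℓ, hℓ⟩ : ∃ ℓ : Module.Dual ℚ (TensorProduct ℤ ℚ A), ℓ (j t') ≠ 0 := by
    by_contra hcon
    push Not at hcon
    exact h1 ((Module.forall_dual_apply_eq_zero_iff ℚ _).1 hcon)
  refine ⟨fun x => if hx : x = 0 then 0 else
    ((ℓ (j (Additive.ofMul (Units.mk0 x hx))) : ℚ) : Ω), fun x y hx hy => ?_, ?_⟩
  · beta_reduce
    rw [dif_neg hx, dif_neg hy, dif_neg (mul_ne_zero hx hy), ← Rat.cast_add, ← map_add, ← map_add,
      ← ofMul_mul]
    congr 5
    exact Units.ext rfl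
  · beta_reduce
    rw [dif_neg ht0]
    exact Rat.cast_ne_zero.2 hℓ

section

variable {Ω : Type*} [Field Ω] [CharZero Ω] {F : Ω → Ω}
  (hF : ∀ x y, x ≠ 0 → y ≠ 0 → F (x * y) = F x + F y)

include hF in
theorem log_one : F 1 = 0 := by
  have h1 := hF 1 1 one_ne_zero one_ne_zero
  rw [mul_one] at h1
  linear_combination -h1

include hF in
theorem log_prod {ι : Type*} (s : Finset ι) (f : ι → Ω) (h : ∀ i ∈ s, f i ≠ 0) :
    F (∏ i ∈ s, f i) = ∑ i ∈ s, F (f i) := by
  classical
  induction s using Finset.induction_on with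
  | empty => simp [log_one hF]
  | insert i s hi ih =>
    rw [Finset.prod_insert hi, Finset.sum_insert hi, hF _ _ (h i (Finset.mem_insert_self _ _))
      (Finset.prod_ne_zero_iff.2 fun j hj => h j (Finset.mem_insert_of_mem hj)),
      ih fun j hj => h j (Finset.mem_insert_of_mem hj)]

include hF in
theorem log_pow {x : Ω} (hx : x ≠ 0) (n : ℕ) : F (x ^ n) = n * F x := by
  have h1 := log_prod hF (Finset.range n) (fun _ => x) (fun _ _ => hx)
  rw [Finset.prod_const, Finset.sum_const, Finset.card_range, nsmul_eq_mul] at h1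
  exact h1

end

variable {Ω : Type*} [Field Ω] [CharZero Ω] {V : Type*} [AddCommGroup V] [Module Ω V]
  {R : Type*} [Fintype R] [DecidableEq R] (e : Basis R Ω V) {inv : R → R} {jj : R → Ω}
  (hinv : ∀ x, inv (inv x) = x) (hne : ∀ x, inv x ≠ x)
  (hjj : ∀ x, jj (inv x) = -jj x) (hj0 : ∀ x, jj x ≠ 0)
  (ω : V →ₗ[Ω] V →ₗ[Ω] Ω) (hω : ∀ x y, ω (e x) (e y) = JJ inv jj x y)
  {Γ : Type*} [Group Γ] (ρ : Representation Ω Γ V) (χ : Γ →* Ω)

/-- Diagonal endomorphisms. -/
def dg (x : R → Ω) : Module.End Ω V := e.constr Ω (fun a => x a • e a)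

theorem dg_basis (x : R → Ω) (a : R) : dg e x (e a) = x a • e a := by
  unfold dg
  rw [Basis.constr_basis]

/-- A diagonal endomorphism kills a form if and only if the weights of the form vanish. -/
theorem kills_dg {κ : Type*} [Fintype κ] [DecidableEq κ] (x : R → Ω)
    (φ : MultilinearMap Ω (fun _ : κ => V) Ω) :
    Kills (dg e x) φ ↔ ∀ I : κ → R, φ (fun k => e (I k)) ≠ 0 → ∑ k, x (I k) = 0 := by
  have h1 : ∀ (I : κ → R) (k : κ), φ (Function.update (fun l => e (I l)) k (dg e x (e (I k)))) =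
      x (I k) * φ (fun l => e (I l)) := by
    intro I k
    rw [dg_basis, MultilinearMap.map_update_smul, smul_eq_mul]
    congr 2
    exact Function.update_eq_self k (fun l => e (I l))
  constructor
  · intro h I hI
    have h2 := h (fun k => e (I k))
    rw [Finset.sum_congr rfl (fun k _ => h1 I k), ← Finset.sum_mul] at h2
    exact (mul_eq_zero.1 h2).resolve_right hI
  · intro h
    refine kills_of_basis e _ _ fun I => ?_
    rw [Finset.sum_congr rfl (fun k _ => h1 I k), ← Finset.sum_mul]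
    by_cases h0 : φ (fun l => e (I l)) = 0
    · rw [h0, mul_zero]
    · rw [h I h0, zero_mul]

theorem DD_eq_dg (inv : R → R) (y : R) : DD e inv y = dg e (fun a => dd inv y a) := rfl

variable {γ : Γ} {a : R → Ω} (hγ : ∀ x, ρ γ (e x) = a x • e x)
  {q : Ω} (hq0 : q ≠ 0) (hq : ∀ x, a x * a (inv x) = q) (hχ : χ γ = q)

/-- There are no multiplicative relations of length four besides the trivial ones. -/
def Four (inv : R → R) (a : R → Ω) (q : Ω) : Prop :=
  ∀ M : ℕ, 0 < M → ∀ x y z w : R, (a x * a y * a z * a w) ^ M = q ^ (2 * M) →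
    (y = inv x ∧ w = inv z) ∨ (z = inv x ∧ w = inv y) ∨ (w = inv x ∧ z = inv y)

variable (h4 : Four inv a q)

include hinv hne hq h4 in
theorem four_dist : ∀ M : ℕ, 0 < M → ∀ x y, a x ^ M = a y ^ M → x = y := by
  intro M hM x y hxy
  have h1 : (a x * a (inv y) * a x * a (inv x)) ^ M = q ^ (2 * M) := by
    rw [mul_assoc (a x * a (inv y)), hq, mul_pow, mul_pow, hxy, ← mul_pow, hq, ← pow_add, two_mul]
  rcases h4 M hM _ _ _ _ h1 with h | h | h
  · rw [← hinv x, ← h.1, hinv]
  · exact absurd h.1.symm (hne x)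
  · rw [h.2, hinv]

include hinv hne hq0 hq h4 hγ in
theorem four_ratio (t : R) (x z x' z' : R) (h : a z / a x = a z' / a x') :
    (dd inv t z - dd inv t x : Ω) = dd inv t z' - dd inv t x' := by
  have hneg : ∀ y, (dd inv t (inv y) : Ω) = -dd inv t y := by
    intro y
    have e1 : (inv y = t) ↔ (y = inv t) :=
      ⟨fun h => by rw [← h, hinv], fun h => by rw [h, hinv]⟩
    have e2 : (inv y = inv t) ↔ (y = t) :=
      ⟨fun h => by rw [← hinv y, h, hinv], fun h => by rw [h]⟩
    unfold dd
    simp only [e1, e2]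
    ring
  have ha := eig_ne_zero e ρ hγ
  have h1 : a z * a x' = a z' * a x := by
    rw [div_eq_div_iff (ha x) (ha x')] at h
    exact h
  have h2 : (a z * a x' * a (inv z') * a (inv x)) ^ 1 = q ^ (2 * 1) := by
    rw [h1]
    have e1 := hq z'
    have e2 := hq x
    rw [pow_one, mul_one]
    linear_combination (a x * a (inv x)) * e1 + q * e2
  rcases h4 1 one_pos _ _ _ _ h2 with h | h | h
  · obtain ⟨h5, h6⟩ := h
    have h7 : z' = inv x := by rw [h6, hinv]
    rw [h5, h7, hneg, hneg]
    ring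
  · obtain ⟨h5, h6⟩ := h
    have h7 : z = z' := by rw [← hinv z, ← h5, hinv]
    have h8 : x = x' := by rw [← hinv x, h6, hinv]
    rw [h7, h8]
  · obtain ⟨h5, h6⟩ := h
    have h7 : z = x := by rw [← hinv z, ← h5, hinv]
    have h8 : z' = x' := by rw [← hinv z', h6, hinv]
    rw [h7, h8]
    ring

include hinv hne hjj hω hq0 hq h4 hγ in
/-- The diagonal torus is in the normalizer. -/
theorem DD_nrm (y : R) : DD e inv y ∈ nrm ω ρ χ := by
  refine ⟨DD_sp e hinv hjj ω hω y, fun X hX => DD_norm e ρ χ hγ y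
    (fun x z x' z' h => four_ratio e hinv hne ρ hγ hq0 hq h4 y x z x' z' h) X hX, fun P hP v => ?_⟩
  have h1 : (DD e inv y).comp P = P.comp (DD e inv y) := by
    refine e.ext fun x => e.repr.injective (Finsupp.ext fun z => ?_)
    rw [LinearMap.comp_apply, LinearMap.comp_apply, DD_repr, DD_basis, map_smul, map_smul,
      Finsupp.smul_apply, smul_eq_mul]
    by_cases h : e.repr (P (e x)) z = 0
    · rw [h, mul_zero, mul_zero]
    · rw [diag_of_almost e ρ hγ (four_dist hinv hne hq h4) hP h]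
  exact congrArg (fun T : Module.End Ω V => T v) h1

include hγ hq0 hq hχ in
/-- The diagonal element attached to a logarithm kills all Tate forms. -/
theorem log_mem {F : Ω → Ω} (hF : ∀ x y, x ≠ 0 → y ≠ 0 → F (x * y) = F x + F y) :
    dg e (fun x => F (a x) - F q / 2) ∈ lieT ρ χ := by
  rintro m φ ⟨Δ, hΔ, hφ⟩
  rw [kills_dg]
  intro I hI
  obtain ⟨M, hM, -, hMΔ⟩ := Subgroup.exists_pow_mem_of_index_ne_zero hΔ.index_ne_zero γ
  have h1 := hφ (γ ^ M) hMΔ (fun l => e (I l))
  simp only [pow_eig e ρ hγ] at h1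
  rw [MultilinearMap.map_smul_univ, smul_eq_mul, map_pow, hχ] at h1
  have h3 := mul_right_cancel₀ hI h1
  have ha := eig_ne_zero e ρ hγ
  have h4 := congrArg F h3
  rw [log_prod hF _ _ (fun i _ => pow_ne_zero _ (ha _)), log_pow hF (pow_ne_zero _ hq0),
    log_pow hF hq0] at h4
  have h5 : ∑ i, F (a (I i) ^ M) = M * ∑ i, F (a (I i)) := by
    rw [Finset.mul_sum]
    exact Finset.sum_congr rfl fun i _ => log_pow hF (ha _) M
  have hM0 : (M : Ω) ≠ 0 := Nat.cast_ne_zero.2 hM.ne'
  have h6 : ∑ i, F (a (I i)) = m * F q := by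
    apply mul_left_cancel₀ hM0
    rw [← h5, h4]
    ring
  rw [Finset.sum_sub_distrib, h6, Finset.sum_const, Finset.card_univ, Fintype.card_prod,
    Fintype.card_fin, Fintype.card_fin, nsmul_eq_mul]
  push_cast
  ring

include hω hinv in
/-- The commutator of a diagonal element and a root vector. -/
theorem SS_dg (x : R → Ω) (hx : ∀ y, x (inv y) = -x y) (b c : R) :
    SS ω (e b) (e c) * dg e x - dg e x * SS ω (e b) (e c) = (-(x b + x c)) • SS ω (e b) (e c) := by
  refine e.ext fun y => ?_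
  rw [LinearMap.sub_apply, Module.End.mul_apply, Module.End.mul_apply, LinearMap.smul_apply,
    dg_basis, map_smul, SS_apply, map_add, map_smul, map_smul, dg_basis, dg_basis, hω, hω]
  have h1 : ∀ b : R, JJ inv jj b y * x y = -(JJ inv jj b y * x b) := by
    intro b
    unfold JJ
    by_cases h : y = inv b
    · rw [if_pos h, h, hx]
      ring
    · rw [if_neg h]
      ring
  have h2 := h1 b
  have h3 := h1 c
  rw [smul_add, smul_add, smul_smul, smul_smul, smul_smul, smul_smul, smul_smul, smul_smul,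
    mul_comm (x y), mul_comm (x y), h2, h3]
  module

include hinv hne hjj hj0 hω hq0 hq hχ h4 hγ in
/-- The root vectors of the normalizer are in the Lie algebra. -/
theorem SS_lieT {b c : R} (hbc : c ≠ inv b) (h : SS ω (e b) (e c) ∈ nrm ω ρ χ) :
    SS ω (e b) (e c) ∈ lieT ρ χ := by
  have ha := eig_ne_zero e ρ hγ
  have ht0 : a b * a c / q ≠ 0 := div_ne_zero (mul_ne_zero (ha b) (ha c)) hq0
  obtain ⟨F, hF, hFt⟩ := exists_log ht0 (by
    intro M hM h1
    apply hbc
    rw [div_pow, div_eq_one_iff_eq (pow_ne_zero _ hq0)] at h1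
    apply four_dist hinv hne hq h4 M hM
    have h2 : a b ^ M ≠ 0 := pow_ne_zero _ (ha b)
    apply mul_left_cancel₀ h2
    rw [← mul_pow, ← mul_pow, h1, hq])
  have h1 := h.2.1 _ (log_mem e ρ χ hγ hq0 hq hχ hF)
  rw [SS_dg e hinv ω hω _ (by
    intro y
    have h2 := hF _ _ (ha y) (ha (inv y))
    rw [hq] at h2
    linear_combination -h2)] at h1
  have h3 : F (a b * a c / q) = F (a b) + F (a c) - F q := by
    have h4 := hF (a b * a c / q) q ht0 hq0
    rw [div_mul_cancel₀ _ hq0, hF _ _ (ha b) (ha c)] at h4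
    linear_combination -h4
  refine (Submodule.smul_mem_iff _ ?_).1 h1
  intro h5
  apply hFt
  rw [h3]
  linear_combination -h5

theorem SS_bracket (hanti : ∀ u v, ω u v = -ω v u) (u w x y : V) :
    SS ω u w * SS ω x y - SS ω x y * SS ω u w =
      ω u y • SS ω x w + ω w y • SS ω x u + ω u x • SS ω y w + ω w x • SS ω y u := by
  ext v
  simp only [LinearMap.sub_apply, Module.End.mul_apply, SS_apply, LinearMap.add_apply,
    LinearMap.smul_apply, map_add, map_smul]
  rw [hanti x u, hanti x w, hanti y u, hanti y w]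
  module

include hω hinv hne hjj in
theorem SS_DD (b : R) : SS ω (e b) (e (inv b)) = (-jj b) • DD e inv b := by
  refine e.ext fun c => e.repr.injective (Finsupp.ext fun d => ?_)
  rw [LinearMap.smul_apply, map_smul, Finsupp.smul_apply, SS_repr e ω hω, DD_repr, e.repr_self,
    Finsupp.single_apply, smul_eq_mul]
  unfold JJ
  rw [hinv]
  by_cases hc : c = b
  · subst hc
    rw [if_neg (fun h => hne c h.symm), if_pos rfl, hjj]
    by_cases hd : c = d
    · subst hd
      rw [if_neg (hne c), if_pos rfl, dd_self hne]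
      ring
    · rw [if_neg hd]
      ring
  · rw [if_neg hc]
    by_cases hc2 : c = inv b
    · subst hc2
      rw [if_pos rfl]
      by_cases hd : inv b = d
      · subst hd
        rw [if_pos rfl, dd_inv hne]
        ring
      · rw [if_neg hd]
        ring
    · rw [if_neg hc2]
      by_cases hd : c = d
      · subst hd
        rw [dd_other hc hc2]
        ring
      · rw [if_neg hd]
        ring

end

end Pool.Agent.W516.FT
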