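import Mathlib
import Pool.Agent.W516.Four

/-!
# Tate forms in low degree for an element without multiplicative relations of length four
-/

set_option linter.unusedSectionVars false

namespace Pool.Agent.W516.FT

open Module Pool.Agent.H204R3.CM Pool.Agent.H204R3.SP Pool.Agent.H204R3.GP

noncomputable section

variable {Ω : Type*} [Field Ω] [CharZero Ω] {V : Type*} [AddCommGroup V] [Module Ω V]
  {R : Type*} [Fintype R] [DecidableEq R] (e : Basis R Ω V) {inv : R → R} {jj : R → Ω}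
  (hinv : ∀ x, inv (inv x) = x) (hne : ∀ x, inv x ≠ x)
  (hjj : ∀ x, jj (inv x) = -jj x) (hj0 : ∀ x, jj x ≠ 0)
  (ω : V →ₗ[Ω] V →ₗ[Ω] Ω) (hω : ∀ x y, ω (e x) (e y) = JJ inv jj x y)
  {Γ : Type*} [Group Γ] (ρ : Representation Ω Γ V) (χ : Γ →* Ω)
  (hωρ : ∀ s u v, ω (ρ s u) (ρ s v) = χ s * ω u v) (hss : HasProj ρ)
  {γ : Γ} {a : R → Ω} (hγ : ∀ x, ρ γ (e x) = a x • e x)
  {q : Ω} (hq0 : q ≠ 0) (hq : ∀ x, a x * a (inv x) = q) (hχ : χ γ = q) (h4 : Four inv a q)

include hω hinv hjj in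
theorem om_anti (u v : V) : ω u v = -ω v u := by
  have h1 : ω = -ω.flip := by
    refine e.ext fun x => e.ext fun y => ?_
    rw [LinearMap.neg_apply, LinearMap.neg_apply, LinearMap.flip_apply, hω, hω]
    unfold JJ
    by_cases h : y = inv x
    · have h2 : x = inv y := by rw [h, hinv]
      rw [if_pos h, if_pos h2, h, hjj, neg_neg]
    · have h2 : ¬ x = inv y := fun h' => h (by rw [h', hinv])
      rw [if_neg h, if_neg h2, neg_zero]
  exact congrArg (fun F : V →ₗ[Ω] V →ₗ[Ω] Ω => F u v) h1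

include hinv hne hjj hj0 hω hωρ hss hγ hq0 hq h4 in
theorem nCC_symm {x z : R} (hz : z ∈ CC e (nrm ω ρ χ) ω inv x) : x ∈ CC e (nrm ω ρ χ) ω inv z :=
  CC_symm e (nrm ω ρ χ) (nrm_bracket ω ρ χ) (DD_nrm e hinv hne hjj ω hω ρ χ hγ hq0 hq h4) hinv hne
    hjj hj0 ω hω (nrm_sp ω ρ χ) ρ (nrm_conj ω ρ χ hωρ) hss (nrm_comm ω ρ χ) hz

include hinv hne hjj hj0 hω hωρ hγ hq0 hq h4 in
theorem nCC_trans {x z w : R} (hz : z ∈ CC e (nrm ω ρ χ) ω inv x)
    (hw : w ∈ CC e (nrm ω ρ χ) ω inv z) : w ∈ CC e (nrm ω ρ χ) ω inv x :=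
  CC_trans e (nrm ω ρ χ) (nrm_bracket ω ρ χ) (DD_nrm e hinv hne hjj ω hω ρ χ hγ hq0 hq h4) hinv hne
    hjj hj0 ω hω (nrm_sp ω ρ χ) hz hw

include hinv hne hjj hj0 hω hωρ hss hγ hq0 hq hχ h4 in
theorem DD_self_mem {b : R} (h : inv b ∈ CC e (nrm ω ρ χ) ω inv b) : DD e inv b ∈ lieT ρ χ := by
  have hb : b ∈ CC e (nrm ω ρ χ) ω inv (inv b) :=
    nCC_symm e hinv hne hjj hj0 ω hω ρ χ hωρ hss hγ hq0 hq h4 h
  have h1 : SS ω (e (inv b)) (e (inv b)) ∈ lieT ρ χ :=
    SS_lieT e hinv hne hjj hj0 ω hω ρ χ hγ hq0 hq hχ h4 (by rw [hinv]; exact hne b)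
      (h.resolve_left (hne b))
  have h2 : SS ω (e b) (e b) ∈ lieT ρ χ := by
    have h3 := hb.resolve_left (hne b).symm
    rw [hinv] at h3
    exact SS_lieT e hinv hne hjj hj0 ω hω ρ χ hγ hq0 hq hχ h4 (hne b).symm h3
  have h3 := lieT_bracket ρ χ h2 h1
  rw [SS_bracket ω (om_anti e hinv hjj ω hω)] at h3
  have h4 : ω (e b) (e (inv b)) = jj b := by
    rw [hω]
    unfold JJ
    rw [if_pos rfl]
  rw [h4, SS_comm ω (e (inv b)) (e b), SS_DD e hinv hne hjj ω hω] at h3
  have h5 : jj b • (-jj b) • DD e inv b + jj b • (-jj b) • DD e inv b +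
      jj b • (-jj b) • DD e inv b + jj b • (-jj b) • DD e inv b =
      (-4 * (jj b * jj b)) • DD e inv b := by
    module
  rw [h5] at h3
  exact (Submodule.smul_mem_iff _ (mul_ne_zero (by norm_num) (mul_ne_zero (hj0 b) (hj0 b)))).1 h3

include hinv hne hjj hj0 hω hωρ hss hγ hq0 hq hχ h4 in
theorem DD_sub_mem {b b' : R} (h : b' ∈ CC e (nrm ω ρ χ) ω inv b) :
    DD e inv b - DD e inv b' ∈ lieT ρ χ := by
  by_cases hbb : b' = b
  · rw [hbb, sub_self]
    exact Submodule.zero_mem _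
  have hb : b ∈ CC e (nrm ω ρ χ) ω inv b' :=
    nCC_symm e hinv hne hjj hj0 ω hω ρ χ hωρ hss hγ hq0 hq h4 h
  by_cases hb2 : b' = inv b
  · subst hb2
    refine Submodule.sub_mem _ (DD_self_mem e hinv hne hjj hj0 ω hω ρ χ hωρ hss hγ hq0 hq hχ h4 h)
      (DD_self_mem e hinv hne hjj hj0 ω hω ρ χ hωρ hss hγ hq0 hq hχ h4 ?_)
    rw [hinv]
    exact hb
  have h1 : SS ω (e b') (e (inv b)) ∈ lieT ρ χ := by
    rw [SS_comm]
    exact SS_lieT e hinv hne hjj hj0 ω hω ρ χ hγ hq0 hq hχ h4 (by rw [hinv]; exact hbb)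
      (h.resolve_left hbb)
  have h2 : SS ω (e b) (e (inv b')) ∈ lieT ρ χ := by
    rw [SS_comm]
    exact SS_lieT e hinv hne hjj hj0 ω hω ρ χ hγ hq0 hq hχ h4
      (by rw [hinv]; exact fun h => hbb h.symm) (hb.resolve_left (fun h => hbb h.symm))
  have h3 := lieT_bracket ρ χ h2 h1
  rw [SS_bracket ω (om_anti e hinv hjj ω hω)] at h3
  have e1 : ω (e b) (e (inv b)) = jj b := by
    rw [hω]
    unfold JJ
    rw [if_pos rfl]
  have e2 : ω (e (inv b')) (e (inv b)) = 0 := by
    rw [hω]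
    unfold JJ
    rw [if_neg]
    intro h5
    rw [hinv] at h5
    exact hb2 h5.symm
  have e3 : ω (e b) (e b') = 0 := by
    rw [hω]
    unfold JJ
    rw [if_neg hb2]
  have e4 : ω (e (inv b')) (e b') = -jj b' := by
    rw [hω]
    unfold JJ
    rw [if_pos (hinv b').symm, hjj]
  rw [e1, e2, e3, e4, SS_comm ω (e (inv b)) (e b), SS_DD e hinv hne hjj ω hω,
    SS_DD e hinv hne hjj ω hω] at h3
  have h5 : jj b • (-jj b') • DD e inv b' + (0 : Ω) • SS ω (e b') (e b) +
      (0 : Ω) • SS ω (e (inv b)) (e (inv b')) + (-jj b') • (-jj b) • DD e inv b =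
      (jj b * jj b') • (DD e inv b - DD e inv b') := by
    module
  rw [h5] at h3
  exact (Submodule.smul_mem_iff _ (mul_ne_zero (hj0 b) (hj0 b'))).1 h3

theorem sum_dd {m : ℕ} (inv : R → R) (I : Fin m × Fin 2 → R) (y : R) :
    ∑ k, (dd inv y (I k) : Ω) = ((Finset.univ.filter (fun k => I k = y)).card : Ω) -
      ((Finset.univ.filter (fun k => I k = inv y)).card : Ω) := by
  unfold dd
  rw [Finset.sum_sub_distrib, Finset.sum_boole, Finset.sum_boole]

include hinv hne hjj hj0 hω hωρ hss hγ hq0 hq hχ h4 in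
/-- The weights of Tate forms of low degree are balanced. -/
theorem four_balanced {m : ℕ}
    (hbig : ∀ b, inv b ∉ CC e (nrm ω ρ χ) ω inv b → 2 * m < (CC e (nrm ω ρ χ) ω inv b).ncard)
    (φ : MultilinearMap Ω (fun _ : Fin m × Fin 2 => V) Ω) (hφ : IsTate ρ χ m φ)
    (I : Fin m × Fin 2 → R) (hI : φ (fun k => e (I k)) ≠ 0) (y : R) :
    (Finset.univ.filter (fun k => I k = y)).card =
      (Finset.univ.filter (fun k => I k = inv y)).card := by
  classical
  set N : R → ℕ := fun y => (Finset.univ.filter (fun k => I k = y)).card with hN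
  change N y = N (inv y)
  have hcard : ∀ S : Set R, (∀ z ∈ S, 0 < N z) → S.ncard ≤ 2 * m := by
    intro S hS
    have h1 : S ⊆ Set.range I := by
      intro z hz
      obtain ⟨k, hk⟩ := Finset.card_pos.1 (hS z hz)
      rw [Finset.mem_filter] at hk
      exact ⟨k, hk.2⟩
    refine (Set.ncard_le_ncard h1 (Set.finite_range I)).trans ?_
    rw [← Set.image_univ]
    refine (Set.ncard_image_le Set.finite_univ).trans ?_
    rw [Set.ncard_univ, Nat.card_eq_fintype_card, Fintype.card_prod, Fintype.card_fin,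
      Fintype.card_fin, mul_comm]
  by_cases hy : inv y ∈ CC e (nrm ω ρ χ) ω inv y
  · have h1 := DD_self_mem e hinv hne hjj hj0 ω hω ρ χ hωρ hss hγ hq0 hq hχ h4 hy m φ hφ
    rw [DD_eq_dg, kills_dg] at h1
    have h2 := h1 I hI
    rw [sum_dd] at h2
    have h3 : (N y : Ω) = (N (inv y) : Ω) := sub_eq_zero.1 h2
    exact_mod_cast h3
  · have h1 : ∀ b' ∈ CC e (nrm ω ρ χ) ω inv y,
        (N y : ℤ) - N (inv y) = (N b' : ℤ) - N (inv b') := by
      intro b' hb'
      have h2 := DD_sub_mem e hinv hne hjj hj0 ω hω ρ χ hωρ hss hγ hq0 hq hχ h4 hb' m φ hφ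
      have h3 : DD e inv y - DD e inv b' = dg e (fun z => dd inv y z - dd inv b' z) := by
        refine e.ext fun z => ?_
        rw [LinearMap.sub_apply, DD_basis, DD_basis, dg_basis, sub_smul]
      rw [h3, kills_dg] at h2
      have h4 := h2 I hI
      rw [Finset.sum_sub_distrib, sum_dd, sum_dd] at h4
      have h5 : (((N y : ℤ) - N (inv y) : ℤ) : Ω) = (((N b' : ℤ) - N (inv b') : ℤ) : Ω) := by
        push_cast
        linear_combination h4
      exact_mod_cast h5
    have h2 := hbig y hy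
    by_contra hcon
    rcases Nat.lt_or_gt_of_ne hcon with h3 | h3
    · have h4 := hcard (inv '' CC e (nrm ω ρ χ) ω inv y) (by
        rintro _ ⟨z, hz, rfl⟩
        have h5 := h1 z hz
        omega)
      rw [Set.ncard_image_of_injective _ (Function.Involutive.injective hinv)] at h4
      omega
    · have h4 := hcard (CC e (nrm ω ρ χ) ω inv y) (by
        intro z hz
        have h5 := h1 z hz
        omega)
      omega

include hinv hne hjj hj0 hω hωρ hγ hq0 hq h4 in
/-- Diagonal endomorphisms that are constant on the classes are almost equivariant. -/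
theorem dg_almost (c : R → Ω) (hc : ∀ y, ∀ z ∈ CC e (nrm ω ρ χ) ω inv y, c z = c y) :
    AlmostEquivariant ρ (dg e c) := by
  have hD := DD_nrm e hinv hne hjj ω hω ρ χ hγ hq0 hq h4
  choose Δx hΔx hΔx' using fun x : R => exists_stabilizer e (nrm ω ρ χ) hD hne ρ
    (nrm_conj ω ρ χ hωρ) (Submodule.span Ω (e '' CC e (nrm ω ρ χ) ω inv x))
    (UU_stable e (nrm ω ρ χ) (nrm_bracket ω ρ χ) hD hinv hne hjj hj0 ω hω (nrm_sp ω ρ χ) x)
  have h0 : ∀ (y : R), ∀ v ∈ Submodule.span Ω (e '' CC e (nrm ω ρ χ) ω inv y),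
      dg e c v = c y • v := by
    intro y v hv
    induction hv using Submodule.span_induction with
    | mem v hv =>
      obtain ⟨z, hz, rfl⟩ := hv
      rw [dg_basis, hc y z hz]
    | zero => rw [map_zero, smul_zero]
    | add a b _ _ ha hb => rw [map_add, ha, hb, smul_add]
    | smul c' a _ ha => rw [map_smul, ha, smul_comm]
  refine ⟨⨅ x, Δx x, Subgroup.finiteIndex_iInf hΔx, fun s hs v => ?_⟩
  have h2 : (dg e c).comp (ρ s) = (ρ s).comp (dg e c) := by
    refine e.ext fun y => ?_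
    rw [LinearMap.comp_apply, LinearMap.comp_apply, h0 y (ρ s (e y)) (hΔx' y s
      ((Subgroup.mem_iInf.1 hs) y) _ (Submodule.subset_span ⟨y, Or.inl rfl, rfl⟩)), dg_basis,
      map_smul]
  exact congrArg (fun T : Module.End Ω V => T v) h2

include hinv hne hjj hj0 hω hωρ hss hγ hq0 hq hχ h4 in
/-- Tate forms of low degree are linear combinations of products of Tate forms of degree two. -/
theorem four_mem {m : ℕ}
    (hsym : ∀ B : V →ₗ[Ω] V →ₗ[Ω] Ω, (∀ u w, B u w = B w u) → IsTate2 ρ χ B → B ≠ 0 →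
      4 * m < finrank Ω (LinearMap.range B))
    (φ : MultilinearMap Ω (fun _ : Fin m × Fin 2 => V) Ω) (hφ : IsTate ρ χ m φ) :
    φ ∈ Submodule.span Ω (PT ρ χ m) := by
  classical
  have hD := DD_nrm e hinv hne hjj ω hω ρ χ hγ hq0 hq h4
  have hbig : ∀ b, inv b ∉ CC e (nrm ω ρ χ) ω inv b →
      2 * m < (CC e (nrm ω ρ χ) ω inv b).ncard := by
    intro b hb
    have hexcl : ∀ z, z ∈ CC e (nrm ω ρ χ) ω inv b → inv z ∉ CC e (nrm ω ρ χ) ω inv b := by
      intro z hz hz'
      apply hb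
      have h3 := CC_inv e (nrm ω ρ χ) ω hinv hz
      have h4' := nCC_symm e hinv hne hjj hj0 ω hω ρ χ hωρ hss hγ hq0 hq h4 h3
      exact nCC_trans e hinv hne hjj hj0 ω hω ρ χ hωρ hγ hq0 hq h4 hz'
        (nCC_symm e hinv hne hjj hj0 ω hω ρ χ hωρ hss hγ hq0 hq h4 h4')
    have hcc : ∀ y, ∀ z ∈ CC e (nrm ω ρ χ) ω inv y,
        (z ∈ CC e (nrm ω ρ χ) ω inv b ↔ y ∈ CC e (nrm ω ρ χ) ω inv b) := by
      intro y z hz
      constructor
      · intro h
        exact nCC_trans e hinv hne hjj hj0 ω hω ρ χ hωρ hγ hq0 hq h4 h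
          (nCC_symm e hinv hne hjj hj0 ω hω ρ χ hωρ hss hγ hq0 hq h4 hz)
      · intro h
        exact nCC_trans e hinv hne hjj hj0 ω hω ρ χ hωρ hγ hq0 hq h4 h hz
    let c : R → Ω := fun z => if z ∈ CC e (nrm ω ρ χ) ω inv b then 1 else
      if inv z ∈ CC e (nrm ω ρ χ) ω inv b then -1 else 0
    have hcinv : ∀ z, c (inv z) = -c z := by
      intro z
      simp only [c, hinv]
      by_cases h1 : z ∈ CC e (nrm ω ρ χ) ω inv b
      · rw [if_neg (hexcl z h1), if_pos h1, if_pos h1]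
      · rw [if_neg h1, if_neg h1]
        by_cases h2 : inv z ∈ CC e (nrm ω ρ χ) ω inv b
        · rw [if_pos h2, if_pos h2, neg_neg]
        · rw [if_neg h2, if_neg h2, neg_zero]
    have hc : ∀ y, ∀ z ∈ CC e (nrm ω ρ χ) ω inv y, c z = c y := by
      intro y z hz
      have h2 : inv z ∈ CC e (nrm ω ρ χ) ω inv b ↔ inv y ∈ CC e (nrm ω ρ χ) ω inv b :=
        (hcc (inv z) (inv y) (CC_inv e (nrm ω ρ χ) ω hinv hz)).symm
      simp only [c, hcc y z hz, h2]
    let B : V →ₗ[Ω] V →ₗ[Ω] Ω := ω.comp (dg e c)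
    have hBe : ∀ x y, B (e x) (e y) = c x * JJ inv jj x y := by
      intro x y
      change ω (dg e c (e x)) (e y) = _
      rw [dg_basis, map_smul, LinearMap.smul_apply, hω, smul_eq_mul]
    have hB1 : ∀ u w, B u w = B w u := by
      have h1 : B = B.flip := by
        refine e.ext fun x => e.ext fun y => ?_
        rw [LinearMap.flip_apply, hBe, hBe]
        unfold JJ
        by_cases h : y = inv x
        · have h2 : x = inv y := by rw [h, hinv]
          rw [if_pos h, if_pos h2, h, hcinv, hjj, neg_mul_neg]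
        · have h2 : ¬ x = inv y := fun h' => h (by rw [h', hinv])
          rw [if_neg h, if_neg h2, mul_zero, mul_zero]
      intro u w
      exact congrArg (fun F : V →ₗ[Ω] V →ₗ[Ω] Ω => F u w) h1
    have hB2 : IsTate2 ρ χ B := by
      obtain ⟨Δ, hΔ, h1⟩ := dg_almost e hinv hne hjj hj0 ω hω ρ χ hωρ hγ hq0 hq h4 c hc
      refine ⟨Δ, hΔ, fun s hs u v => ?_⟩
      change ω (dg e c (ρ s u)) (ρ s v) = χ s * ω (dg e c u) v
      rw [h1 s hs, hωρ]
    have hB3 : B ≠ 0 := by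
      intro h
      have h1 := hBe b (inv b)
      rw [h, LinearMap.zero_apply, LinearMap.zero_apply] at h1
      have h2 : c b = 1 := if_pos (mem_CC_self e (nrm ω ρ χ) ω b)
      unfold JJ at h1
      rw [h2, if_pos rfl, one_mul] at h1
      exact hj0 b h1.symm
    have h1 := hsym B hB1 hB2 hB3
    -- the rank
    let S : Set R := CC e (nrm ω ρ χ) ω inv b ∪ inv '' CC e (nrm ω ρ χ) ω inv b
    have h2 : LinearMap.range B ≤ Submodule.span Ω ((fun z => ω (e z)) '' S) := by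
      rintro _ ⟨v, rfl⟩
      rw [← e.sum_repr v, map_sum]
      refine Submodule.sum_mem _ fun z _ => ?_
      rw [map_smul]
      refine Submodule.smul_mem _ _ ?_
      change ω (dg e c (e z)) ∈ _
      rw [dg_basis, map_smul]
      by_cases hz : z ∈ S
      · exact Submodule.smul_mem _ _ (Submodule.subset_span ⟨z, hz, rfl⟩)
      · have h3 : c z = 0 := by
          simp only [c]
          rw [if_neg (fun h => hz (Or.inl h)), if_neg]
          intro h
          exact hz (Or.inr ⟨inv z, h, hinv z⟩)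
        rw [h3, zero_smul]
        exact Submodule.zero_mem _
    have hfd : Module.Finite Ω (Submodule.span Ω ((fun z => ω (e z)) '' S)) :=
      FiniteDimensional.span_of_finite Ω (Set.toFinite _)
    have h3 := Submodule.finrank_mono h2
    have h5 := finrank_span_le_card (R := Ω) ((fun z => ω (e z)) '' S)
    rw [← Set.ncard_eq_toFinset_card'] at h5
    have h6 : ((fun z => ω (e z)) '' S).ncard ≤ S.ncard := Set.ncard_image_le (Set.toFinite _)
    have h7 : S.ncard ≤ (CC e (nrm ω ρ χ) ω inv b).ncard +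
        (inv '' CC e (nrm ω ρ χ) ω inv b).ncard := Set.ncard_union_le _ _
    have h8 : (inv '' CC e (nrm ω ρ χ) ω inv b).ncard = (CC e (nrm ω ρ χ) ω inv b).ncard :=
      Set.ncard_image_of_injective _ (Function.Involutive.injective hinv)
    omega
  refine tateN_mem e hinv hne hjj hj0 ω hω ρ χ (nrm ω ρ χ) (nrm_bracket ω ρ χ) hD
    (nrm_sp ω ρ χ) (nrm_conj ω ρ χ hωρ) (nrm_comm ω ρ χ) hωρ hss φ ?_
  intro b c hc
  by_cases hcb : c = inv b
  · subst hcb
    have h1 : SS ω (e b) (e (inv b)) = dg e (fun z => (-jj b) * dd inv b z) := by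
      rw [SS_DD e hinv hne hjj ω hω]
      refine e.ext fun z => ?_
      rw [LinearMap.smul_apply, DD_basis, dg_basis, smul_smul]
    rw [h1, kills_dg]
    intro I hI
    rw [← Finset.mul_sum, sum_dd, four_balanced e hinv hne hjj hj0 ω hω ρ χ hωρ hss hγ hq0 hq hχ h4
      hbig φ hφ I hI b, sub_self, mul_zero]
  · have h1 := hc.resolve_left hcb
    rw [hinv] at h1
    exact SS_lieT e hinv hne hjj hj0 ω hω ρ χ hγ hq0 hq hχ h4 hcb h1 m φ hφ

end

end Pool.Agent.W516.FT
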