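import Mathlib
import Pool.Agent.H204R3.GP.Defs

/-!
# Relations of length four between the eigenvalues of an element
-/

namespace Pool.Agent.W516.FT

open Pool.Agent.H204R3.GP

/-- The complex roots `a`, `b`, `c`, `d` of the polynomial `P` satisfy `a b c d = ζ q ^ 2`, with a
root of unity `ζ`, only if they fall into two pairs with product `q`. -/
def OnlyTrivialRelationsOfLengthFour (P : Polynomial ℚ) (q : ℕ) : Prop :=
  ∀ M : ℕ, 0 < M → ∀ a ∈ P.rootSet ℂ, ∀ b ∈ P.rootSet ℂ, ∀ c ∈ P.rootSet ℂ, ∀ d ∈ P.rootSet ℂ,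
    (a * b * c * d) ^ M = (q : ℂ) ^ (2 * M) →
      (a * b = q ∧ c * d = q) ∨ (a * c = q ∧ b * d = q) ∨ (a * d = q ∧ b * c = q)

/-- `B` is a symmetric bilinear form on `V` with values in an extension `Ω` of the field of
coefficients, and a subgroup of finite index acts on it through the character `χ`. -/
def IsSymmetricTateForm {k V Γ Ω : Type*} [Field k] [AddCommGroup V] [Module k V] [Group Γ]
    [Field Ω] [Algebra k Ω] (ρ : Representation k Γ V) (χ : Γ →* k) (B : V →ₗ[k] V →ₗ[k] Ω) :
    Prop :=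
  (∀ u v, B u v = B v u) ∧
    ∃ Δ : Subgroup Γ, Δ.FiniteIndex ∧ ∀ s ∈ Δ, ∀ u v, B (ρ s u) (ρ s v) = χ s • B u v

/-- The rank of a bilinear form on `V` with values in `Ω`: the dimension of the `Ω`-vector space of
functions on `V` spanned by the functions `B(u, ·)`. -/
noncomputable def formRank {k V Ω : Type*} [Field k] [AddCommGroup V] [Module k V]
    [Field Ω] [Algebra k Ω] (B : V →ₗ[k] V →ₗ[k] Ω) : ℕ :=
  Module.finrank Ω (Submodule.span Ω (Set.range fun (u : V) (v : V) => B u v))

/-- For all finite extensions `Ω` of the field of coefficients the nonzero symmetric Tate forms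
with values in `Ω` have rank greater than `d`. -/
def SymmetricTateFormsHaveRankGreaterThan {k : Type} {V Γ : Type*} [Field k] [AddCommGroup V]
    [Module k V] [Group Γ] (ρ : Representation k Γ V) (χ : Γ →* k) (d : ℕ) : Prop :=
  ∀ (Ω : Type) [Field Ω] [Algebra k Ω] [FiniteDimensional k Ω] (B : V →ₗ[k] V →ₗ[k] Ω),
    IsSymmetricTateForm ρ χ B → B ≠ 0 → d < formRank B

/-- On all powers `A ^ n`, all Tate classes of codimension `m` are linear combinations of wedge
products of Tate classes of degree two. -/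
def GeneratedInCodimension {k V Γ : Type*} [Field k] [AddCommGroup V] [Module k V] [Group Γ]
    (ρ : Representation k Γ V) (χ : Γ →* k) (m : ℕ) : Prop :=
  ∀ (n : ℕ) (f : (Fin n → V) [⋀^Fin m × Fin 2]→ₗ[k] k), IsTateClass ρ χ m f →
    f ∈ Submodule.span k {g : (Fin n → V) [⋀^Fin m × Fin 2]→ₗ[k] k |
      ∃ B : Fin m → (Fin n → V) [⋀^Fin 2]→ₗ[k] k, (∀ l, IsTateClass ρ χ 1 (B l)) ∧ IsWedge B g}

end Pool.Agent.W516.FT
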