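import Mathlib
import Pool.Agent.W516.FourDefs
import Pool.Agent.W516.Four2
import Pool.Agent.H204R3.GP.DescentG
import Pool.Agent.H204R3.SP.Frob

/-!
# Tate forms in low degree: the theorem over the field of coefficients
-/

set_option linter.unusedSectionVars false

namespace Pool.Agent.W516.FT

open Module TensorProduct Pool.Agent.H204R3.CM Pool.Agent.H204R3.SP Pool.Agent.H204R3.GP

noncomputable section

/-- A basis of eigenvectors. -/
theorem exists_eigenbasis {Ω : Type*} [Field Ω] {W : Type*} [AddCommGroup W] [Module Ω W]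
    [FiniteDimensional Ω W] (T : Module.End Ω W) (S : Set Ω) [Fintype S]
    (hS : ∀ x ∈ S, T.charpoly.IsRoot x) (hcard : Fintype.card S = finrank Ω W) :
    ∃ e : Basis S Ω W, ∀ x : S, T (e x) = (x : Ω) • e x := by
  classical
  have h1 : ∀ x : S, ∃ v : W, T.HasEigenvector (x : Ω) v := fun x =>
    ((Module.End.hasEigenvalue_iff_isRoot_charpoly T x).2 (hS x x.2)).exists_hasEigenvector
  choose v hv using h1
  have h2 : LinearIndependent Ω v :=
    Module.End.eigenvectors_linearIndependent' T (fun x : S => (x : Ω)) Subtype.coe_injective v hv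
  by_cases hne : Nonempty S
  · refine ⟨basisOfLinearIndependentOfCardEqFinrank h2 hcard, fun x => ?_⟩
    rw [coe_basisOfLinearIndependentOfCardEqFinrank]
    exact (hv x).apply_eq_smul
  · have h3 : IsEmpty S := not_nonempty_iff.1 hne
    rw [Fintype.card_eq_zero] at hcard
    have h4 : Subsingleton W := Module.finrank_zero_iff.1 hcard.symm
    exact ⟨Basis.empty W, fun x => h3.elim x⟩

/-- The relations in another field. -/
theorem relations_transfer {P : Polynomial ℚ} (hP : P ≠ 0) {q : ℕ}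
    (h4 : OnlyTrivialRelationsOfLengthFour P q) {Ω : Type*} [Field Ω] [CharZero Ω]
    (M : ℕ) (hM : 0 < M) (a b c d : Ω) (ha : a ∈ P.rootSet Ω) (hb : b ∈ P.rootSet Ω)
    (hc : c ∈ P.rootSet Ω) (hd : d ∈ P.rootSet Ω) (h : (a * b * c * d) ^ M = (q : Ω) ^ (2 * M)) :
    (a * b = q ∧ c * d = q) ∨ (a * c = q ∧ b * d = q) ∨ (a * d = q ∧ b * c = q) := by
  classical
  let E := IntermediateField.adjoin ℚ (P.rootSet Ω)
  have hE : Algebra.IsAlgebraic ℚ E := IntermediateField.isAlgebraic_adjoin (fun x hx => by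
    rw [Polynomial.mem_rootSet] at hx
    exact (isAlgebraic_iff_isIntegral).1 ⟨P, hx.1, hx.2⟩)
  let σ : E →ₐ[ℚ] ℂ := IsAlgClosed.lift
  have hmem : ∀ x ∈ P.rootSet Ω, x ∈ E := fun x hx => IntermediateField.subset_adjoin _ _ hx
  have hroot : ∀ (x : Ω) (hx : x ∈ P.rootSet Ω), σ ⟨x, hmem x hx⟩ ∈ P.rootSet ℂ := by
    intro x hx
    rw [Polynomial.mem_rootSet]
    refine ⟨hP, ?_⟩
    rw [Polynomial.aeval_algHom_apply]
    have h1 : Polynomial.aeval (⟨x, hmem x hx⟩ : E) P = 0 := by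
      apply (algebraMap E Ω).injective
      rw [map_zero, ← Polynomial.aeval_algebraMap_apply]
      exact (Polynomial.mem_rootSet.1 hx).2
    rw [h1, map_zero]
  have key : ∀ x y : E, (x : Ω) * y = q ↔ σ x * σ y = q := by
    intro x y
    have hσ : Function.Injective σ := σ.toRingHom.injective
    rw [← map_mul, ← map_natCast σ q, hσ.eq_iff, ← Subtype.coe_inj]
    push_cast
    rfl
  have h1 := h4 M hM _ (hroot a ha) _ (hroot b hb) _ (hroot c hc) _ (hroot d hd) (by
    rw [← map_mul, ← map_mul, ← map_mul, ← map_pow, ← map_natCast σ q, ← map_pow]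
    congr 1
    apply Subtype.coe_injective
    push_cast
    exact h)
  rw [← key, ← key, ← key, ← key, ← key, ← key] at h1
  exact h1

/-- The main theorem. -/
theorem tate_of_four {k : Type} [Field k] [CharZero k] {V : Type*} [AddCommGroup V]
    [Module k V] [FiniteDimensional k V]
    {Γ : Type*} [Group Γ] (ρ : Representation k Γ V) (χ : Γ →* k)
    (ω : V →ₗ[k] V →ₗ[k] k) (halt : ∀ v, ω v v = 0) (hnd : ∀ u, (∀ v, ω v u = 0) → u = 0)
    (hωρ : ∀ s u v, ω (ρ s u) (ρ s v) = χ s * ω u v)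
    (hss : ∀ Δ : Subgroup Γ, Δ.FiniteIndex → SemiUnder (ρ '' (Δ : Set Γ)))
    (γ : Γ) {q : ℕ} (hχ : χ γ = q) {P : Polynomial ℚ} (hP : P.Separable)
    (hγ : (ρ γ).charpoly = P.map (algebraMap ℚ k)) (h4 : OnlyTrivialRelationsOfLengthFour P q)
    {m : ℕ} (hsym : SymmetricTateFormsHaveRankGreaterThan ρ χ (4 * m))
    (φ : MultilinearMap k (fun _ : Fin m × Fin 2 => V) k) (hφ : IsTate ρ χ m φ) :
    φ ∈ Submodule.span k (PT ρ χ m) := by
  classical
  have hq0' : (χ γ) ≠ 0 := by
    intro h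
    have h1 : χ γ * χ γ⁻¹ = 1 := by rw [← map_mul, mul_inv_cancel, map_one]
    rw [h, zero_mul] at h1
    exact zero_ne_one h1
  let Ω := (P.map (algebraMap ℚ k)).SplittingField
  have _ : CharZero Ω := charZero_of_injective_algebraMap (algebraMap k Ω).injective
  have hanti : ∀ u v, ω u v = -ω v u := by
    intro u v
    have h1 := halt (u + v)
    simp only [map_add, LinearMap.add_apply, halt, zero_add, add_zero] at h1
    exact eq_neg_of_add_eq_zero_left (by rw [← h1]; ring)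
  have hnd' : ∀ u, (∀ v, ω u v = 0) → u = 0 := by
    intro u hu
    apply hnd
    intro v
    rw [hanti, hu, neg_zero]
  let b := Module.finBasis k V
  have hmap : (P.map (algebraMap ℚ k)).map (algebraMap k Ω) = P.map (algebraMap ℚ Ω) := by
    rw [Polynomial.map_map]
    congr 1
  have hTchar : (bcr ρ Ω γ).charpoly = P.map (algebraMap ℚ Ω) := by
    change ((ρ γ).baseChange Ω).charpoly = _
    rw [LinearMap.charpoly_baseChange, hγ, hmap]
  have hsplit : (P.map (algebraMap ℚ Ω)).Splits := by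
    rw [← hmap]
    exact Polynomial.SplittingField.splits _
  have hcard : Fintype.card (P.rootSet Ω) = finrank Ω (Ω ⊗[k] V) := by
    rw [Polynomial.card_rootSet_eq_natDegree hP hsplit, ← LinearMap.charpoly_natDegree (bcr ρ Ω γ),
      hTchar, Polynomial.natDegree_map]
  obtain ⟨e, he⟩ := exists_eigenbasis (bcr ρ Ω γ) (P.rootSet Ω) (fun x hx => by
    rw [hTchar, Polynomial.IsRoot.def, Polynomial.eval_map_algebraMap]
    exact (Polynomial.mem_rootSet.1 hx).2) hcard
  have hq : bcc χ Ω γ = (q : Ω) := by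
    rw [bcc_apply, hχ, map_natCast]
  have hq0 : (q : Ω) ≠ 0 := by
    rw [← hq, bcc_apply]
    exact fun h => hq0' ((algebraMap k Ω).injective (by rw [h, map_zero]))
  have hantiΩ : ∀ u v, bcb Ω ω u v = -bcb Ω ω v u := by
    have h1 : bcb Ω ω = -(bcb Ω ω).flip := by
      refine (b.baseChange Ω).ext fun i => (b.baseChange Ω).ext fun l => ?_
      rw [LinearMap.neg_apply, LinearMap.neg_apply, LinearMap.flip_apply, Basis.baseChange_apply,
        Basis.baseChange_apply, bcb_one, bcb_one, hanti, map_neg]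
    intro u v
    exact congrArg (fun F : (Ω ⊗[k] V) →ₗ[Ω] (Ω ⊗[k] V) →ₗ[Ω] Ω => F u v) h1
  -- the involution
  have hprod : ∀ x y : P.rootSet Ω, bcb Ω ω (e x) (e y) ≠ 0 → (x : Ω) * y = q := by
    intro x y h0
    have h1 := bcb_inv ρ χ (Ω := Ω) ω hωρ γ (e x) (e y)
    rw [he, he, map_smul, map_smul, LinearMap.smul_apply, smul_eq_mul, smul_eq_mul, hq,
      ← mul_assoc] at h1
    have h2 := mul_right_cancel₀ h0 h1
    rw [← h2, mul_comm]
  have hex : ∀ x : P.rootSet Ω, ∃ y, bcb Ω ω (e x) (e y) ≠ 0 := by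
    intro x
    by_contra hcon
    push Not at hcon
    apply e.ne_zero x
    apply bcb_nondeg b ω hnd hnd'
    intro v
    rw [hantiΩ, ← e.sum_repr v, map_sum, neg_eq_zero]
    refine Finset.sum_eq_zero fun y _ => ?_
    rw [map_smul, hcon, smul_zero]
  choose inv hinv0 using hex
  have hxinv : ∀ x : P.rootSet Ω, (x : Ω) * inv x = q := fun x => hprod x _ (hinv0 x)
  have hx0 : ∀ x : P.rootSet Ω, (x : Ω) ≠ 0 := by
    intro x h
    apply hq0
    rw [← hxinv x, h, zero_mul]
  have huniq : ∀ x y : P.rootSet Ω, (x : Ω) * y = q → y = inv x := by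
    intro x y h
    apply Subtype.coe_injective
    apply mul_left_cancel₀ (hx0 x)
    rw [h, hxinv]
  have hinv : ∀ x, inv (inv x) = x := fun x =>
    (huniq (inv x) x (by rw [mul_comm, hxinv])).symm
  have hne : ∀ x, inv x ≠ x := by
    intro x h
    have h1 := hantiΩ (e x) (e x)
    have h2 : bcb Ω ω (e x) (e x) = 0 := by
      have h3 : (2 : Ω) * bcb Ω ω (e x) (e x) = 0 := by linear_combination h1
      exact (mul_eq_zero.1 h3).resolve_left two_ne_zero
    apply hinv0 x
    rw [h, h2]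
  let jj : P.rootSet Ω → Ω := fun x => bcb Ω ω (e x) (e (inv x))
  have hjj : ∀ x, jj (inv x) = -jj x := by
    intro x
    simp only [jj, hinv]
    exact hantiΩ _ _
  have hj0 : ∀ x, jj x ≠ 0 := hinv0
  have hω : ∀ x y, bcb Ω ω (e x) (e y) = JJ inv jj x y := by
    intro x y
    unfold JJ
    by_cases hy : y = inv x
    · rw [if_pos hy, hy]
    · rw [if_neg hy]
      by_contra h0
      exact hy (huniq x y (hprod x y h0))
  have hfour : Four inv (fun x : P.rootSet Ω => (x : Ω)) (q : Ω) := by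
    intro M hM x y z w h
    rcases relations_transfer (Polynomial.Separable.ne_zero hP) h4 M hM (x : Ω) y z w x.2 y.2 z.2
      w.2 h with h | h | h
    · exact Or.inl ⟨huniq _ _ h.1, huniq _ _ h.2⟩
    · exact Or.inr (Or.inl ⟨huniq _ _ h.1, huniq _ _ h.2⟩)
    · exact Or.inr (Or.inr ⟨huniq _ _ h.1, huniq _ _ h.2⟩)
  have hproj : HasProj (bcr ρ Ω) := by
    intro Δ hΔ U hU
    obtain ⟨P', hP1, hP2, hP3⟩ := exists_proj_baseChange (Ω := Ω) (ρ '' (Δ : Set Γ)) (hss Δ hΔ) U
      (by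
        rintro _ ⟨s, hs, rfl⟩ u hu
        exact hU s hs u hu)
    exact ⟨P', hP1, hP2, fun s hs v => hP3 _ ⟨s, hs, rfl⟩ v⟩
  refine tate_descentG (Ω := Ω) b ρ χ ?_ φ hφ
  intro φ' hφ'
  refine four_mem e hinv hne hjj hj0 (bcb Ω ω) hω (bcr ρ Ω) (bcc χ Ω) (bcb_inv ρ χ ω hωρ) hproj he
    hq0 hxinv hq hfour ?_ φ' hφ'
  rintro B hB1 ⟨Δ, hΔ, hB2⟩ hB3
  -- the form on `V` with values in `Ω`
  let B' : V →ₗ[k] V →ₗ[k] Ω := LinearMap.mk₂ k
    (fun u v => B ((1 : Ω) ⊗ₜ[k] u) ((1 : Ω) ⊗ₜ[k] v))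
    (fun u u' v => by rw [TensorProduct.tmul_add, map_add, LinearMap.add_apply])
    (fun c u v => by
      rw [TensorProduct.tmul_smul, ← algebraMap_smul Ω c ((1 : Ω) ⊗ₜ[k] u), map_smul,
        LinearMap.smul_apply, algebraMap_smul])
    (fun u v v' => by rw [TensorProduct.tmul_add, map_add])
    (fun c u v => by
      rw [TensorProduct.tmul_smul, ← algebraMap_smul Ω c ((1 : Ω) ⊗ₜ[k] v), map_smul,
        algebraMap_smul])
  have hB'a : ∀ u v, B' u v = B ((1 : Ω) ⊗ₜ[k] u) ((1 : Ω) ⊗ₜ[k] v) := fun _ _ => rfl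
  have h1 := hsym Ω B' ⟨fun u v => by rw [hB'a, hB'a, hB1], Δ, hΔ, fun s hs u v => by
    have h2 := hB2 s hs ((1 : Ω) ⊗ₜ[k] u) ((1 : Ω) ⊗ₜ[k] v)
    rw [bcr_tmul, bcr_tmul, bcc_apply] at h2
    rw [hB'a, hB'a, h2, Algebra.smul_def]⟩ (by
    intro h
    apply hB3
    refine (b.baseChange Ω).ext fun i => (b.baseChange Ω).ext fun l => ?_
    have h2 := congrArg (fun F : V →ₗ[k] V →ₗ[k] Ω => F (b i) (b l)) h
    simp only [hB'a, LinearMap.zero_apply] at h2
    rw [Basis.baseChange_apply, Basis.baseChange_apply, h2, LinearMap.zero_apply,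
      LinearMap.zero_apply])
  refine h1.trans_le ?_
  let res : ((Ω ⊗[k] V) →ₗ[Ω] Ω) →ₗ[Ω] (V → Ω) :=
    { toFun := fun F v => F ((1 : Ω) ⊗ₜ[k] v)
      map_add' := fun _ _ => rfl
      map_smul' := fun _ _ => rfl }
  have h2 : Submodule.span Ω (Set.range fun (u : V) (v : V) => B' u v) ≤
      (LinearMap.range B).map res := by
    rw [Submodule.span_le]
    rintro _ ⟨u, rfl⟩
    exact ⟨B ((1 : Ω) ⊗ₜ[k] u), ⟨_, rfl⟩, rfl⟩
  exact (Submodule.finrank_mono h2).trans (Submodule.finrank_map_le res (LinearMap.range B))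

end

end Pool.Agent.W516.FT
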