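import Mathlib

/-!
# De Rham-Betti objects

Let `k` and `K` be subfields of the field `L` of complex numbers, `k ⊆ K`.  A de Rham-Betti object
(more precisely its dual) is a finite-dimensional vector space `W` over `k`, for instance the
homology group `H_1(A, ℚ)`, and a `K`-structure on the space of the linear maps from `W` to `L`,
for instance `H^1_dR(A / K)`, a differential form acting by integration.  The `K`-structure is given
by one of its bases `η`, which is at the same time a basis over `L` of the space of the linear maps
from `W` to `L`; the numbers `η i w` are the periods.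
-/

namespace Pool.Agent.W516.DR

open Module

variable (K : Type*) {k L W ι : Type*} [Field k] [Field K] [Field L] [Algebra k L] [Algebra K L]
  [AddCommGroup W] [Module k W] [Fintype ι]

/-- A multilinear form `φ` with values in `k` on the Betti side `W`, in `2 m` variables, is a *de
Rham-Betti class* (in `(W^∨) ^ {⊗ 2 m} (m)`) if `τ ^ m φ` (where `τ = 2 π i`) is a linear
combination with coefficients in `K` of the products of the periods `η`. -/
def IsDeRhamBettiForm (η : ι → (W →ₗ[k] L)) (τ : L) (m : ℕ)
    (φ : MultilinearMap k (fun _ : Fin m × Fin 2 => W) k) : Prop :=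
  ∃ a : (Fin m × Fin 2 → ι) → K, ∀ v : Fin m × Fin 2 → W,
    τ ^ m * algebraMap k L (φ v) = ∑ J, algebraMap K L (a J) * ∏ l, η (J l) (v l)

/-- The same for bilinear forms. -/
def IsDeRhamBettiBilinear (η : ι → (W →ₗ[k] L)) (τ : L) (B : W →ₗ[k] W →ₗ[k] k) : Prop :=
  ∃ a : ι → ι → K, ∀ u v : W,
    τ * algebraMap k L (B u v) = ∑ i, ∑ j, algebraMap K L (a i j) * (η i u * η j v)

/-- The endomorphism `P` of the Betti side is an endomorphism of the de Rham-Betti object: it
respects the `K`-structure. -/
def IsDeRhamBettiEnd (η : ι → (W →ₗ[k] L)) (P : W →ₗ[k] W) : Prop :=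
  ∃ a : ι → ι → K, ∀ i w, η i (P w) = ∑ j, algebraMap K L (a i j) * η j w

/-- The subspace `U` of the Betti side is a subobject: the restrictions to `U` of the elements of
the `K`-structure form a `K`-structure on the space of the linear maps from `U` to `L`, that is,
their `K`-linear span is of dimension `dim U`. -/
def IsDeRhamBettiSubspace (η : ι → (W →ₗ[k] L)) (U : Submodule k W) : Prop :=
  finrank K (Submodule.span K (Set.range fun (i : ι) (u : U) => η i u)) = finrank k U

/-- The de Rham-Betti object is semisimple: every subobject has a complement. -/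
def DeRhamBettiSemisimple (η : ι → (W →ₗ[k] L)) : Prop :=
  ∀ U : Submodule k W, IsDeRhamBettiSubspace K η U →
    ∃ U' : Submodule k W, IsDeRhamBettiSubspace K η U' ∧ IsCompl U U'

end Pool.Agent.W516.DR
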