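import Mathlib
import Pool.Agent.W516.DRDual
import Pool.Agent.W516.DRDefs
import Pool.Agent.W516.Casimir

/-!
# The Lie algebra of a de Rham-Betti object
-/

set_option linter.unusedSectionVars false

namespace Pool.Agent.W516.DR

open Module TensorProduct Pool.Agent.H204R3.SP Pool.Agent.H204R3.GP

noncomputable section

variable {k K L : Type*} [Field k] [Field K] [Field L] [CharZero k] [CharZero K] [CharZero L]
  [IsAlgClosed K] [Algebra k K] [Algebra k L]
  [Algebra K L] [IsScalarTower k K L]
  {W : Type*} [AddCommGroup W] [Module k W] [FiniteDimensional k W]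
  {ι : Type*} [Fintype ι] [DecidableEq ι] (η : Basis ι L (W →ₗ[k] L)) {τ : L} (hτ : τ ≠ 0)

/-- The logarithmic derivative, corrected by a scalar. -/
def XL (τ : L) (D : Derivation K L L) : Module.End L (L ⊗[k] W) :=
  XX η D - (D τ / (2 * τ)) • (1 : Module.End L (L ⊗[k] W))

/-- The rational components. -/
def X0 (τ : L) (D : Derivation K L L) (lam : L →ₗ[k] k) : Module.End k W :=
  cmpE lam (XL η τ D)

variable {ν : Type*} [Fintype ν] [DecidableEq ν] (b : Basis ν k W)

include hτ in
/-- The derivative of the coefficients of a rational form. -/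
theorem der_coef {m : ℕ} (φ : MultilinearMap k (fun _ : Fin m × Fin 2 => W) k)
    (D : Derivation K L L) (J : Fin m × Fin 2 → ι) :
    D (τ ^ m * bcm (Ω := L) b φ (fun l => ee η (J l))) =
      -(τ ^ m * ∑ j, bcm (Ω := L) b φ (Function.update (fun l => ee η (J l)) j
        (XL η τ D (ee η (J j))))) := by
  rw [Derivation.leibniz, der_bcm, smul_eq_mul, smul_eq_mul]
  have h1 : ∀ j, bcm (Ω := L) b φ (Function.update (fun l => ee η (J l)) j
      (XL η τ D (ee η (J j)))) =
      -bcm (Ω := L) b φ (Function.update (fun l => ee η (J l)) j (dW D (ee η (J j)))) -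
        (D τ / (2 * τ)) * bcm (Ω := L) b φ (fun l => ee η (J l)) := by
    intro j
    have h2 : XL η τ D (ee η (J j)) = (-1 : L) • dW D (ee η (J j)) +
        (-(D τ / (2 * τ))) • ee η (J j) := by
      unfold XL
      rw [LinearMap.sub_apply, XX_ee, LinearMap.smul_apply, Module.End.one_apply]
      module
    have h3 : Function.update (fun l => ee η (J l)) j (ee η (J j)) = fun l => ee η (J l) :=
      Function.update_eq_self j (fun l => ee η (J l))
    rw [h2, MultilinearMap.map_update_add, MultilinearMap.map_update_smul,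
      MultilinearMap.map_update_smul, h3, smul_eq_mul, smul_eq_mul]
    ring
  rw [Finset.sum_congr rfl (fun j _ => h1 j), Finset.sum_sub_distrib, Finset.sum_neg_distrib,
    Finset.sum_const, Finset.card_univ, Fintype.card_prod, Fintype.card_fin, Fintype.card_fin,
    nsmul_eq_mul, Derivation.leibniz_pow, smul_eq_mul, nsmul_eq_mul]
  cases m with
  | zero => simp
  | succ n =>
    rw [Nat.add_sub_cancel]
    push_cast
    field_simp
    ring

theorem mem_K {x : L} (hx : ∀ D : Derivation K L L, D x = 0) : ∃ a : K, algebraMap K L a = x :=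
  mem_of_derivation hx

include hτ b in
/-- A rational form is a de Rham-Betti class if and only if it is killed by the components of the
logarithmic derivatives. -/
theorem drb_iff {m : ℕ} (φ : MultilinearMap k (fun _ : Fin m × Fin 2 => W) k) :
    IsDeRhamBettiForm K (η : ι → (W →ₗ[k] L)) τ m φ ↔
      ∀ (D : Derivation K L L) (lam : L →ₗ[k] k), Kills (X0 η τ D lam) φ := by
  constructor
  · rintro ⟨a, ha⟩ D
    change ∀ lam, Kills (cmpE lam (XL η τ D)) φ
    rw [← kills_bcm_iff b]
    refine kills_of_basis (ee η) _ _ fun J => ?_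
    have h1 := coef_unique η b φ (τ ^ m) (fun J => algebraMap K L (a J)) ha J
    have h2 := der_coef η hτ b φ D J
    rw [h1, Derivation.map_algebraMap] at h2
    have h3 := neg_eq_zero.1 h2.symm
    exact (mul_eq_zero.1 h3).resolve_left (pow_ne_zero _ hτ)
  · intro h
    have h1 : ∀ J : Fin m × Fin 2 → ι, ∃ a : K, algebraMap K L a =
        τ ^ m * bcm (Ω := L) b φ (fun l => ee η (J l)) := by
      intro J
      apply mem_K
      intro D
      have h2 := (kills_bcm_iff b φ (XL η τ D)).2 (h D) (fun l => ee η (J l))
      rw [der_coef η hτ b φ D J, h2, mul_zero, neg_zero]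
    choose a ha using h1
    refine ⟨a, fun v => ?_⟩
    rw [coef_expand η b φ v, Finset.mul_sum]
    refine Finset.sum_congr rfl fun J _ => ?_
    rw [ha, mul_assoc]

/-! ### Endomorphisms -/

theorem cmp_baseChange (lam : L →ₗ[k] k) (P : Module.End k W) (z : L ⊗[k] W) :
    cmp lam (P.baseChange L z) = P (cmp lam z) := by
  induction z with
  | zero => simp only [map_zero]
  | add z z' h h' => simp only [map_add, h, h']
  | tmul a w => rw [LinearMap.baseChange_tmul, cmp_tmul, cmp_tmul, map_smul]

theorem dW_baseChange (D : Derivation K L L) (P : Module.End k W) (z : L ⊗[k] W) :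
    dW D (P.baseChange L z) = P.baseChange L (dW D z) := by
  induction z with
  | zero => simp only [map_zero]
  | add z z' h h' => simp only [map_add, h, h']
  | tmul a w => rw [LinearMap.baseChange_tmul, dW_tmul, dW_tmul, LinearMap.baseChange_tmul]

/-- An endomorphism commutes with all components if and only if its extension commutes. -/
theorem comm_iff (P : Module.End k W) (Y : Module.End L (L ⊗[k] W)) :
    (∀ lam : L →ₗ[k] k, cmpE lam Y * P = P * cmpE lam Y) ↔
      Y * P.baseChange L = P.baseChange L * Y := by
  constructor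
  · intro h
    have h1 : ∀ w : W, (Y * P.baseChange L) ((1 : L) ⊗ₜ[k] w) =
        (P.baseChange L * Y) ((1 : L) ⊗ₜ[k] w) := by
      intro w
      rw [← sub_eq_zero]
      apply eq_zero_of_cmp
      intro lam
      rw [map_sub, Module.End.mul_apply, Module.End.mul_apply, LinearMap.baseChange_tmul,
        cmp_baseChange]
      have h2 := congrArg (fun T : Module.End k W => T w) (h lam)
      simp only [Module.End.mul_apply] at h2
      rw [cmpE_apply, cmpE_apply] at h2
      rw [h2, sub_self]
    refine TensorProduct.AlgebraTensorModule.ext fun a w => ?_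
    have h2 : a ⊗ₜ[k] w = a • ((1 : L) ⊗ₜ[k] w) := by rw [smul_tmul', smul_eq_mul, mul_one]
    rw [h2, map_smul, map_smul, h1]
  · intro h lam
    ext w
    have h2 := congrArg (fun T : Module.End L (L ⊗[k] W) => cmp lam (T ((1 : L) ⊗ₜ[k] w))) h
    simp only [Module.End.mul_apply] at h2
    rw [LinearMap.baseChange_tmul, cmp_baseChange] at h2
    rw [Module.End.mul_apply, Module.End.mul_apply, cmpE_apply, cmpE_apply]
    exact h2

/-- An endomorphism that commutes with the components of the logarithmic derivatives is an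
endomorphism of the de Rham-Betti object. -/
theorem end_of_comm (P : Module.End k W)
    (h : ∀ (D : Derivation K L L) (lam : L →ₗ[k] k), X0 η τ D lam * P = P * X0 η τ D lam) :
    IsDeRhamBettiEnd K (η : ι → (W →ₗ[k] L)) P := by
  have h1 : ∀ D : Derivation K L L, XX η D * P.baseChange L = P.baseChange L * XX η D := by
    intro D
    have h2 := (comm_iff P (XL η τ D)).1 (h D)
    unfold XL at h2
    refine LinearMap.ext fun z => ?_
    have h3 := congrArg (fun T : Module.End L (L ⊗[k] W) => T z) h2
    simp only [Module.End.mul_apply, LinearMap.sub_apply, LinearMap.smul_apply,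
      Module.End.one_apply, map_sub, map_smul] at h3 ⊢
    exact sub_left_injective h3
  have h2 : ∀ i j, ∃ a : K, algebraMap K L a = etaL η i (P.baseChange L (ee η j)) := by
    intro i j
    apply mem_K
    intro D
    rw [← etaL_XX, dW_baseChange, ← map_add]
    have h3 := congrArg (fun T : Module.End L (L ⊗[k] W) => T (ee η j)) (h1 D)
    simp only [Module.End.mul_apply] at h3
    rw [h3, XX_ee, map_neg, neg_add_cancel, map_zero]
  choose a ha using h2
  refine ⟨a, fun i w => ?_⟩
  have h3 : η i (P w) = etaL η i (P.baseChange L ((1 : L) ⊗ₜ[k] w)) := by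
    rw [LinearMap.baseChange_tmul, etaL_tmul, one_mul]
  rw [h3]
  conv_lhs => rw [← sum_ee η ((1 : L) ⊗ₜ[k] w)]
  rw [map_sum, map_sum]
  refine Finset.sum_congr rfl fun j _ => ?_
  rw [map_smul, map_smul, ← ha, etaL_tmul, one_mul, smul_eq_mul, mul_comm]

/-! ### Subobjects -/

/-- The restriction of the de Rham basis to a subspace. -/
def res (U : Submodule k W) (i : ι) : U →ₗ[k] L := (η i).domRestrict U

theorem res_apply (U : Submodule k W) (i : ι) (u : U) : res η U i u = η i u := rfl

theorem span_res (U : Submodule k W) : Submodule.span L (Set.range (res η U)) = ⊤ := by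
  rw [eq_top_iff]
  rintro f -
  obtain ⟨g, hg⟩ := LinearMap.exists_extend f
  have h1 : g ∈ Submodule.span L (Set.range η) := by rw [η.span_eq]; trivial
  have h2 : ∀ g ∈ Submodule.span L (Set.range η), g.domRestrict U ∈
      Submodule.span L (Set.range (res η U)) := by
    intro g hg
    induction hg using Submodule.span_induction with
    | mem g hg =>
      obtain ⟨i, rfl⟩ := hg
      exact Submodule.subset_span ⟨i, rfl⟩
    | zero => exact Submodule.zero_mem _
    | add a b _ _ ha hb => exact Submodule.add_mem _ ha hb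
    | smul c a _ ha => exact Submodule.smul_mem _ c ha
  have h3 := h2 g h1
  have h4 : g.domRestrict U = f := by
    rw [← hg]
    rfl
  rwa [h4] at h3

/-- Elements all of whose components are in `U`. -/
theorem mem_span_of_cmp (U : Submodule k W) {z : L ⊗[k] W}
    (h : ∀ lam : L →ₗ[k] k, cmp lam z ∈ U) :
    z ∈ Submodule.span L (Set.range fun u : U => (1 : L) ⊗ₜ[k] (u : W)) := by
  classical
  let bL := Basis.ofVectorSpace k L
  -- write `z` as a finite sum
  have h1 : ∀ z : L ⊗[k] W, ∃ s : Finset (Basis.ofVectorSpaceIndex k L),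
      ∀ t, s ⊆ t → z = ∑ i ∈ t, bL i ⊗ₜ[k] cmp (bL.coord i) z := by
    intro z
    induction z with
    | zero => exact ⟨∅, fun t _ => by simp⟩
    | add z z' h h' =>
      obtain ⟨s, hs⟩ := h
      obtain ⟨s', hs'⟩ := h'
      refine ⟨s ∪ s', fun t ht => ?_⟩
      have e1 := hs t (Finset.union_subset_left ht)
      have e2 := hs' t (Finset.union_subset_right ht)
      conv_lhs => rw [e1, e2]
      rw [← Finset.sum_add_distrib]
      refine Finset.sum_congr rfl fun i _ => ?_
      rw [← tmul_add, map_add]
    | tmul a w =>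
      refine ⟨(bL.repr a).support, fun t ht => ?_⟩
      simp only [cmp_tmul, Basis.coord_apply, tmul_smul, smul_tmul']
      rw [← sum_tmul]
      congr 1
      conv_lhs => rw [← bL.linearCombination_repr a, Finsupp.linearCombination_apply,
        Finsupp.sum_of_support_subset _ ht _ (fun i _ => zero_smul k (bL i))]
  obtain ⟨s, hs⟩ := h1 z
  rw [hs s le_rfl]
  refine Submodule.sum_mem _ fun i _ => ?_
  have h2 : bL i ⊗ₜ[k] cmp (bL.coord i) z = bL i • ((1 : L) ⊗ₜ[k] cmp (bL.coord i) z) := by
    rw [smul_tmul', smul_eq_mul, mul_one]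
  rw [h2]
  exact Submodule.smul_mem _ _ (Submodule.subset_span ⟨⟨_, h _⟩, rfl⟩)

theorem cmp_smul (lam : L →ₗ[k] k) (c : L) (z : L ⊗[k] W) :
    cmp lam (c • z) = cmp (lam ∘ₗ LinearMap.mulLeft k c) z := by
  induction z with
  | zero => simp only [smul_zero, map_zero]
  | add z z' h h' => rw [smul_add, map_add, map_add, h, h']
  | tmul a w => rw [smul_tmul', cmp_tmul, cmp_tmul]; rfl

theorem cmp_of_mem_span (U : Submodule k W) {z : L ⊗[k] W}
    (hz : z ∈ Submodule.span L (Set.range fun u : U => (1 : L) ⊗ₜ[k] (u : W)))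
    (lam : L →ₗ[k] k) : cmp lam z ∈ U := by
  have key : ∀ lam : L →ₗ[k] k, cmp lam z ∈ U := by
    induction hz using Submodule.span_induction with
    | mem z hz =>
      obtain ⟨u, rfl⟩ := hz
      intro lam
      rw [cmp_tmul]
      exact U.smul_mem _ u.2
    | zero => intro lam; rw [map_zero]; exact U.zero_mem
    | add a b _ _ ha hb => intro lam; rw [map_add]; exact U.add_mem (ha lam) (hb lam)
    | smul c a _ ha =>
      intro lam
      rw [cmp_smul]
      exact ha _
  exact key lam

/-- A subspace stable under the components of the logarithmic derivatives is a subobject. -/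
theorem sub_of_stable (U : Submodule k W)
    (h : ∀ (D : Derivation K L L) (lam : L →ₗ[k] k), ∀ u ∈ U, X0 η τ D lam u ∈ U) :
    IsDeRhamBettiSubspace K (η : ι → (W →ₗ[k] L)) U := by
  classical
  obtain ⟨κ, f, hf, hsp, hli⟩ := exists_linearIndependent' L (res η U)
  rw [span_res] at hsp
  have _ : Finite κ := Finite.of_injective f hf
  have _ : Fintype κ := Fintype.ofFinite κ
  let bU : Basis κ L (U →ₗ[k] L) := Basis.mk hli hsp.ge
  have hbU : ∀ j, bU j = res η U (f j) := fun j => by
    change Basis.mk hli hsp.ge j = _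
    rw [Basis.mk_apply]
    rfl
  have hcard : Fintype.card κ = finrank k U := by
    rw [← Module.finrank_eq_card_basis bU, Module.finrank_linearMap_self]
  -- the coefficients are in `K`
  have hX : ∀ (D : Derivation K L L), ∀ u ∈ U, XX η D ((1 : L) ⊗ₜ[k] u) ∈
      Submodule.span L (Set.range fun u : U => (1 : L) ⊗ₜ[k] (u : W)) := by
    intro D u hu
    have h1 : XL η τ D ((1 : L) ⊗ₜ[k] u) ∈
        Submodule.span L (Set.range fun u : U => (1 : L) ⊗ₜ[k] (u : W)) :=
      mem_span_of_cmp U fun lam => h D lam u hu
    have h2 : XX η D ((1 : L) ⊗ₜ[k] u) = XL η τ D ((1 : L) ⊗ₜ[k] u) +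
        (D τ / (2 * τ)) • ((1 : L) ⊗ₜ[k] u) := by
      unfold XL
      rw [LinearMap.sub_apply, LinearMap.smul_apply, Module.End.one_apply, sub_add_cancel]
    rw [h2]
    exact Submodule.add_mem _ h1 (Submodule.smul_mem _ _ (Submodule.subset_span ⟨⟨u, hu⟩, rfl⟩))
  have hc : ∀ i j, ∃ a : K, algebraMap K L a = bU.repr (res η U i) j := by
    intro i
    have hrel : ∀ u : U, η i u = ∑ j, bU.repr (res η U i) j * η (f j) u := by
      intro u
      have h1 := congrArg (fun g : U →ₗ[k] L => g u) (bU.sum_repr (res η U i))
      simp only [LinearMap.sum_apply, LinearMap.smul_apply, hbU, res_apply, smul_eq_mul] at h1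
      exact h1.symm
    have hrel2 : ∀ z ∈ Submodule.span L (Set.range fun u : U => (1 : L) ⊗ₜ[k] (u : W)),
        etaL η i z = ∑ j, bU.repr (res η U i) j * etaL η (f j) z := by
      intro z hz
      induction hz using Submodule.span_induction with
      | mem z hz =>
        obtain ⟨u, rfl⟩ := hz
        simp only [etaL_tmul, one_mul]
        exact hrel u
      | zero => simp only [map_zero, mul_zero, Finset.sum_const_zero]
      | add a b _ _ ha hb => simp only [map_add, ha, hb, mul_add, Finset.sum_add_distrib]
      | smul c a _ ha =>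
        simp only [map_smul, ha, smul_eq_mul, Finset.mul_sum]
        exact Finset.sum_congr rfl fun j _ => by ring
    intro j
    apply mem_K
    intro D
    have h3 : ∑ j, D (bU.repr (res η U i) j) • bU j = 0 := by
      refine LinearMap.ext fun u => ?_
      rw [LinearMap.sum_apply, LinearMap.zero_apply]
      simp only [LinearMap.smul_apply, hbU, res_apply, smul_eq_mul]
      have h4 := congrArg D (hrel u)
      rw [map_sum] at h4
      simp only [Derivation.leibniz, smul_eq_mul] at h4
      have h5 := hrel2 _ (hX D u u.2)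
      simp only [etaL_XX_one] at h5
      rw [h5, Finset.sum_add_distrib, left_eq_add] at h4
      rw [← h4]
      exact Finset.sum_congr rfl fun j _ => mul_comm _ _
    exact Fintype.linearIndependent_iff.1 bU.linearIndependent _ h3 j
  choose a ha using hc
  -- the dimension
  let inc : (U →ₗ[k] L) → (U → L) := fun g u => g u
  have hKli : LinearIndependent K (fun (j : κ) (u : U) => η (f j) u) := by
    rw [Fintype.linearIndependent_iff]
    intro c hc j
    have h1 : ∑ j, algebraMap K L (c j) • bU j = 0 := by
      refine LinearMap.ext fun u => ?_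
      have h2 := congrFun hc u
      rw [Finset.sum_apply] at h2
      rw [LinearMap.sum_apply, LinearMap.zero_apply]
      simp only [LinearMap.smul_apply, hbU, res_apply, smul_eq_mul]
      simp only [Pi.smul_apply, Algebra.smul_def, Pi.zero_apply] at h2
      exact h2
    have h2 := Fintype.linearIndependent_iff.1 bU.linearIndependent _ h1 j
    exact (map_eq_zero_iff _ (algebraMap K L).injective).1 h2
  have hspan : Submodule.span K (Set.range fun (i : ι) (u : U) => η i u) =
      Submodule.span K (Set.range fun (j : κ) (u : U) => η (f j) u) := by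
    apply le_antisymm
    · rw [Submodule.span_le]
      rintro _ ⟨i, rfl⟩
      have h1 : (fun u : U => η i u) = ∑ j, a i j • (fun u : U => η (f j) u) := by
        funext u
        rw [Finset.sum_apply]
        have h1 := congrArg (fun g : U →ₗ[k] L => g u) (bU.sum_repr (res η U i))
        simp only [LinearMap.sum_apply, LinearMap.smul_apply, hbU, res_apply, smul_eq_mul] at h1
        rw [← h1]
        refine Finset.sum_congr rfl fun j _ => ?_
        rw [Pi.smul_apply, Algebra.smul_def, ha]
      rw [SetLike.mem_coe]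
      beta_reduce
      rw [h1]
      exact Submodule.sum_mem _ fun j _ => Submodule.smul_mem _ _ (Submodule.subset_span ⟨j, rfl⟩)
    · exact Submodule.span_mono (by rintro _ ⟨j, rfl⟩; exact ⟨f j, rfl⟩)
  unfold IsDeRhamBettiSubspace
  rw [hspan, finrank_span_eq_card hKli, hcard]

theorem ext_etaL {z z' : L ⊗[k] W} (h : ∀ i, etaL η i z = etaL η i z') : z = z' := by
  rw [← sum_ee η z, ← sum_ee η z']
  exact Finset.sum_congr rfl fun i _ => by rw [h]

theorem X0_apply (D : Derivation K L L) (lam : L →ₗ[k] k) (w : W) :
    X0 η τ D lam w = cmp lam (XX η D ((1 : L) ⊗ₜ[k] w)) - lam (D τ / (2 * τ)) • w := by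
  unfold X0
  rw [cmpE_apply]
  unfold XL
  rw [LinearMap.sub_apply, LinearMap.smul_apply, Module.End.one_apply, map_sub, smul_tmul',
    cmp_tmul, smul_eq_mul, mul_one]

/-- A subobject is stable under the components of the logarithmic derivatives. -/
theorem stable_of_sub (U : Submodule k W)
    (hU : IsDeRhamBettiSubspace K (η : ι → (W →ₗ[k] L)) U)
    (D : Derivation K L L) (lam : L →ₗ[k] k) {u : W} (hu : u ∈ U) : X0 η τ D lam u ∈ U := by
  classical
  unfold IsDeRhamBettiSubspace at hU
  obtain ⟨κ, f, hf, hsp, hli⟩ := exists_linearIndependent' K (fun (i : ι) (u : U) => η i u)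
  have _ : Finite κ := Finite.of_injective f hf
  have _ : Fintype κ := Fintype.ofFinite κ
  have hcard : Fintype.card κ = finrank k U := by
    rw [← finrank_span_eq_card hli, hsp, hU]
  -- the coefficients
  have hc : ∀ i, ∃ a : κ → K, ∀ u : U, η i u = ∑ j, algebraMap K L (a j) * η (f j) u := by
    intro i
    have h1 : (fun u : U => η i u) ∈
        Submodule.span K (Set.range ((fun (i : ι) (u : U) => η i u) ∘ f)) := by
      rw [hsp]
      exact Submodule.subset_span ⟨i, rfl⟩
    obtain ⟨a, ha⟩ := (Submodule.mem_span_range_iff_exists_fun K).1 h1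
    refine ⟨a, fun u => ?_⟩
    have h2 := congrFun ha u
    rw [Finset.sum_apply] at h2
    simp only [Pi.smul_apply, Algebra.smul_def, Function.comp_apply] at h2
    exact h2.symm
  choose a ha using hc
  have htop : ⊤ ≤ Submodule.span L (Set.range fun j => res η U (f j)) := by
    rw [← span_res η U, Submodule.span_le]
    rintro _ ⟨i, rfl⟩
    have h1 : res η U i = ∑ j, algebraMap K L (a i j) • res η U (f j) := by
      refine LinearMap.ext fun u => ?_
      rw [LinearMap.sum_apply]
      simp only [LinearMap.smul_apply, res_apply, smul_eq_mul]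
      exact ha i u
    rw [SetLike.mem_coe, h1]
    exact Submodule.sum_mem _ fun j _ => Submodule.smul_mem _ _ (Submodule.subset_span ⟨j, rfl⟩)
  have hLli : LinearIndependent L (fun j => res η U (f j)) :=
    linearIndependent_of_top_le_span_of_card_eq_finrank htop (by
      rw [hcard, Module.finrank_linearMap_self])
  let bU : Basis κ L (U →ₗ[k] L) := Basis.mk hLli htop
  have hbU : ∀ j, bU j = res η U (f j) := fun j => by
    change Basis.mk hLli htop j = _
    rw [Basis.mk_apply]
  -- the element
  set z := XX η D ((1 : L) ⊗ₜ[k] u) with hz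
  let z'' : L ⊗[k] U := ∑ j, etaL η (f j) z • ee bU j
  have hz'' : ∀ j, etaL bU j z'' = etaL η (f j) z := by
    intro j
    change etaL bU j (∑ j, etaL η (f j) z • ee bU j) = _
    rw [map_sum, Finset.sum_eq_single j]
    · rw [map_smul, etaL_ee, if_pos rfl, smul_eq_mul, mul_one]
    · intro l _ hl
      rw [map_smul, etaL_ee, if_neg hl, smul_zero]
    · intro h
      exact absurd (Finset.mem_univ _) h
  have hbc : ∀ (i : ι) (x : L ⊗[k] U), etaL η i (U.subtype.baseChange L x) =
      ∑ j, algebraMap K L (a i j) * etaL bU j x := by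
    intro i x
    induction x with
    | zero => simp only [map_zero, mul_zero, Finset.sum_const_zero]
    | add x y hx hy => simp only [map_add, hx, hy, mul_add, Finset.sum_add_distrib]
    | tmul c w =>
      rw [LinearMap.baseChange_tmul, etaL_tmul]
      change c * η i (w : W) = _
      rw [ha i w, Finset.mul_sum]
      refine Finset.sum_congr rfl fun j _ => ?_
      rw [etaL_tmul, hbU, res_apply]
      ring
  have hzz : z = U.subtype.baseChange L z'' := by
    apply ext_etaL η
    intro i
    rw [hbc, hz, etaL_XX_one, ha i ⟨u, hu⟩, map_sum]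
    refine Finset.sum_congr rfl fun j _ => ?_
    rw [Derivation.leibniz, Derivation.map_algebraMap, smul_zero, add_zero, smul_eq_mul, hz'', hz,
      etaL_XX_one]
  have hcmp : ∀ x : L ⊗[k] U, cmp lam (U.subtype.baseChange L x) ∈ U := by
    intro x
    induction x with
    | zero => rw [map_zero, map_zero]; exact U.zero_mem
    | add x y hx hy => rw [map_add, map_add]; exact U.add_mem hx hy
    | tmul c w =>
      rw [LinearMap.baseChange_tmul, cmp_tmul]
      exact U.smul_mem _ w.2
  rw [X0_apply, ← hz, hzz]
  exact U.sub_mem (hcmp _) (U.smul_mem _ hu)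

/-! ### The Lie algebra -/

/-- The endomorphisms that kill all de Rham-Betti forms. -/
def hh (K : Type*) {k L W ι : Type*} [Field k] [Field K] [Field L] [Algebra k L] [Algebra K L]
    [AddCommGroup W] [Module k W] [Fintype ι] (η : ι → (W →ₗ[k] L)) (τ : L) :
    Submodule k (Module.End k W) where
  carrier := {X | ∀ m φ, IsDeRhamBettiForm K η τ m φ → Kills X φ}
  zero_mem' := by
    intro m φ _ v
    refine Finset.sum_eq_zero fun k _ => ?_
    rw [LinearMap.zero_apply]
    exact φ.map_coord_zero k (Function.update_self _ _ _)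
  add_mem' := by
    intro X Y hX hY m φ hφ v
    have h1 := hX m φ hφ v
    have h2 := hY m φ hφ v
    have h3 := congrArg₂ (fun x y : k => x + y) h1 h2
    simp only [add_zero] at h3
    rw [← h3, ← Finset.sum_add_distrib]
    refine Finset.sum_congr rfl fun k _ => ?_
    rw [LinearMap.add_apply, MultilinearMap.map_update_add]
  smul_mem' := by
    intro c X hX m φ hφ v
    have h1 := hX m φ hφ v
    rw [← mul_zero c, ← h1, Finset.mul_sum]
    refine Finset.sum_congr rfl fun k _ => ?_
    rw [LinearMap.smul_apply, MultilinearMap.map_update_smul, smul_eq_mul]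

theorem hh_bracket (η : ι → (W →ₗ[k] L)) (τ : L) {X Y : Module.End k W} (hX : X ∈ hh K η τ)
    (hY : Y ∈ hh K η τ) : X * Y - Y * X ∈ hh K η τ :=
  fun m φ hφ => kills_bracket (hX m φ hφ) (hY m φ hφ)

include hτ in
theorem X0_mem (D : Derivation K L L) (lam : L →ₗ[k] k) :
    X0 η τ D lam ∈ hh K (η : ι → (W →ₗ[k] L)) τ := by
  intro m φ hφ
  exact (drb_iff η hτ (Module.finBasis k W) φ).1 hφ D lam

include hτ in
/-- A form killed by the Lie algebra is a de Rham-Betti form. -/
theorem drb_of_kills {m : ℕ} (φ : MultilinearMap k (fun _ : Fin m × Fin 2 => W) k)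
    (h : ∀ X ∈ hh K (η : ι → (W →ₗ[k] L)) τ, Kills X φ) :
    IsDeRhamBettiForm K (η : ι → (W →ₗ[k] L)) τ m φ :=
  (drb_iff η hτ (Module.finBasis k W) φ).2 fun D lam => h _ (X0_mem η hτ D lam)

include hτ in
/-- The commutant of the Lie algebra consists of endomorphisms of the de Rham-Betti object. -/
theorem end_of_comm_hh (P : Module.End k W)
    (h : ∀ X ∈ hh K (η : ι → (W →ₗ[k] L)) τ, X * P = P * X) :
    IsDeRhamBettiEnd K (η : ι → (W →ₗ[k] L)) P :=
  end_of_comm η P fun D lam => h _ (X0_mem η hτ D lam)

/-- A bilinear form as a multilinear form on `Fin 1 × Fin 2`. -/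
def one2 (B : W →ₗ[k] W →ₗ[k] k) : MultilinearMap k (fun _ : Fin 1 × Fin 2 => W) k :=
  mmG (m := 1) 1 (fun _ => B)

omit [FiniteDimensional k W] in
theorem one2_apply (B : W →ₗ[k] W →ₗ[k] k) (v : Fin 1 × Fin 2 → W) :
    one2 B v = B (v (0, 0)) (v (0, 1)) := by
  unfold one2
  rw [mmG_apply, Fin.prod_univ_one]
  rfl

omit [FiniteDimensional k W] in
theorem kills_one2 (B : W →ₗ[k] W →ₗ[k] k) (X : Module.End k W) :
    Kills X (one2 B) ↔ ∀ u v, B (X u) v + B u (X v) = 0 := by
  constructor
  · intro h u v
    have h1 := h (fun p => if p.2 = 0 then u else v)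
    rw [Fintype.sum_prod_type, Fin.sum_univ_one, Fin.sum_univ_two] at h1
    simp only [one2_apply] at h1
    simpa using h1
  · intro h v
    rw [Fintype.sum_prod_type, Fin.sum_univ_one, Fin.sum_univ_two]
    simp only [one2_apply]
    have h1 := h (v (0, 0)) (v (0, 1))
    simpa using h1

/-- A bilinear de Rham-Betti form. -/
theorem one2_drb (B : W →ₗ[k] W →ₗ[k] k) (η : ι → (W →ₗ[k] L)) (τ : L)
    (hB : IsDeRhamBettiBilinear K η τ B) : IsDeRhamBettiForm K η τ 1 (one2 B) := by
  classical
  obtain ⟨a, ha⟩ := hB
  refine ⟨fun J => a (J (0, 0)) (J (0, 1)), fun v => ?_⟩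
  rw [pow_one, one2_apply, ha]
  let eqv : (Fin 1 × Fin 2 → ι) ≃ ι × ι :=
    { toFun := fun J => (J (0, 0), J (0, 1))
      invFun := fun p q => if q.2 = 0 then p.1 else p.2
      left_inv := by
        intro J
        funext q
        obtain ⟨q1, q2⟩ := q
        fin_cases q1
        fin_cases q2 <;> rfl
      right_inv := by
        intro p
        rfl }
  rw [← Fintype.sum_prod_type' (f := fun i j => algebraMap K L (a i j) *
    (η i (v (0, 0)) * η j (v (0, 1)))), ← Equiv.sum_comp eqv]
  refine Finset.sum_congr rfl fun J _ => ?_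
  rw [Fintype.prod_prod_type, Fin.prod_univ_one, Fin.prod_univ_two]
  rfl

end

end Pool.Agent.W516.DR
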