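import Mathlib
import Pool.Agent.W516.DRMain

/-!
# The commutant of the Lie algebra of a de Rham-Betti object
-/

set_option linter.unusedSectionVars false

namespace Pool.Agent.W516.DR

open Module TensorProduct Pool.Agent.H204R3.SP Pool.Agent.H204R3.GP Pool.Agent.W516.KC

noncomputable section

variable {k K L : Type*} [Field k] [Field K] [Field L] [CharZero k] [CharZero K] [CharZero L]
  [IsAlgClosed K] [Algebra k K] [Algebra k L]
  [Algebra K L] [IsScalarTower k K L]
  {W : Type*} [AddCommGroup W] [Module k W] [FiniteDimensional k W]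
  {ι : Type*} [Fintype ι] [DecidableEq ι] (η : Basis ι L (W →ₗ[k] L)) {τ : L} (hτ : τ ≠ 0)
  (ω : W →ₗ[k] W →ₗ[k] k)

theorem drb_comp_end (η : ι → (W →ₗ[k] L)) (τ : L) (ω : W →ₗ[k] W →ₗ[k] k)
    (hω : IsDeRhamBettiBilinear K η τ ω) (P : Module.End k W)
    (hP : IsDeRhamBettiEnd K η P) :
    IsDeRhamBettiBilinear K η τ (ω.comp P) := by
  obtain ⟨a, ha⟩ := hω
  obtain ⟨p, hp⟩ := hP
  refine ⟨fun l j => ∑ i, a i j * p i l, fun u v => ?_⟩
  rw [LinearMap.comp_apply, ha]
  simp only [hp, map_sum, map_mul, Finset.sum_mul, Finset.mul_sum]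
  rw [Finset.sum_comm]
  rw [Finset.sum_comm (γ := ι) (s := Finset.univ) (t := Finset.univ)
    (f := fun l j => ∑ i, algebraMap K L (a i j) * algebraMap K L (p i l) * (η l u * η j v))]
  refine Finset.sum_congr rfl fun j _ => ?_
  rw [Finset.sum_comm]
  refine Finset.sum_congr rfl fun l _ => ?_
  refine Finset.sum_congr rfl fun i _ => ?_
  ring

include hτ in
theorem skew_of_mem (hω : IsDeRhamBettiBilinear K (η : ι → (W →ₗ[k] L)) τ ω)
    {X : Module.End k W} (hX : X ∈ hh K (η : ι → (W →ₗ[k] L)) τ) : IsSkew ω X :=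
  (kills_one2 ω X).1 (hX 1 _ (one2_drb (K := K) ω η τ hω))

include hτ in
/-- The endomorphisms of the de Rham-Betti object commute with the Lie algebra. -/
theorem comm_of_end (hnd : ∀ u, (∀ v, ω u v = 0) → u = 0)
    (hω : IsDeRhamBettiBilinear K (η : ι → (W →ₗ[k] L)) τ ω) {P : Module.End k W}
    (hP : IsDeRhamBettiEnd K (η : ι → (W →ₗ[k] L)) P)
    {X : Module.End k W} (hX : X ∈ hh K (η : ι → (W →ₗ[k] L)) τ) : X * P = P * X := by
  have h1 := skew_of_mem η hτ ω hω hX
  have h2 : ∀ u v, (ω.comp P) (X u) v + (ω.comp P) u (X v) = 0 :=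
    (kills_one2 _ X).1 (hX 1 _ (one2_drb (K := K) _ η τ (drb_comp_end η τ ω hω P hP)))
  ext u
  rw [← sub_eq_zero]
  apply hnd
  intro v
  have h3 := h1 (P u) v
  have h4 := h2 u v
  rw [LinearMap.comp_apply, LinearMap.comp_apply] at h4
  rw [map_sub, LinearMap.sub_apply, Module.End.mul_apply, Module.End.mul_apply]
  linear_combination h3 - h4

include hτ in
/-- The Lie algebra acts semisimply. -/
theorem semi_hh (hnd : ∀ u, (∀ v, ω u v = 0) → u = 0)
    (hω : IsDeRhamBettiBilinear K (η : ι → (W →ₗ[k] L)) τ ω)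
    (hss : DeRhamBettiSemisimple K (η : ι → (W →ₗ[k] L))) :
    Semi (hh K (η : ι → (W →ₗ[k] L)) τ) := by
  intro U hU
  have h1 := sub_of_stable η (τ := τ) U fun D lam u hu => hU _ (X0_mem η hτ D lam) u hu
  obtain ⟨U', hU', hc⟩ := hss U h1
  refine ⟨U', ?_, hc⟩
  -- the projection
  let P : Module.End k W := U.projection U' hc
  have hP : ∀ (D : Derivation K L L) (lam : L →ₗ[k] k),
      X0 η τ D lam * P = P * X0 η τ D lam := by
    intro D lam
    ext w
    obtain ⟨u, hu, u', hu', rfl⟩ : ∃ u ∈ U, ∃ u' ∈ U', u + u' = w := by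
      have h2 : w ∈ U ⊔ U' := by rw [hc.sup_eq_top]; trivial
      exact Submodule.mem_sup.1 h2
    have h2 : P (u + u') = u := by
      rw [map_add]
      have e1 : P u = u := Submodule.projection_apply_of_mem_left hc hu
      have e2 : P u' = 0 := Submodule.projection_apply_of_mem_right hc hu'
      rw [e1, e2, add_zero]
    have h3 : P (X0 η τ D lam (u + u')) = X0 η τ D lam u := by
      rw [map_add, map_add]
      have e1 : P (X0 η τ D lam u) = X0 η τ D lam u :=
        Submodule.projection_apply_of_mem_left hc (stable_of_sub η (τ := τ) U h1 D lam hu)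
      have e2 : P (X0 η τ D lam u') = 0 :=
        Submodule.projection_apply_of_mem_right hc (stable_of_sub η (τ := τ) U' hU' D lam hu')
      rw [e1, e2, add_zero]
    rw [Module.End.mul_apply, Module.End.mul_apply, h2, h3]
  intro X hX u' hu'
  have h2 := comm_of_end η hτ ω hnd hω (end_of_comm η P hP) hX
  have h3 := congrArg (fun T : Module.End k W => T u') h2
  simp only [Module.End.mul_apply] at h3
  have e2 : P u' = 0 := Submodule.projection_apply_of_mem_right hc hu'
  rw [e2, map_zero] at h3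
  exact (Submodule.projection_apply_eq_zero_iff hc).1 h3.symm

include hτ in
/-- If the central endomorphisms are symmetric then the center of the Lie algebra is trivial. -/
theorem cen_hh (hnd : ∀ u, (∀ v, ω u v = 0) → u = 0)
    (hω : IsDeRhamBettiBilinear K (η : ι → (W →ₗ[k] L)) τ ω)
    (hZ : ∀ P : Module.End k W, IsDeRhamBettiEnd K (η : ι → (W →ₗ[k] L)) P →
      (∀ Q : Module.End k W, IsDeRhamBettiEnd K (η : ι → (W →ₗ[k] L)) Q → P * Q = Q * P) →
      ∀ u v, ω (P u) v = ω u (P v)) :
    CenterTrivial (hh K (η : ι → (W →ₗ[k] L)) τ) ω := by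
  intro Z hZs hZc hZcc
  have h1 := hZ Z (end_of_comm_hh η hτ Z hZc) fun Q hQ =>
    hZcc Q fun X hX => comm_of_end η hτ ω hnd hω hQ hX
  ext u
  apply hnd
  intro v
  have h2 := hZs u v
  rw [← h1 u v] at h2
  exact add_self_eq_zero.1 h2

/-- The products of two bilinear forms. -/
def two2 (B B' : W →ₗ[k] W →ₗ[k] k) : MultilinearMap k (fun _ : Fin 2 × Fin 2 => W) k :=
  mmG (m := 2) 1 (fun l => if l = 0 then B else B')

omit [FiniteDimensional k W] in
theorem two2_apply (B B' : W →ₗ[k] W →ₗ[k] k) (v : Fin 2 × Fin 2 → W) :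
    two2 B B' v = B (v (0, 0)) (v (0, 1)) * B' (v (1, 0)) (v (1, 1)) := by
  unfold two2
  rw [mmG_apply, Fin.prod_univ_two, if_pos rfl, if_neg (by decide)]
  rfl

omit [FiniteDimensional k W] in
theorem kills_two2 (B B' : W →ₗ[k] W →ₗ[k] k) (X : Module.End k W) :
    Kills X (two2 B B') ↔ ∀ u v w x, (B (X u) v + B u (X v)) * B' w x +
      B u v * (B' (X w) x + B' w (X x)) = 0 := by
  constructor
  · intro h u v w x
    have h1 := h (fun p => if p = (0, 0) then u else if p = (0, 1) then v else
      if p = (1, 0) then w else x)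
    rw [sum22] at h1
    simp only [two2_apply] at h1
    simp [Function.update] at h1
    linear_combination h1
  · intro h v
    rw [sum22]
    simp only [two2_apply]
    have h1 := h (v (0, 0)) (v (0, 1)) (v (1, 0)) (v (1, 1))
    simp [Function.update]
    linear_combination h1

end

end Pool.Agent.W516.DR
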