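import Mathlib
import Pool.Agent.W516.Casimir

/-!
# Lie algebras acting with symmetric part of the bicommutant central
-/

set_option linter.unusedSectionVars false

namespace Pool.Agent.W516.KC

open Module Pool.Agent.H204R3.SP Pool.Agent.H204R3.GP

noncomputable section

variable {k W : Type*} [Field k] [CharZero k] [AddCommGroup W] [Module k W] [FiniteDimensional k W]

/-- The double commutant theorem. -/
theorem double_comm (𝔥 : Submodule k (Module.End k W)) (hss : Semi 𝔥) {Z : Module.End k W}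
    (hZ : CommComm 𝔥 Z) : Z ∈ Algebra.adjoin k (𝔥 : Set (Module.End k W)) := by
  classical
  set R : Subalgebra k (Module.End k W) := Algebra.adjoin k (𝔥 : Set (Module.End k W)) with hR
  have hsm : ∀ (r : R) (w : W), r • w = r.1 w := fun r w => rfl
  have hsemi : IsSemisimpleModule R W := by
    refine { exists_isCompl := fun U => ?_ }
    obtain ⟨U', hU', hc⟩ := hss (U.restrictScalars k) (fun X hX u hu => by
      have h1 : (⟨X, Algebra.subset_adjoin hX⟩ : R) • u ∈ U := U.smul_mem _ hu
      exact h1)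
    have hstab : ∀ r ∈ R, ∀ u ∈ U', r u ∈ U' := by
      intro r hr
      induction hr using Algebra.adjoin_induction with
      | mem x hx => exact fun u hu => hU' x hx u hu
      | algebraMap c =>
        intro u hu
        rw [Module.algebraMap_end_apply]
        exact U'.smul_mem c hu
      | add x y _ _ hx hy => exact fun u hu => U'.add_mem (hx u hu) (hy u hu)
      | mul x y _ _ hx hy => exact fun u hu => hx _ (hy u hu)
    let V' : Submodule R W :=
      { carrier := U'
        zero_mem' := U'.zero_mem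
        add_mem' := U'.add_mem
        smul_mem' := fun r u hu => hstab r.1 r.2 u hu }
    refine ⟨V', ?_, ?_⟩
    · rw [disjoint_iff_inf_le]
      intro x hx
      have h1 : x ∈ (U.restrictScalars k) ⊓ U' := ⟨hx.1, hx.2⟩
      rw [hc.inf_eq_bot] at h1
      exact h1
    · rw [codisjoint_iff_le_sup]
      intro x _
      have h1 : x ∈ (U.restrictScalars k) ⊔ U' := by rw [hc.sup_eq_top]; trivial
      obtain ⟨y, hy, z, hz, rfl⟩ := Submodule.mem_sup.1 h1
      exact Submodule.mem_sup.2 ⟨y, hy, z, hz, rfl⟩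
  -- the endomorphism as a linear map over the commutant
  let f : Module.End (Module.End R W) W :=
    { toFun := fun w => Z w
      map_add' := map_add Z
      map_smul' := by
        intro P w
        let P' : Module.End k W :=
          { toFun := fun w => P w
            map_add' := map_add P
            map_smul' := fun c w => by
              have h1 : c • w = (algebraMap k R c) • w := by
                rw [hsm]
                rfl
              have h2 : c • P w = (algebraMap k R c) • P w := by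
                rw [hsm]
                rfl
              rw [h1, map_smul, RingHom.id_apply, h2] }
        have h1 := hZ P' (fun X hX => by
          ext w
          have h2 : X w = (⟨X, Algebra.subset_adjoin hX⟩ : R) • w := rfl
          have h3 : X (P w) = (⟨X, Algebra.subset_adjoin hX⟩ : R) • P w := rfl
          change X (P w) = P (X w)
          rw [h2, h3, map_smul])
        have h2 := congrArg (fun T : Module.End k W => T w) h1
        exact h2 }
  obtain ⟨r, hr⟩ := jacobson_density (R := R) f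
    (Finset.univ.image (Module.finBasis k W))
  have h1 : Z = r.1 := by
    refine (Module.finBasis k W).ext fun i => ?_
    have h2 := hr (Module.finBasis k W i) (Finset.mem_image_of_mem _ (Finset.mem_univ i))
    exact h2
  rw [h1]
  exact r.2

variable (𝔥 : Submodule k (Module.End k W)) (hss : Semi 𝔥)
  (hbr : ∀ X ∈ 𝔥, ∀ Y ∈ 𝔥, X * Y - Y * X ∈ 𝔥) (ω : W →ₗ[k] W →ₗ[k] k)
  (hsp : ∀ X ∈ 𝔥, IsSkew ω X) (hcen : CenterTrivial 𝔥 ω)

include hss hbr hsp hcen in
/-- The Lie algebra is perfect. -/
theorem perfect {X : Module.End k W} (hX : X ∈ 𝔥) :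
    X ∈ Submodule.span k {Y | ∃ A ∈ 𝔥, ∃ B ∈ 𝔥, Y = A * B - B * A} := by
  by_contra hcon
  obtain ⟨f, hf1, hf2⟩ := Submodule.exists_dual_map_eq_bot_of_notMem hcon inferInstance
  let f' : Module.Dual k 𝔥 := f.comp 𝔥.subtype
  let Y := (trE 𝔥 hss hbr ω hsp hcen).symm f'
  have hY : ∀ Z : 𝔥, LinearMap.trace k W (Y.1 * Z.1) = f Z.1 := fun Z =>
    trE_symm 𝔥 hss hbr ω hsp hcen f' Z
  have hcomm : ∀ A ∈ 𝔥, A * Y.1 = Y.1 * A := by
    intro A hA
    rw [← sub_eq_zero]
    refine trace_nondeg 𝔥 hss hbr ω hsp hcen (hbr A hA Y.1 Y.2) fun B hB => ?_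
    have h1 : LinearMap.trace k W ((A * Y.1 - Y.1 * A) * B) =
        -LinearMap.trace k W (Y.1 * (A * B - B * A)) := by
      rw [sub_mul, map_sub, mul_sub, map_sub, mul_assoc A, LinearMap.trace_mul_comm k A,
        mul_assoc, mul_assoc]
      ring
    rw [h1, hY ⟨_, hbr A hA B hB⟩]
    have h3 : f (A * B - B * A) ∈ Submodule.map f
        (Submodule.span k {Y | ∃ A ∈ 𝔥, ∃ B ∈ 𝔥, Y = A * B - B * A}) :=
      Submodule.mem_map_of_mem (Submodule.subset_span ⟨A, hA, B, hB, rfl⟩)
    rw [hf2, Submodule.mem_bot] at h3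
    rw [h3, neg_zero]
  have hY0 : Y.1 = 0 := hcen Y.1 (hsp _ Y.2) hcomm fun P hP => hP Y.1 Y.2
  apply hf1
  rw [← hY ⟨X, hX⟩, hY0, zero_mul, map_zero]

include hss hbr hsp hcen in
/-- If the symmetric elements of the bicommutant are central in it then the Lie algebra consists
of all skew elements of the bicommutant. -/
theorem mem_of_rank_two (hnd : ∀ u, (∀ v, ω u v = 0) → u = 0)
    (h2 : ∀ X : Module.End k W, CommComm 𝔥 X → (∀ u v, ω (X u) v = ω u (X v)) →
      ∀ Y ∈ 𝔥, Y * X = X * Y) {Z : Module.End k W} (hZ : IsSkew ω Z) (hc : CommComm 𝔥 Z) :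
    Z ∈ 𝔥 := by
  have hCC : ∀ X ∈ 𝔥, CommComm 𝔥 X := fun X hX P hP => hP X hX
  -- the anticommutators
  have hS1 : ∀ X ∈ 𝔥, ∀ Y ∈ 𝔥, CommComm 𝔥 (X * Y + Y * X) := by
    intro X hX Y hY P hP
    have e1 := hP X hX
    have e2 := hP Y hY
    rw [add_mul, mul_add, mul_assoc, mul_assoc, e1, e2, ← mul_assoc, ← mul_assoc, e1, e2, mul_assoc,
      mul_assoc]
  have hS2 : ∀ X ∈ 𝔥, ∀ Y ∈ 𝔥, ∀ u v, ω ((X * Y + Y * X) u) v = ω u ((X * Y + Y * X) v) := by
    intro X hX Y hY u v
    simp only [LinearMap.add_apply, Module.End.mul_apply, map_add]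
    have e1 := hsp X hX (Y u) v
    have e2 := hsp Y hY u (X v)
    have e3 := hsp Y hY (X u) v
    have e4 := hsp X hX u (Y v)
    linear_combination e1 - e2 + e3 - e4
  have hS3 : ∀ X ∈ 𝔥, ∀ Y ∈ 𝔥, ∀ Z ∈ 𝔥, Z * (X * Y + Y * X) = (X * Y + Y * X) * Z :=
    fun X hX Y hY => h2 _ (hS1 X hX Y hY) (hS2 X hX Y hY)
  -- the double bracket
  have hkey : ∀ X ∈ 𝔥, ∀ Y ∈ 𝔥, ∀ Z ∈ 𝔥,
      (Y * Z + Z * Y) * X - (X * Z + Z * X) * Y ∈ 𝔥 := by
    intro X hX Y hY Z hZ
    have h3 := hbr _ (hbr X hX Y hY) Z hZ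
    have e1 := hS3 Y hY Z hZ X hX
    have e2 := hS3 X hX Z hZ Y hY
    have e3 := hS3 X hX Y hY Z hZ
    have h4 : (X * Y - Y * X) * Z - Z * (X * Y - Y * X) =
        (2 : k) • ((Y * Z + Z * Y) * X - (X * Z + Z * X) * Y) := by
      have h5 : (X * Y - Y * X) * Z - Z * (X * Y - Y * X) =
          (X * (Y * Z + Z * Y) - (X * Z + Z * X) * Y) + (X * (Y * Z + Z * Y) - (X * Z + Z * X) * Y)
          + (Z * (X * Y + Y * X) - (X * Y + Y * X) * Z) := by noncomm_ring
      rw [h5, e3, sub_self, add_zero, e1, two_smul]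
    rw [h4] at h3
    have h5 := Submodule.smul_mem 𝔥 (2 : k)⁻¹ h3
    rwa [smul_smul, inv_mul_cancel₀ two_ne_zero, one_smul] at h5
  -- invariance
  have hinv : ∀ X ∈ 𝔥, ∀ Y ∈ 𝔥, ∀ Z ∈ 𝔥,
      (X * Y - Y * X) * Z + Z * (X * Y - Y * X) = X * (Y * Z - Z * Y) + (Y * Z - Z * Y) * X := by
    intro X hX Y hY Z hZ
    have e1 := hS3 X hX Z hZ Y hY
    rw [← sub_eq_zero]
    have h5 : (X * Y - Y * X) * Z + Z * (X * Y - Y * X) - (X * (Y * Z - Z * Y) +
        (Y * Z - Z * Y) * X) = (X * Z + Z * X) * Y - Y * (X * Z + Z * X) := by noncomm_ring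
    rw [h5, e1, sub_self]
  -- the vanishing
  have hvan : ∀ A ∈ 𝔥, ∀ B ∈ 𝔥, ∀ C ∈ 𝔥, ∀ D ∈ 𝔥,
      ((A * B - B * A) * C + C * (A * B - B * A)) * D ∈ 𝔥 := by
    -- `g A B C D` modulo `𝔥`
    let g : Module.End k W → Module.End k W → Module.End k W → Module.End k W → Module.End k W :=
      fun A B C D => ((A * B - B * A) * C + C * (A * B - B * A)) * D
    have h12 : ∀ A B C D, g A B C D = -g B A C D := by
      intro A B C D
      simp only [g]
      noncomm_ring
    have h23 : ∀ A ∈ 𝔥, ∀ B ∈ 𝔥, ∀ C ∈ 𝔥, ∀ D, g A B C D = -g A C B D := by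
      intro A hA B hB C hC D
      simp only [g]
      rw [hinv A hA B hB C hC, hinv A hA C hC B hB]
      noncomm_ring
    have h34 : ∀ A ∈ 𝔥, ∀ B ∈ 𝔥, ∀ C ∈ 𝔥, ∀ D ∈ 𝔥, g A B C D - g A B D C ∈ 𝔥 := by
      intro A hA B hB C hC D hD
      have h3 := hkey D hD C hC _ (hbr A hA B hB)
      simp only [g]
      have e1 : (A * B - B * A) * C + C * (A * B - B * A) =
        C * (A * B - B * A) + (A * B - B * A) * C := add_comm _ _
      have e2 : (A * B - B * A) * D + D * (A * B - B * A) =
        D * (A * B - B * A) + (A * B - B * A) * D := add_comm _ _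
      rw [e1, e2]
      exact h3
    intro A hA B hB C hC D hD
    have s1 := h34 A hA B hB C hC D hD
    have s2 := h34 A hA D hD B hB C hC
    have s3 := h34 A hA C hC D hD B hB
    have t1 := h23 A hA B hB D hD C
    have t2 := h23 A hA D hD C hC B
    have t3 := h23 A hA C hC B hB D
    -- `g A B C D ≡ g A B D C = - g A D B C ≡ - g A D C B = g A C D B ≡ g A C B D = - g A B C D`
    have h5 : (2 : k) • g A B C D = (g A B C D - g A B D C) - (g A D B C - g A D C B) +
        (g A C D B - g A C B D) := by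
      rw [t1, t2, t3, two_smul]
      abel
    have h6 : (2 : k) • g A B C D ∈ 𝔥 := by
      rw [h5]
      exact Submodule.add_mem _ (Submodule.sub_mem _ s1 s2) s3
    have h7 := Submodule.smul_mem 𝔥 (2 : k)⁻¹ h6
    rw [smul_smul, inv_mul_cancel₀ two_ne_zero, one_smul] at h7
    exact h7
  have hS4 : ∀ X ∈ 𝔥, ∀ Y ∈ 𝔥, ∀ Z ∈ 𝔥, (X * Y + Y * X) * Z ∈ 𝔥 := by
    intro X hX Y hY Z hZ
    have h3 : ∀ X ∈ Submodule.span k {Y | ∃ A ∈ 𝔥, ∃ B ∈ 𝔥, Y = A * B - B * A},
        (X * Y + Y * X) * Z ∈ 𝔥 := by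
      intro X hX
      induction hX using Submodule.span_induction with
      | mem X h =>
        obtain ⟨A, hA, B, hB, rfl⟩ := h
        exact hvan A hA B hB Y hY Z hZ
      | zero => rw [zero_mul, mul_zero, add_zero, zero_mul]; exact Submodule.zero_mem _
      | add a b ha' hb' ha hb =>
        have h1 : ((a + b) * Y + Y * (a + b)) * Z = (a * Y + Y * a) * Z + (b * Y + Y * b) * Z := by
          noncomm_ring
        rw [h1]
        exact Submodule.add_mem _ ha hb
      | smul c a _ ha =>
        have h1 : ((c • a) * Y + Y * (c • a)) * Z = c • ((a * Y + Y * a) * Z) := by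
          rw [smul_mul_assoc, mul_smul_comm, ← smul_add, smul_mul_assoc]
        rw [h1]
        exact Submodule.smul_mem _ _ ha
    exact h3 X (perfect 𝔥 hss hbr ω hsp hcen hX)
  -- the decomposition of the bicommutant
  have hdec : ∀ X ∈ Algebra.adjoin k (𝔥 : Set (Module.End k W)), ∃ r Y : Module.End k W,
      Y ∈ 𝔥 ∧ X = r + Y ∧ (∀ A ∈ 𝔥, A * r = r * A) ∧ (∀ A ∈ 𝔥, r * A ∈ 𝔥) ∧
      (∀ u v, ω (r u) v = ω u (r v)) ∧
      r ∈ Algebra.adjoin k (𝔥 : Set (Module.End k W)) := by
    intro X hX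
    induction hX using Algebra.adjoin_induction with
    | mem X hX =>
      refine ⟨0, X, hX, (zero_add X).symm, fun A _ => by rw [mul_zero, zero_mul],
        fun A _ => by rw [zero_mul]; exact Submodule.zero_mem _, fun u v => by simp,
        Subalgebra.zero_mem _⟩
    | algebraMap c =>
      refine ⟨algebraMap k _ c, 0, Submodule.zero_mem _, (add_zero _).symm,
        fun A _ => (Algebra.commutes c A).symm, fun A hA => ?_, fun u v => ?_,
        Subalgebra.algebraMap_mem _ c⟩
      · rw [← Algebra.smul_def]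
        exact Submodule.smul_mem _ _ hA
      · rw [Module.algebraMap_end_apply, Module.algebraMap_end_apply, map_smul, map_smul,
          LinearMap.smul_apply]
    | add X X' _ _ hX hX' =>
      obtain ⟨r, Y, h1, h2, h3, h4, h5, h6⟩ := hX
      obtain ⟨r', Y', h1', h2', h3', h4', h5', h6'⟩ := hX'
      refine ⟨r + r', Y + Y', Submodule.add_mem _ h1 h1', ?_, fun A hA => ?_, fun A hA => ?_,
        fun u v => ?_, Subalgebra.add_mem _ h6 h6'⟩
      · rw [h2, h2']
        abel
      · rw [mul_add, add_mul, h3 A hA, h3' A hA]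
      · rw [add_mul]
        exact Submodule.add_mem _ (h4 A hA) (h4' A hA)
      · rw [LinearMap.add_apply, map_add, LinearMap.add_apply, LinearMap.add_apply, map_add,
          h5, h5']
    | mul X X' _ _ hX hX' =>
      obtain ⟨r, Y, h1, h2, h3, h4, h5, h6⟩ := hX
      obtain ⟨r', Y', h1', h2', h3', h4', h5', h6'⟩ := hX'
      -- `r` commutes with the algebra generated by `𝔥`
      have hcr : ∀ x ∈ Algebra.adjoin k (𝔥 : Set (Module.End k W)), x * r = r * x := by
        intro x hx
        induction hx using Algebra.adjoin_induction with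
        | mem x hx => exact h3 x hx
        | algebraMap c => exact Algebra.commutes c r
        | add x y _ _ hx hy => rw [add_mul, mul_add, hx, hy]
        | mul x y _ _ hx hy => rw [mul_assoc, hy, ← mul_assoc, hx, mul_assoc]
      have hrr : r' * r = r * r' := hcr r' h6'
      refine ⟨r * r' + (2 : k)⁻¹ • (Y * Y' + Y' * Y),
        r * Y' + r' * Y + (2 : k)⁻¹ • (Y * Y' - Y' * Y), ?_, ?_, fun A hA => ?_, fun A hA => ?_,
        fun u v => ?_, ?_⟩
      · exact Submodule.add_mem _ (Submodule.add_mem _ (h4 _ h1') (h4' _ h1))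
          (Submodule.smul_mem _ _ (hbr _ h1 _ h1'))
      · have e1 : (2 : k)⁻¹ • (Y * Y' + Y' * Y) + (2 : k)⁻¹ • (Y * Y' - Y' * Y) = Y * Y' := by
          rw [← smul_add, add_add_sub_cancel, ← two_smul k, smul_smul,
            inv_mul_cancel₀ two_ne_zero, one_smul]
        have e2 := h3' Y h1
        rw [h2, h2', add_mul, mul_add, mul_add, e2]
        calc r * r' + r * Y' + (r' * Y + Y * Y') = r * r' + (r * Y' + r' * Y) + Y * Y' := by abel
          _ = r * r' + (r * Y' + r' * Y) + ((2 : k)⁻¹ • (Y * Y' + Y' * Y) +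
              (2 : k)⁻¹ • (Y * Y' - Y' * Y)) := by rw [e1]
          _ = _ := add_add_add_comm _ _ _ _
      · rw [mul_add, add_mul, mul_smul_comm, smul_mul_assoc, hS3 Y h1 Y' h1' A hA, ← mul_assoc,
          h3 A hA, mul_assoc, h3' A hA, mul_assoc]
      · rw [add_mul, smul_mul_assoc, mul_assoc]
        exact Submodule.add_mem _ (h4 _ (h4' _ hA)) (Submodule.smul_mem _ _ (hS4 Y h1 Y' h1' A hA))
      · have e1 := hS2 Y h1 Y' h1' u v
        rw [LinearMap.add_apply, LinearMap.add_apply, LinearMap.smul_apply, LinearMap.smul_apply,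
          map_add, LinearMap.add_apply, map_add, map_smul, map_smul, LinearMap.smul_apply, e1]
        congr 1
        have e2 := congrArg (fun T : Module.End k W => T v) hrr
        simp only [Module.End.mul_apply] at e2 ⊢
        rw [h5, h5', e2]
      · exact Subalgebra.add_mem _ (Subalgebra.mul_mem _ h6 h6') (Subalgebra.smul_mem _
          (Subalgebra.add_mem _ (Subalgebra.mul_mem _ (Algebra.subset_adjoin h1)
            (Algebra.subset_adjoin h1')) (Subalgebra.mul_mem _ (Algebra.subset_adjoin h1')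
            (Algebra.subset_adjoin h1))) _)
  obtain ⟨r, Y, h1, h2', h3, h4, h5, h6⟩ := hdec Z (double_comm 𝔥 hss hc)
  have hr0 : r = 0 := by
    ext u
    apply hnd
    intro v
    have e1 := hZ u v
    have e2 := hsp Y h1 u v
    have e3 := h5 u v
    rw [h2', LinearMap.add_apply, LinearMap.add_apply, map_add, LinearMap.add_apply, map_add] at e1
    have e4 : (2 : k) * ω (r u) v = 0 := by linear_combination e1 - e2 + e3
    exact (mul_eq_zero.1 e4).resolve_left two_ne_zero
  rw [h2', hr0, zero_add]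
  exact h1

end

end Pool.Agent.W516.KC
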