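import Mathlib
import Pool.Agent.W516.DRCoef
import Pool.Agent.W516.DRHodge
import Pool.Agent.W516.RankTwo

/-!
# De Rham-Betti classes with coefficients
-/

set_option linter.unusedSectionVars false

namespace Pool.Agent.W516.DR

open Module TensorProduct Pool.Agent.H204R3.SP Pool.Agent.H204R3.GP Pool.Agent.W516.KC

noncomputable section

variable {k K : Type*} [Field k] [CharZero k] [Field K] [IsAlgClosed K] [CharZero K]
  [Algebra k K] [Algebra k ℂ] [Algebra K ℂ] [IsScalarTower k K ℂ]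
  {W T : Type*} [AddCommGroup W] [Module ℚ W] [FiniteDimensional ℚ W]
  [AddCommGroup T] [Module ℂ T] (per : W →+ T)
  {ι : Type*} [Fintype ι] [DecidableEq ι] (η : Basis ι ℂ (k ⊗[ℚ] W →ₗ[k] ℂ)) {τ : ℂ}
  (ω₀ : W →ₗ[ℚ] W →ₗ[ℚ] ℚ) (ω : k ⊗[ℚ] W →ₗ[k] k ⊗[ℚ] W →ₗ[k] k)

/-- The multilinear form `φ` with coefficients in `k` is a `k`-linear combination of Hodge
classes. -/
def IsHodgeCombination (per : W →+ T) {κ : Type*}
    (φ : MultilinearMap k (fun _ : κ => k ⊗[ℚ] W) k) : Prop :=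
  φ ∈ Submodule.span k {φ' : MultilinearMap k (fun _ : κ => k ⊗[ℚ] W) k |
    ∃ ψ : MultilinearMap ℚ (fun _ : κ => W) ℚ, IsHodgeTensor per ψ ∧
      ∀ v : κ → W, φ' (fun l => (1 : k) ⊗ₜ[ℚ] v l) = algebraMap ℚ k (ψ v)}

/-- The conclusion from the statement on endomorphisms. -/
theorem combination_of_mem (hper : IsRationalStructure per)
    (hmem : ∀ Z₀ : Module.End ℚ W, (∀ (m' : ℕ)
      (ψ : MultilinearMap ℚ (fun _ : Fin m' × Fin 2 => W) ℚ), IsHodgeTensor per ψ → Kills Z₀ ψ) →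
      Z₀.baseChange k ∈ hh K (η : ι → (k ⊗[ℚ] W →ₗ[k] ℂ)) τ)
    (m : ℕ) (φ : MultilinearMap k (fun _ : Fin m × Fin 2 => k ⊗[ℚ] W) k)
    (hφ : IsDeRhamBettiForm K (η : ι → (k ⊗[ℚ] W →ₗ[k] ℂ)) τ m φ) : IsHodgeCombination per φ := by
  refine form_mem_span (fun ψ => IsHodgeTensor per ψ) φ fun lam => ?_
  refine hodge_of_kills per hper _ fun Z₀ hk => ?_
  exact kills_fcmp lam φ Z₀ (hmem Z₀ hk m φ hφ)

/-- Four variables suffice. -/
theorem mem_of_four (hτ : τ ≠ 0) (hnd : ∀ u, (∀ v, ω₀ u v = 0) → u = 0)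
    (hωω : ∀ u v : W, ω ((1 : k) ⊗ₜ[ℚ] u) ((1 : k) ⊗ₜ[ℚ] v) = algebraMap ℚ k (ω₀ u v))
    (hωH : IsHodgeBilinear per ω₀)
    (hω : IsDeRhamBettiBilinear K (η : ι → (k ⊗[ℚ] W →ₗ[k] ℂ)) τ ω)
    (hss : DeRhamBettiSemisimple K (η : ι → (k ⊗[ℚ] W →ₗ[k] ℂ)))
    (hZ : ∀ P : Module.End k (k ⊗[ℚ] W), IsDeRhamBettiEnd K (η : ι → (k ⊗[ℚ] W →ₗ[k] ℂ)) P →
      (∀ Q : Module.End k (k ⊗[ℚ] W), IsDeRhamBettiEnd K (η : ι → (k ⊗[ℚ] W →ₗ[k] ℂ)) Q →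
        P * Q = Q * P) → ∀ u v, ω (P u) v = ω u (P v))
    (h4 : ∀ φ : MultilinearMap k (fun _ : Fin 2 × Fin 2 => k ⊗[ℚ] W) k,
      IsDeRhamBettiForm K (η : ι → (k ⊗[ℚ] W →ₗ[k] ℂ)) τ 2 φ → IsHodgeCombination per φ)
    (Z₀ : Module.End ℚ W) (hk : ∀ (m' : ℕ)
      (ψ : MultilinearMap ℚ (fun _ : Fin m' × Fin 2 => W) ℚ), IsHodgeTensor per ψ → Kills Z₀ ψ) :
    Z₀.baseChange k ∈ hh K (η : ι → (k ⊗[ℚ] W →ₗ[k] ℂ)) τ := by
  have hnd' : ∀ u, (∀ v, ω u v = 0) → u = 0 := nondeg_ext ω₀ ω hωω hnd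
  have hsemi := semi_hh η hτ ω hnd' hω hss
  have hbr : ∀ X ∈ hh K (η : ι → (k ⊗[ℚ] W →ₗ[k] ℂ)) τ,
      ∀ Y ∈ hh K (η : ι → (k ⊗[ℚ] W →ₗ[k] ℂ)) τ,
      X * Y - Y * X ∈ hh K (η : ι → (k ⊗[ℚ] W →ₗ[k] ℂ)) τ := fun X hX Y hY => hh_bracket _ _ hX hY
  have hsp : ∀ X ∈ hh K (η : ι → (k ⊗[ℚ] W →ₗ[k] ℂ)) τ, IsSkew ω X := fun X hX =>
    skew_of_mem η hτ ω hω hX
  have hcen := cen_hh η hτ ω hnd' hω hZ
  have hZs : IsSkew ω (Z₀.baseChange k) :=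
    skew_ext ω₀ ω hωω ((kills_one2 ω₀ Z₀).1 (hk 1 _ (one2_hodge per ω₀ hωH)))
  have hkill : ∀ φ : MultilinearMap k (fun _ : Fin 2 × Fin 2 => k ⊗[ℚ] W) k,
      IsDeRhamBettiForm K (η : ι → (k ⊗[ℚ] W →ₗ[k] ℂ)) τ 2 φ → Kills (Z₀.baseChange k) φ :=
    fun φ hφ => kills_span (fun ψ => IsHodgeTensor per ψ) Z₀ (hk 2) φ (h4 φ hφ)
  refine mem_of_kills_casimir _ hsemi hbr ω hsp hcen hnd' hZs ?_ ?_
  · refine hkill _ (drb_of_kills η hτ _ fun X hX => ?_)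
    exact casimir_kills _ hsemi hbr ω hsp hcen (hsp X hX) fun Y hY => hbr X hX Y hY
  · intro P hP
    have hB : ∀ X ∈ hh K (η : ι → (k ⊗[ℚ] W →ₗ[k] ℂ)) τ, ∀ u v,
        (ω.comp P) (X u) v + (ω.comp P) u (X v) = 0 := by
      intro X hX u v
      rw [LinearMap.comp_apply, LinearMap.comp_apply]
      have h1 := hsp X hX (P u) v
      have h2 := congrArg (fun T : Module.End k (k ⊗[ℚ] W) => T u) (hP X hX)
      simp only [Module.End.mul_apply] at h2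
      rw [← h2]
      exact h1
    have h1 : Kills (Z₀.baseChange k) (two2 (ω.comp P) ω) := by
      refine hkill _ (drb_of_kills η hτ _ fun X hX => ?_)
      rw [kills_two2]
      intro u v w x
      rw [hB X hX u v, hsp X hX w x]
      ring
    rw [kills_two2] at h1
    refine LinearMap.ext fun u => ?_
    rw [← sub_eq_zero]
    apply hnd'
    intro v
    by_cases hzero : ∀ w x, ω w x = 0
    · exact hzero _ _
    push Not at hzero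
    obtain ⟨w, x, hwx⟩ := hzero
    have h2 := h1 u v w x
    rw [hZs w x, mul_zero, add_zero] at h2
    have h3 := (mul_eq_zero.1 h2).resolve_right hwx
    rw [LinearMap.comp_apply, LinearMap.comp_apply] at h3
    have h4 := hZs (P u) v
    rw [map_sub, LinearMap.sub_apply, Module.End.mul_apply, Module.End.mul_apply]
    linear_combination h4 - h3

/-- The endomorphisms of the Hodge structure. -/
def hodgeEnds : Submodule ℚ (W →ₗ[ℚ] W) where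
  carrier := {P | IsHodgeEnd per P}
  zero_mem' := ⟨0, fun w => by rw [LinearMap.zero_apply, LinearMap.zero_apply, map_zero]⟩
  add_mem' := by
    rintro P Q ⟨P', hP⟩ ⟨Q', hQ⟩
    exact ⟨P' + Q', fun w => by rw [LinearMap.add_apply, LinearMap.add_apply, map_add, hP, hQ]⟩
  smul_mem' := by
    rintro c P ⟨P', hP⟩
    refine ⟨(c : ℂ) • P', fun w => ?_⟩
    rw [LinearMap.smul_apply, LinearMap.smul_apply, hP]
    have h1 := map_ratCast_smul per ℚ ℂ c (P w)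
    rw [← h1]
    rfl

/-- An endomorphism killing the Hodge tensors commutes with the endomorphisms of the Hodge
structure. -/
theorem comm_hodgeEnd (hnd : ∀ u, (∀ v, ω₀ u v = 0) → u = 0) (hωH : IsHodgeBilinear per ω₀)
    (Z₀ : Module.End ℚ W) (hk : ∀ (m' : ℕ)
      (ψ : MultilinearMap ℚ (fun _ : Fin m' × Fin 2 => W) ℚ), IsHodgeTensor per ψ → Kills Z₀ ψ)
    {P₀ : Module.End ℚ W} (hP₀ : IsHodgeEnd per P₀) : Z₀ * P₀ = P₀ * Z₀ := by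
  have hZs₀ : IsSkew ω₀ Z₀ := (kills_one2 ω₀ Z₀).1 (hk 1 _ (one2_hodge per ω₀ hωH))
  have h4 : Kills Z₀ (one2 (ω₀.comp P₀)) := by
    apply hk 1
    apply one2_hodge
    obtain ⟨E, hE, hinv⟩ := hωH
    obtain ⟨P', hP'⟩ := hP₀
    refine ⟨E.comp (P'.restrictScalars ℝ), fun x y => ?_, fun z hz u v => ?_⟩
    · rw [LinearMap.comp_apply, LinearMap.comp_apply, LinearMap.restrictScalars_apply,
        hP', hE]
    · rw [LinearMap.comp_apply, LinearMap.comp_apply, LinearMap.restrictScalars_apply,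
        LinearMap.restrictScalars_apply, P'.map_smul, hinv z hz]
  rw [kills_one2] at h4
  ext u
  rw [← sub_eq_zero]
  apply hnd
  intro v
  have h5 := h4 u v
  rw [LinearMap.comp_apply, LinearMap.comp_apply] at h5
  have h6 := hZs₀ (P₀ u) v
  rw [map_sub, LinearMap.sub_apply, Module.End.mul_apply, Module.End.mul_apply]
  linear_combination h6 - h5

/-- Commutation with the extensions. -/
theorem comm_extEnd (hnd : ∀ u, (∀ v, ω₀ u v = 0) → u = 0) (hωH : IsHodgeBilinear per ω₀)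
    (Z₀ : Module.End ℚ W) (hk : ∀ (m' : ℕ)
      (ψ : MultilinearMap ℚ (fun _ : Fin m' × Fin 2 => W) ℚ), IsHodgeTensor per ψ → Kills Z₀ ψ)
    {P : Module.End k (k ⊗[ℚ] W)} (h1 : P ∈ extEnd k (fun P₀ => IsHodgeEnd per P₀)) :
    Z₀.baseChange k * P = P * Z₀.baseChange k := by
  unfold extEnd at h1
  induction h1 using Submodule.span_induction with
  | mem P h =>
    obtain ⟨P₀, hP₀, rfl⟩ := h
    have h4 := congrArg (LinearMap.baseChange k) (comm_hodgeEnd per ω₀ hnd hωH Z₀ hk hP₀)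
    rw [LinearMap.baseChange_mul, LinearMap.baseChange_mul] at h4
    exact h4
  | zero => rw [mul_zero, zero_mul]
  | add a b _ _ ha hb => rw [mul_add, add_mul, ha, hb]
  | smul c a _ ha => rw [mul_smul_comm, smul_mul_assoc, ha]

section Common

variable (hτ : τ ≠ 0) (hnd : ∀ u, (∀ v, ω₀ u v = 0) → u = 0)
    (hωω : ∀ u v : W, ω ((1 : k) ⊗ₜ[ℚ] u) ((1 : k) ⊗ₜ[ℚ] v) = algebraMap ℚ k (ω₀ u v))
    (hωH : IsHodgeBilinear per ω₀)
    (hω : IsDeRhamBettiBilinear K (η : ι → (k ⊗[ℚ] W →ₗ[k] ℂ)) τ ω)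
    (hss : DeRhamBettiSemisimple K (η : ι → (k ⊗[ℚ] W →ₗ[k] ℂ)))
    (hend : ∀ P : Module.End k (k ⊗[ℚ] W), IsDeRhamBettiEnd K (η : ι → (k ⊗[ℚ] W →ₗ[k] ℂ)) P ↔
      P ∈ extEnd k (fun P₀ => IsHodgeEnd per P₀))
    (hZ : ∀ P₀ : W →ₗ[ℚ] W, IsHodgeEnd per P₀ → (∀ Q₀ : W →ₗ[ℚ] W, IsHodgeEnd per Q₀ →
      P₀ ∘ₗ Q₀ = Q₀ ∘ₗ P₀) → ∀ u v, ω₀ (P₀ u) v = ω₀ u (P₀ v))

include hτ hnd hωω hω hend hZ in
theorem cen_coef : CenterTrivial (hh K (η : ι → (k ⊗[ℚ] W →ₗ[k] ℂ)) τ) ω := by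
  refine cen_hh η hτ ω (nondeg_ext ω₀ ω hωω hnd) hω ?_
  intro P hP hPc
  refine sym_of_cmp ω₀ ω hωω fun lam => ?_
  refine hZ _ (cmp_of_ext (hodgeEnds per) ((hend P).1 hP) lam) fun Q₀ hQ => ?_
  exact comm_cmp (hPc _ ((hend _).2 (Submodule.subset_span ⟨Q₀, hQ, rfl⟩))) lam

include hss hωH hτ hnd hωω hω hend hZ in
/-- The case of the symmetric elements of the bicommutant being central in it. -/
theorem mem_of_central
    (h2 : ∀ X₀ : W →ₗ[ℚ] W, (∀ P₀ : W →ₗ[ℚ] W, IsHodgeEnd per P₀ → X₀ ∘ₗ P₀ = P₀ ∘ₗ X₀) →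
      (∀ u v, ω₀ (X₀ u) v = ω₀ u (X₀ v)) → IsHodgeEnd per X₀)
    (Z₀ : Module.End ℚ W) (hk : ∀ (m' : ℕ)
      (ψ : MultilinearMap ℚ (fun _ : Fin m' × Fin 2 => W) ℚ), IsHodgeTensor per ψ → Kills Z₀ ψ) :
    Z₀.baseChange k ∈ hh K (η : ι → (k ⊗[ℚ] W →ₗ[k] ℂ)) τ := by
  have hnd' : ∀ u, (∀ v, ω u v = 0) → u = 0 := nondeg_ext ω₀ ω hωω hnd
  have hsemi := semi_hh η hτ ω hnd' hω hss
  have hcen := cen_coef per η ω₀ ω hτ hnd hωω hω hend hZ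
  have hZs : IsSkew ω (Z₀.baseChange k) :=
    skew_ext ω₀ ω hωω ((kills_one2 ω₀ Z₀).1 (hk 1 _ (one2_hodge per ω₀ hωH)))
  refine mem_of_rank_two _ hsemi (fun X hX Y hY => hh_bracket _ _ hX hY) ω
    (fun X hX => skew_of_mem η hτ ω hω hX) hcen hnd' ?_ hZs ?_
  · -- the symmetric elements of the bicommutant are central
    intro X hX hXs Y hY
    refine comm_of_end η hτ ω hnd' hω ((hend X).2 ?_) hY
    refine end_mem_span _ X fun lam => ?_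
    refine h2 _ (fun P₀ hP => ?_) (sym_cmp ω₀ ω hωω hXs lam)
    exact comm_cmp (hX _ fun A hA => comm_of_end η hτ ω hnd' hω
      ((hend _).2 (Submodule.subset_span ⟨P₀, hP, rfl⟩)) hA) lam
  · -- `Z` commutes with the endomorphisms
    exact fun P hP => comm_extEnd per ω₀ hnd hωH Z₀ hk ((hend P).1 (end_of_comm_hh η hτ P hP))

include hss hωH hτ hnd hωω hω hend hZ in
/-- One class in four variables suffices. -/
theorem exists_class (hper : IsRationalStructure per) :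
    ∃ Θ : MultilinearMap k (fun _ : Fin 2 × Fin 2 => k ⊗[ℚ] W) k,
      IsDeRhamBettiForm K (η : ι → (k ⊗[ℚ] W →ₗ[k] ℂ)) τ 2 Θ ∧
      (IsHodgeCombination per Θ → ∀ (m : ℕ)
        (φ : MultilinearMap k (fun _ : Fin m × Fin 2 => k ⊗[ℚ] W) k),
        IsDeRhamBettiForm K (η : ι → (k ⊗[ℚ] W →ₗ[k] ℂ)) τ m φ → IsHodgeCombination per φ) := by
  have hnd' : ∀ u, (∀ v, ω u v = 0) → u = 0 := nondeg_ext ω₀ ω hωω hnd
  have hsemi := semi_hh η hτ ω hnd' hω hss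
  have hbr : ∀ X ∈ hh K (η : ι → (k ⊗[ℚ] W →ₗ[k] ℂ)) τ,
      ∀ Y ∈ hh K (η : ι → (k ⊗[ℚ] W →ₗ[k] ℂ)) τ,
      X * Y - Y * X ∈ hh K (η : ι → (k ⊗[ℚ] W →ₗ[k] ℂ)) τ := fun X hX Y hY => hh_bracket _ _ hX hY
  have hsp : ∀ X ∈ hh K (η : ι → (k ⊗[ℚ] W →ₗ[k] ℂ)) τ, IsSkew ω X := fun X hX =>
    skew_of_mem η hτ ω hω hX
  have hcen := cen_coef per η ω₀ ω hτ hnd hωω hω hend hZ
  refine ⟨casimir _ hsemi hbr ω hsp hcen, drb_of_kills η hτ _ fun X hX =>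
    casimir_kills _ hsemi hbr ω hsp hcen (hsp X hX) fun Y hY => hbr X hX Y hY, fun hΘ => ?_⟩
  refine combination_of_mem per η hper fun Z₀ hk => ?_
  have hZs : IsSkew ω (Z₀.baseChange k) :=
    skew_ext ω₀ ω hωω ((kills_one2 ω₀ Z₀).1 (hk 1 _ (one2_hodge per ω₀ hωH)))
  refine mem_of_kills_casimir _ hsemi hbr ω hsp hcen hnd' hZs ?_ ?_
  · exact kills_span (fun ψ => IsHodgeTensor per ψ) Z₀ (hk 2) _ hΘ
  · exact fun P hP => comm_extEnd per ω₀ hnd hωH Z₀ hk ((hend P).1 (end_of_comm_hh η hτ P hP))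

end Common

end

end Pool.Agent.W516.DR
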