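import Mathlib
import Pool.Agent.W516.DRRank

/-!
# Conditions on the endomorphisms of an abelian variety
-/

namespace Pool.Agent.W516.DR

open Module TensorProduct Pool.Agent.H204R3.SP Pool.Agent.H204R3.GP Pool.Agent.W516.KC

section Conditions

variable {W T : Type*} [AddCommGroup W] [Module ℚ W] [AddCommGroup T] [Module ℂ T] (per : W →+ T)
  (ω₀ : W →ₗ[ℚ] W →ₗ[ℚ] ℚ)

/-- There are no factors of type IV: the elements of the center of the endomorphism algebra are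
symmetric. -/
def NoTypeIV : Prop :=
  ∀ P : W →ₗ[ℚ] W, IsHodgeEnd per P →
    (∀ Q : W →ₗ[ℚ] W, IsHodgeEnd per Q → P ∘ₗ Q = Q ∘ₗ P) → ∀ u v, ω₀ (P u) v = ω₀ u (P v)

/-- The relative dimension is one: the symmetric linear maps that commute with all endomorphisms
are themselves endomorphisms. -/
def RelativeDimensionOne : Prop :=
  ∀ X : W →ₗ[ℚ] W, (∀ P : W →ₗ[ℚ] W, IsHodgeEnd per P → X ∘ₗ P = P ∘ₗ X) →
    (∀ u v, ω₀ (X u) v = ω₀ u (X v)) → IsHodgeEnd per X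

/-- The theorem of Wüstholz for endomorphisms: the endomorphisms of the de Rham-Betti object (with
coefficients in `k`) are the `k`-linear combinations of endomorphisms. -/
def WustholzEnd (K : Type*) {k ι : Type*} [Field K] [Field k] [CharZero k] [Algebra k ℂ]
    [Algebra K ℂ] [Fintype ι] (η : ι → (k ⊗[ℚ] W →ₗ[k] ℂ)) : Prop :=
  ∀ P : k ⊗[ℚ] W →ₗ[k] k ⊗[ℚ] W, IsDeRhamBettiEnd K η P ↔
    P ∈ Submodule.span k {P' | ∃ P₀ : W →ₗ[ℚ] W, IsHodgeEnd per P₀ ∧ P' = P₀.baseChange k}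

end Conditions

noncomputable section

variable {k K : Type*} [Field k] [CharZero k] [Field K] [IsAlgClosed K] [CharZero K]
  [Algebra k K] [Algebra k ℂ] [Algebra K ℂ] [IsScalarTower k K ℂ]
  {W T : Type*} [AddCommGroup W] [Module ℚ W] [FiniteDimensional ℚ W]
  [AddCommGroup T] [Module ℂ T] (per : W →+ T)
  {ι : Type*} [Fintype ι] (η : Basis ι ℂ (k ⊗[ℚ] W →ₗ[k] ℂ)) {τ : ℂ}
  (ω₀ : W →ₗ[ℚ] W →ₗ[ℚ] ℚ) (ω : k ⊗[ℚ] W →ₗ[k] k ⊗[ℚ] W →ₗ[k] k)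
  (hper : IsRationalStructure per)
  (hωH : IsHodgeBilinear per ω₀) (hnd : ∀ u, (∀ v, ω₀ u v = 0) → u = 0) (hτ : τ ≠ 0)
  (hωω : ∀ u v : W, ω ((1 : k) ⊗ₜ[ℚ] u) ((1 : k) ⊗ₜ[ℚ] v) = ((ω₀ u v : ℚ) : k))
  (hω : IsDeRhamBettiBilinear K (η : ι → (k ⊗[ℚ] W →ₗ[k] ℂ)) τ ω)
  (hss : DeRhamBettiSemisimple K (η : ι → (k ⊗[ℚ] W →ₗ[k] ℂ)))
  (hend : WustholzEnd per K (η : ι → (k ⊗[ℚ] W →ₗ[k] ℂ)))
  (hIV : NoTypeIV per ω₀)

include hper hωH hnd hτ hωω hω hss hend hIV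

theorem drb_hodge (h2 : RelativeDimensionOne per ω₀)
    (m : ℕ) (φ : MultilinearMap k (fun _ : Fin m × Fin 2 => k ⊗[ℚ] W) k)
    (hφ : IsDeRhamBettiForm K (η : ι → (k ⊗[ℚ] W →ₗ[k] ℂ)) τ m φ) : IsHodgeCombination per φ := by
  classical
  have hωω' : ∀ u v : W, ω ((1 : k) ⊗ₜ[ℚ] u) ((1 : k) ⊗ₜ[ℚ] v) = algebraMap ℚ k (ω₀ u v) := by
    intro u v
    rw [hωω, eq_ratCast]
  exact combination_of_mem per η hper (fun Z₀ hk => mem_of_central per η ω₀ ω hτ hnd hωω' hωH hω hss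
    hend hIV h2 Z₀ hk) m φ hφ

theorem exists_class' :
    ∃ Θ : MultilinearMap k (fun _ : Fin 2 × Fin 2 => k ⊗[ℚ] W) k,
      IsDeRhamBettiForm K (η : ι → (k ⊗[ℚ] W →ₗ[k] ℂ)) τ 2 Θ ∧
      (∀ Z : k ⊗[ℚ] W →ₗ[k] k ⊗[ℚ] W, (∀ u v, ω (Z u) v + ω u (Z v) = 0) →
        (∀ P : W →ₗ[ℚ] W, IsHodgeEnd per P → Z ∘ₗ P.baseChange k = P.baseChange k ∘ₗ Z) →
        Kills Z Θ → ∀ (m : ℕ) (φ : MultilinearMap k (fun _ : Fin m × Fin 2 => k ⊗[ℚ] W) k),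
        IsDeRhamBettiForm K (η : ι → (k ⊗[ℚ] W →ₗ[k] ℂ)) τ m φ → Kills Z φ) ∧
      (IsHodgeCombination per Θ → ∀ (m : ℕ)
        (φ : MultilinearMap k (fun _ : Fin m × Fin 2 => k ⊗[ℚ] W) k),
        IsDeRhamBettiForm K (η : ι → (k ⊗[ℚ] W →ₗ[k] ℂ)) τ m φ → IsHodgeCombination per φ) := by
  classical
  have hωω' : ∀ u v : W, ω ((1 : k) ⊗ₜ[ℚ] u) ((1 : k) ⊗ₜ[ℚ] v) = algebraMap ℚ k (ω₀ u v) := by
    intro u v
    rw [hωω, eq_ratCast]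
  have hnd' : ∀ u, (∀ v, ω u v = 0) → u = 0 := nondeg_ext ω₀ ω hωω' hnd
  have hsemi := semi_hh η hτ ω hnd' hω hss
  have hbr : ∀ X ∈ hh K (η : ι → (k ⊗[ℚ] W →ₗ[k] ℂ)) τ,
      ∀ Y ∈ hh K (η : ι → (k ⊗[ℚ] W →ₗ[k] ℂ)) τ,
      X * Y - Y * X ∈ hh K (η : ι → (k ⊗[ℚ] W →ₗ[k] ℂ)) τ := fun X hX Y hY => hh_bracket _ _ hX hY
  have hsp : ∀ X ∈ hh K (η : ι → (k ⊗[ℚ] W →ₗ[k] ℂ)) τ, IsSkew ω X := fun X hX =>
    skew_of_mem η hτ ω hω hX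
  have hcen := cen_coef per η ω₀ ω hτ hnd hωω' hω hend hIV
  refine ⟨casimir _ hsemi hbr ω hsp hcen, drb_of_kills η hτ _ fun X hX =>
    casimir_kills _ hsemi hbr ω hsp hcen (hsp X hX) fun Y hY => hbr X hX Y hY, ?_, fun hΘ => ?_⟩
  · intro Z hZs hZc hZk m φ hφ
    have h1 : Z ∈ hh K (η : ι → (k ⊗[ℚ] W →ₗ[k] ℂ)) τ := by
      refine mem_of_kills_casimir _ hsemi hbr ω hsp hcen hnd' hZs hZk fun P hP => ?_
      have h1 := (hend P).1 (end_of_comm_hh η hτ P hP)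
      clear hP
      induction h1 using Submodule.span_induction with
      | mem P h =>
        obtain ⟨P₀, hP₀, rfl⟩ := h
        exact hZc P₀ hP₀
      | zero => rw [mul_zero, zero_mul]
      | add a b _ _ ha hb => rw [mul_add, add_mul, ha, hb]
      | smul c a _ ha => rw [mul_smul_comm, smul_mul_assoc, ha]
    exact h1 m φ hφ
  refine combination_of_mem per η hper fun Z₀ hk => ?_
  have hZs : IsSkew ω (Z₀.baseChange k) :=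
    skew_ext ω₀ ω hωω' ((kills_one2 ω₀ Z₀).1 (hk 1 _ (one2_hodge per ω₀ hωH)))
  refine mem_of_kills_casimir _ hsemi hbr ω hsp hcen hnd' hZs ?_ ?_
  · exact kills_span (fun ψ => IsHodgeTensor per ψ) Z₀ (hk 2) _ hΘ
  · exact fun P hP => comm_extEnd per ω₀ hnd hωH Z₀ hk ((hend P).1 (end_of_comm_hh η hτ P hP))

end

end Pool.Agent.W516.DR
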