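import Mathlib
import Pool.Agent.H204R3.SP.Lie

/-!
# Semisimplicity under subgroups of finite index
-/

set_option linter.unusedSectionVars false

namespace Pool.Agent.W516.Cliff

open Pool.Agent.H204R3.SP

noncomputable section

variable {k : Type*} [Field k] {V : Type*} [AddCommGroup V] [Module k V]
  {Γ : Type*} [Group Γ] (ρ : Representation k Γ V)

/-- Stability under a subgroup. -/
def Stab (Δ : Subgroup Γ) (U : Submodule k V) : Prop := ∀ s ∈ Δ, ∀ u ∈ U, ρ s u ∈ U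

theorem Stab.inf {Δ : Subgroup Γ} {U U' : Submodule k V} (h : Stab ρ Δ U) (h' : Stab ρ Δ U') :
    Stab ρ Δ (U ⊓ U') := fun s hs u hu => ⟨h s hs u hu.1, h' s hs u hu.2⟩

theorem Stab.sup {Δ : Subgroup Γ} {U U' : Submodule k V} (h : Stab ρ Δ U) (h' : Stab ρ Δ U') :
    Stab ρ Δ (U ⊔ U') := by
  intro s hs u hu
  obtain ⟨x, hx, y, hy, rfl⟩ := Submodule.mem_sup.1 hu
  rw [map_add]
  exact Submodule.add_mem_sup (h s hs x hx) (h' s hs y hy)

/-- Minimal stable subspaces. -/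
def Mini (Δ : Subgroup Γ) (S : Submodule k V) : Prop :=
  Stab ρ Δ S ∧ S ≠ ⊥ ∧ ∀ T, Stab ρ Δ T → T ≤ S → T ≠ ⊥ → T = S

theorem exists_mini [FiniteDimensional k V] {Δ : Subgroup Γ} {U : Submodule k V}
    (hU : Stab ρ Δ U) (h0 : U ≠ ⊥) : ∃ S, Mini ρ Δ S ∧ S ≤ U := by
  obtain ⟨S, ⟨h1, h2, h3⟩, h4⟩ := (wellFounded_lt (α := Submodule k V)).has_min
    {S | Stab ρ Δ S ∧ S ≠ ⊥ ∧ S ≤ U} ⟨U, hU, h0, le_rfl⟩
  refine ⟨S, ⟨h1, h2, fun T hT1 hT2 hT3 => ?_⟩, h3⟩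
  by_contra hne
  exact h4 T ⟨hT1, hT3, hT2.trans h3⟩ (lt_of_le_of_ne hT2 hne)

theorem map_stab {N : Subgroup Γ} [N.Normal] (g : Γ) {U : Submodule k V} (hU : Stab ρ N U) :
    Stab ρ N (U.map (ρ g)) := by
  rintro n hn _ ⟨x, hx, rfl⟩
  refine ⟨ρ (g⁻¹ * n * g) x, hU _ (by
    have h1 := Subgroup.Normal.conj_mem ‹N.Normal› n hn g⁻¹
    rwa [inv_inv] at h1) x hx, ?_⟩
  rw [map_mul, map_mul, Module.End.mul_apply, Module.End.mul_apply, rho_inv']

theorem map_map_inv (g : Γ) (U : Submodule k V) : (U.map (ρ g)).map (ρ g⁻¹) = U := by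
  ext x
  constructor
  · rintro ⟨_, ⟨y, hy, rfl⟩, rfl⟩
    rw [rho_inv]
    exact hy
  · intro hx
    exact ⟨_, ⟨x, hx, rfl⟩, rho_inv ρ g x⟩

theorem map_map_inv' (g : Γ) (U : Submodule k V) : (U.map (ρ g⁻¹)).map (ρ g) = U := by
  have h1 := map_map_inv ρ g⁻¹ U
  rwa [inv_inv] at h1

theorem map_mini {N : Subgroup Γ} [N.Normal] (g : Γ) {S : Submodule k V} (hS : Mini ρ N S) :
    Mini ρ N (S.map (ρ g)) := by
  obtain ⟨h1, h2, h3⟩ := hS
  refine ⟨map_stab ρ g h1, fun h => h2 ?_, fun T hT1 hT2 hT3 => ?_⟩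
  · rw [← map_map_inv ρ g S, h, Submodule.map_bot]
  · have h4 := h3 (T.map (ρ g⁻¹)) (map_stab ρ g⁻¹ hT1) (by
      have h5 := Submodule.map_mono (f := ρ g⁻¹) hT2
      rwa [map_map_inv] at h5) (fun h => hT3 (by
      rw [← map_map_inv' ρ g T, h, Submodule.map_bot]))
    rw [← h4, map_map_inv']

theorem sSup_mini [FiniteDimensional k V]
    (hss : ∀ U, Stab ρ ⊤ U → ∃ U', Stab ρ ⊤ U' ∧ IsCompl U U')
    (N : Subgroup Γ) [N.Normal] : sSup {S | Mini ρ N S} = ⊤ := by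
  have h1 : Stab ρ ⊤ (sSup {S | Mini ρ N S}) := by
    intro s _ u hu
    have h2 : (sSup {S | Mini ρ N S}).map (ρ s) ≤ sSup {S | Mini ρ N S} := by
      rw [sSup_eq_iSup', Submodule.map_iSup]
      refine iSup_le fun S => ?_
      refine le_trans ?_ (le_iSup (fun S : {S | Mini ρ N S} => (S : Submodule k V))
        ⟨_, map_mini ρ s S.2⟩)
      exact le_rfl
    exact h2 ⟨u, hu, rfl⟩
  obtain ⟨C, hC1, hC2⟩ := hss _ h1
  by_contra hne
  have hC0 : C ≠ ⊥ := by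
    intro h
    apply hne
    have h2 := hC2.sup_eq_top
    rwa [h, sup_bot_eq] at h2
  obtain ⟨S, hS1, hS2⟩ := exists_mini ρ (Δ := N) (fun s _ => hC1 s trivial) hC0
  apply hS1.2.1
  rw [eq_bot_iff, ← hC2.inf_eq_bot]
  exact le_inf (le_sSup hS1) hS2

theorem compl_normal [FiniteDimensional k V]
    (hss : ∀ U, Stab ρ ⊤ U → ∃ U', Stab ρ ⊤ U' ∧ IsCompl U U')
    (N : Subgroup Γ) [N.Normal] (U : Submodule k V) (hU : Stab ρ N U) :
    ∃ U', Stab ρ N U' ∧ IsCompl U U' := by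
  obtain ⟨C, ⟨hC1, hC2⟩, hC3⟩ := (wellFounded_gt (α := Submodule k V)).has_min
    {C | Stab ρ N C ∧ Disjoint U C} ⟨⊥, fun s _ u hu => by
      rw [Submodule.mem_bot] at hu ⊢
      rw [hu, map_zero], disjoint_bot_right⟩
  refine ⟨C, hC1, hC2, ?_⟩
  rw [codisjoint_iff]
  by_contra hne
  have h1 : ∃ S, Mini ρ N S ∧ ¬ S ≤ U ⊔ C := by
    by_contra hcon
    push Not at hcon
    apply hne
    rw [eq_top_iff, ← sSup_mini ρ hss N]
    exact sSup_le hcon
  obtain ⟨S, hS1, hS2⟩ := h1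
  have h2 : Disjoint (U ⊔ C) S := by
    rw [disjoint_iff]
    by_contra h3
    apply hS2
    have h4 := hS1.2.2 ((U ⊔ C) ⊓ S) ((hU.sup ρ hC1).inf ρ hS1.1) inf_le_right h3
    rw [← h4]
    exact inf_le_left
  have h3 : Disjoint U (C ⊔ S) := hC2.disjoint_sup_right_of_disjoint_sup_left h2
  refine hC3 (C ⊔ S) ⟨hC1.sup ρ hS1.1, h3⟩ ?_
  refine lt_of_le_of_ne le_sup_left fun h4 => hS2 ?_
  rw [h4]
  exact le_sup_right.trans le_sup_right

/-- A semisimple representation is semisimple under all subgroups of finite index. -/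
theorem compl_finiteIndex [CharZero k] [FiniteDimensional k V]
    (hss : ∀ U, Stab ρ ⊤ U → ∃ U', Stab ρ ⊤ U' ∧ IsCompl U U')
    (Δ : Subgroup Γ) [Δ.FiniteIndex] (U : Submodule k V) (hU : Stab ρ Δ U) :
    ∃ U', Stab ρ Δ U' ∧ IsCompl U U' := by
  classical
  let N : Subgroup Γ := Δ.normalCore
  obtain ⟨C, hC1, hC2⟩ := compl_normal ρ hss N U
    (fun s hs => hU s (Subgroup.normalCore_le Δ hs))
  let p : Module.End k V := U.projection C hC2
  have hpU : ∀ v, p v ∈ U := fun v => Submodule.projection_apply_mem hC2 v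
  have hp1 : ∀ u ∈ U, p u = u := fun u hu => Submodule.projection_apply_of_mem_left hC2 hu
  have hp0 : ∀ c ∈ C, p c = 0 := fun c hc => by
    change ((U.projectionOnto C hC2 c : U) : V) = 0
    rw [(Submodule.projectionOnto_apply_eq_zero_iff hC2).2 hc]
    rfl
  have hpN : ∀ n ∈ N, ∀ v, p (ρ n v) = ρ n (p v) := by
    intro n hn v
    have hv : v ∈ U ⊔ C := by
      rw [hC2.sup_eq_top]
      trivial
    obtain ⟨u, hu, c, hc, rfl⟩ := Submodule.mem_sup.1 hv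
    rw [map_add, map_add, map_add, hp1 u hu, hp0 c hc,
      hp1 _ (hU n (Subgroup.normalCore_le Δ hn) u hu), hp0 _ (hC1 n hn c hc), map_add, map_zero]
  let f : Δ → Module.End k V := fun d => ρ d * p * ρ (d : Γ)⁻¹
  let N' : Subgroup Δ := N.subgroupOf Δ
  have hfN : ∀ (d : Δ), ∀ n ∈ N', f (d * n) = f d := by
    intro d n hn
    have hn' : (n : Γ) ∈ N := Subgroup.mem_subgroupOf.1 hn
    ext v
    change ρ (↑(d * n)) (p (ρ (↑(d * n) : Γ)⁻¹ v)) = ρ d (p (ρ (d : Γ)⁻¹ v))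
    rw [Subgroup.coe_mul, mul_inv_rev, map_mul, map_mul, Module.End.mul_apply,
      Module.End.mul_apply, ← hpN n hn', rho_inv']
  have _ : Fintype (Δ ⧸ N') := Subgroup.fintypeQuotientOfFiniteIndex
  let S : Module.End k V := ∑ q : Δ ⧸ N', f q.out
  have hSconj : ∀ s : Δ, ρ s * S * ρ (s : Γ)⁻¹ = S := by
    intro s
    have h1 : ρ s * S * ρ (s : Γ)⁻¹ = ∑ q : Δ ⧸ N', f (s * q.out) := by
      change ρ s * (∑ q : Δ ⧸ N', f q.out) * ρ (s : Γ)⁻¹ = _
      rw [Finset.mul_sum, Finset.sum_mul]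
      refine Finset.sum_congr rfl fun q _ => ?_
      change ρ s * (ρ q.out * p * ρ (q.out : Γ)⁻¹) * ρ (s : Γ)⁻¹ =
        ρ (↑(s * q.out)) * p * ρ (↑(s * q.out) : Γ)⁻¹
      rw [Subgroup.coe_mul, mul_inv_rev, map_mul, map_mul]
      simp only [mul_assoc]
    have h2 : ∀ q : Δ ⧸ N', f (s * q.out) = f (s • q).out := by
      intro q
      have h3 : ((s * q.out : Δ) : Δ ⧸ N') = (((s • q).out : Δ) : Δ ⧸ N') := by
        rw [QuotientGroup.out_eq']
        conv_rhs => rw [← QuotientGroup.out_eq' q]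
        rfl
      have h4 : (s * q.out)⁻¹ * (s • q).out ∈ N' := QuotientGroup.eq.1 h3
      have h5 := hfN (s * q.out) _ h4
      rw [mul_inv_cancel_left] at h5
      exact h5.symm
    rw [h1, Finset.sum_congr rfl (fun q _ => h2 q)]
    exact Fintype.sum_equiv (MulAction.toPerm s) _ _ fun q => rfl
  have hSU : ∀ v, S v ∈ U := by
    intro v
    change (∑ q : Δ ⧸ N', f q.out) v ∈ U
    rw [LinearMap.sum_apply]
    refine Submodule.sum_mem _ fun q _ => ?_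
    exact hU _ q.out.2 _ (hpU _)
  have hS1 : ∀ u ∈ U, S u = (Fintype.card (Δ ⧸ N') : k) • u := by
    intro u hu
    change (∑ q : Δ ⧸ N', f q.out) u = _
    rw [LinearMap.sum_apply]
    have h1 : ∀ q : Δ ⧸ N', f q.out u = u := by
      intro q
      change ρ q.out (p (ρ (q.out : Γ)⁻¹ u)) = u
      rw [hp1 _ (hU _ (Δ.inv_mem q.out.2) u hu), rho_inv']
    rw [Finset.sum_congr rfl (fun q _ => h1 q), Finset.sum_const, Finset.card_univ,
      Nat.cast_smul_eq_nsmul]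
  have hm : (Fintype.card (Δ ⧸ N') : k) ≠ 0 := Nat.cast_ne_zero.2 Fintype.card_ne_zero
  let P : V →ₗ[k] U := ((Fintype.card (Δ ⧸ N') : k)⁻¹ • S).codRestrict U
    (fun v => U.smul_mem _ (hSU v))
  have hP1 : ∀ u : U, P u = u := by
    intro u
    apply Subtype.ext
    change (Fintype.card (Δ ⧸ N') : k)⁻¹ • S u = u
    rw [hS1 u u.2, smul_smul, inv_mul_cancel₀ hm, one_smul]
  refine ⟨LinearMap.ker P, fun s hs v hv => ?_, LinearMap.isCompl_of_proj hP1⟩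
  rw [LinearMap.mem_ker] at hv ⊢
  have h1 : (Fintype.card (Δ ⧸ N') : k)⁻¹ • S v = 0 := congrArg Subtype.val hv
  apply Subtype.ext
  change (Fintype.card (Δ ⧸ N') : k)⁻¹ • S (ρ s v) = 0
  have h2 : S (ρ s v) = ρ s (S v) := by
    have h3 := congrArg (fun T : Module.End k V => T (ρ s v)) (hSconj ⟨s, hs⟩)
    change ρ s (S (ρ s⁻¹ (ρ s v))) = S (ρ s v) at h3
    rw [← h3, rho_inv]
  rw [h2, ← map_smul, h1, map_zero]

end

end Pool.Agent.W516.Cliff
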