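import Mathlib
import Pool.Agent.W516.FourDefs

/-!
# Tate tensors on the powers of a variety
-/

namespace Pool.Agent.W516.Orth

/-- `φ` is a multilinear form in `n` variables that is fixed by a subgroup of finite index. -/
def IsTateTensor {k H Γ : Type*} [Field k] [AddCommGroup H] [Module k H] [Group Γ]
    (ρ : Representation k Γ H) {n : ℕ} (φ : MultilinearMap k (fun _ : Fin n => H) k) : Prop :=
  ∃ Δ : Subgroup Γ, Δ.FiniteIndex ∧ ∀ s ∈ Δ, ∀ v : Fin n → H, φ (fun i => ρ s (v i)) = φ v

/-- `L` is a linear form that is fixed by a subgroup of finite index. -/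
def IsTateLinearForm {k H Γ : Type*} [Field k] [AddCommGroup H] [Module k H] [Group Γ]
    (ρ : Representation k Γ H) (L : H →ₗ[k] k) : Prop :=
  ∃ Δ : Subgroup Γ, Δ.FiniteIndex ∧ ∀ s ∈ Δ, ∀ v, L (ρ s v) = L v

/-- `B` is a bilinear form on `H` with values in an extension `Ω` of the field of coefficients, fixed
by a subgroup of finite index. -/
def IsTateBilinearForm {k H Γ Ω : Type*} [Field k] [AddCommGroup H] [Module k H] [Group Γ]
    [Field Ω] [Algebra k Ω] (ρ : Representation k Γ H) (B : H →ₗ[k] H →ₗ[k] Ω) : Prop :=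
  ∃ Δ : Subgroup Γ, Δ.FiniteIndex ∧ ∀ s ∈ Δ, ∀ u v, B (ρ s u) (ρ s v) = B u v

/-- For all finite extensions `Ω` of the field of coefficients the nonzero bilinear forms with values
in `Ω` that are fixed by a subgroup of finite index have rank greater than `n`. -/
def TateBilinearFormsHaveRankGreaterThan {k : Type} {V Γ : Type*} [Field k] [AddCommGroup V]
    [Module k V] [Group Γ] (ρ : Representation k Γ V) (n : ℕ) : Prop :=
  ∀ (Ω : Type) [Field Ω] [Algebra k Ω] [FiniteDimensional k Ω] (B : V →ₗ[k] V →ₗ[k] Ω),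
    IsTateBilinearForm ρ B → B ≠ 0 → n < Pool.Agent.W516.FT.formRank B

/-- `ψ` is a product of Tate linear forms (in the variables with index in `S`) and Tate bilinear
forms (over a perfect matching `σ` of the other variables). -/
def IsProductOfTateForms {k H Γ : Type*} [Field k] [AddCommGroup H] [Module k H] [Group Γ]
    (ρ : Representation k Γ H) {n : ℕ} (ψ : MultilinearMap k (fun _ : Fin n => H) k) : Prop :=
  ∃ (S : Finset (Fin n)) (m : ℕ) (σ : Fin m × Fin 2 ≃ {i : Fin n // i ∉ S})
    (L : Fin n → (H →ₗ[k] k)) (B : Fin m → (H →ₗ[k] H →ₗ[k] k)),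
    (∀ i, IsTateLinearForm ρ (L i)) ∧ (∀ j, IsTateBilinearForm ρ (B j)) ∧
    ∀ v, ψ v = (∏ i ∈ S, L i (v i)) * ∏ j, B j (v (σ (j, 0))) (v (σ (j, 1)))

end Pool.Agent.W516.Orth
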