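import Mathlib
import Pool.Agent.H204R3.SP.Lie
import Pool.Agent.H204R3.SP.Tate

/-!
# The Lie algebra that kills all Tate tensors: the orthogonal case
-/

set_option linter.unusedSectionVars false

namespace Pool.Agent.W516.Orth

open Module Pool.Agent.H204R3.CM Pool.Agent.H204R3.SP

noncomputable section

variable {Ω : Type*} [Field Ω] {V : Type*} [AddCommGroup V] [Module Ω V]
  {Γ : Type*} [Group Γ] (ρ : Representation Ω Γ V)

/-- A multilinear form that is fixed by a subgroup of finite index. -/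
def IsFix {κ : Type*} (φ : MultilinearMap Ω (fun _ : κ => V) Ω) : Prop :=
  ∃ Δ : Subgroup Γ, Δ.FiniteIndex ∧ ∀ s ∈ Δ, ∀ v : κ → V, φ (fun l => ρ s (v l)) = φ v

/-- The endomorphisms that kill all Tate tensors. -/
def lieO : Submodule Ω (Module.End Ω V) where
  carrier := {X | ∀ (N : ℕ) (φ : MultilinearMap Ω (fun _ : Fin N => V) Ω), IsFix ρ φ → Kills X φ}
  zero_mem' := by
    intro N φ _ v
    refine Finset.sum_eq_zero fun k _ => ?_
    rw [LinearMap.zero_apply]
    exact φ.map_coord_zero k (Function.update_self _ _ _)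
  add_mem' := by
    intro X Y hX hY N φ hφ v
    have h1 := hX N φ hφ v
    have h2 := hY N φ hφ v
    have h3 := congrArg₂ (fun x y : Ω => x + y) h1 h2
    simp only [add_zero] at h3
    rw [← h3, ← Finset.sum_add_distrib]
    refine Finset.sum_congr rfl fun k _ => ?_
    rw [LinearMap.add_apply, MultilinearMap.map_update_add]
  smul_mem' := by
    intro c X hX N φ hφ v
    have h1 := hX N φ hφ v
    rw [← mul_zero c, ← h1, Finset.mul_sum]
    refine Finset.sum_congr rfl fun k _ => ?_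
    rw [LinearMap.smul_apply, MultilinearMap.map_update_smul, smul_eq_mul]

theorem lieO_bracket {X Y : Module.End Ω V} (hX : X ∈ lieO ρ) (hY : Y ∈ lieO ρ) :
    X * Y - Y * X ∈ lieO ρ :=
  fun N φ hφ => kills_bracket (hX N φ hφ) (hY N φ hφ)

theorem lieO_conj (s : Γ) {X : Module.End Ω V} (hX : X ∈ lieO ρ) :
    ρ s * X * ρ s⁻¹ ∈ lieO ρ := by
  intro N φ hφ v
  obtain ⟨Δ, hΔ, hφ⟩ := hφ
  let φ' : MultilinearMap Ω (fun _ : Fin N => V) Ω := φ.compLinearMap (fun _ => ρ s)
  have hφ' : IsFix ρ φ' := by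
    refine ⟨Δ.comap (MulAut.conj s).toMonoidHom, ⟨by
      rw [Subgroup.index_comap_of_surjective _ (MulAut.conj s).surjective]
      exact hΔ.index_ne_zero⟩, fun t ht v => ?_⟩
    have h1 : s * t * s⁻¹ ∈ Δ := by
      rw [Subgroup.mem_comap] at ht
      exact ht
    have h2 := hφ _ h1 (fun k => ρ s (v k))
    change φ (fun k => ρ s (ρ t (v k))) = φ (fun k => ρ s (v k))
    have h3 : ∀ k, ρ (s * t * s⁻¹) (ρ s (v k)) = ρ s (ρ t (v k)) := by
      intro k
      rw [map_mul, map_mul, Module.End.mul_apply, Module.End.mul_apply, rho_inv]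
    simp only [h3] at h2
    exact h2
  have h1 := hX N φ' hφ' (fun k => ρ s⁻¹ (v k))
  rw [← h1]
  refine Finset.sum_congr rfl fun k _ => ?_
  change _ = φ (fun l => ρ s (Function.update (fun k => ρ s⁻¹ (v k)) k (X (ρ s⁻¹ (v k))) l))
  congr 1
  funext l
  by_cases h : l = k
  · subst h
    rw [Function.update_self, Function.update_self]
    rfl
  · rw [Function.update_of_ne h, Function.update_of_ne h, rho_inv']

/-- A bilinear form on which a subgroup of finite index acts trivially. -/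
def IsFix2 (B : V →ₗ[Ω] V →ₗ[Ω] Ω) : Prop :=
  ∃ Δ : Subgroup Γ, Δ.FiniteIndex ∧ ∀ s ∈ Δ, ∀ u v, B (ρ s u) (ρ s v) = B u v

theorem lieO_bil {B : V →ₗ[Ω] V →ₗ[Ω] Ω} (hB : IsFix2 ρ B)
    {X : Module.End Ω V} (hX : X ∈ lieO ρ) (u w : V) : B (X u) w + B u (X w) = 0 := by
  obtain ⟨Δ, hΔ, hB⟩ := hB
  have h0 : IsFix ρ (bil2 B) := ⟨Δ, hΔ, fun s hs v => by
    rw [bil2_apply, bil2_apply, hB s hs]⟩
  have h1 := hX 2 _ h0 (fun k => if k = 0 then u else w)
  rw [Fin.sum_univ_two] at h1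
  simp only [bil2_apply] at h1
  simpa using h1

/-- The endomorphisms that commute with a subgroup of finite index. -/
def AlmostEq (P : Module.End Ω V) : Prop :=
  ∃ Δ : Subgroup Γ, Δ.FiniteIndex ∧ ∀ s ∈ Δ, ∀ v, P (ρ s v) = ρ s (P v)

variable (ω : V →ₗ[Ω] V →ₗ[Ω] Ω)

/-- The infinitesimal isometries that normalize the Lie algebra of the endomorphisms killing all
Tate tensors, and commute with all almost equivariant endomorphisms. -/
def nrmO : Submodule Ω (Module.End Ω V) where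
  carrier := {Y | (∀ u w, ω (Y u) w + ω u (Y w) = 0) ∧
    (∀ X ∈ lieO ρ, Y * X - X * Y ∈ lieO ρ) ∧
    ∀ P, AlmostEq ρ P → ∀ v, Y (P v) = P (Y v)}
  zero_mem' := by
    refine ⟨fun u w => ?_, fun X _ => ?_, fun P _ v => ?_⟩
    · simp
    · rw [zero_mul, mul_zero, sub_zero]
      exact Submodule.zero_mem _
    · simp
  add_mem' := by
    rintro Y Z ⟨hY1, hY2, hY3⟩ ⟨hZ1, hZ2, hZ3⟩
    refine ⟨fun u w => ?_, fun X hX => ?_, fun P hP v => ?_⟩
    · have h1 := hY1 u w
      have h2 := hZ1 u w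
      rw [LinearMap.add_apply, LinearMap.add_apply, map_add, map_add, LinearMap.add_apply]
      linear_combination h1 + h2
    · have h1 : (Y + Z) * X - X * (Y + Z) = (Y * X - X * Y) + (Z * X - X * Z) := by
        rw [add_mul, mul_add]
        abel
      rw [h1]
      exact Submodule.add_mem _ (hY2 X hX) (hZ2 X hX)
    · rw [LinearMap.add_apply, LinearMap.add_apply, map_add, hY3 P hP, hZ3 P hP]
  smul_mem' := by
    rintro c Y ⟨hY1, hY2, hY3⟩
    refine ⟨fun u w => ?_, fun X hX => ?_, fun P hP v => ?_⟩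
    · have h1 := hY1 u w
      rw [LinearMap.smul_apply, LinearMap.smul_apply, map_smul, map_smul, LinearMap.smul_apply,
        smul_eq_mul, smul_eq_mul]
      linear_combination c * h1
    · have h1 : (c • Y) * X - X * (c • Y) = c • (Y * X - X * Y) := by
        rw [smul_mul_assoc, mul_smul_comm, smul_sub]
      rw [h1]
      exact Submodule.smul_mem _ _ (hY2 X hX)
    · rw [LinearMap.smul_apply, LinearMap.smul_apply, map_smul, hY3 P hP]

theorem nrmO_bracket : ∀ X ∈ nrmO ρ ω, ∀ Y ∈ nrmO ρ ω, X * Y - Y * X ∈ nrmO ρ ω := by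
  rintro Y ⟨hY1, hY2, hY3⟩ Z ⟨hZ1, hZ2, hZ3⟩
  refine ⟨fun u w => ?_, fun X hX => ?_, fun P hP v => ?_⟩
  · have h1 := hY1 (Z u) w
    have h2 := hZ1 u (Y w)
    have h3 := hZ1 (Y u) w
    have h4 := hY1 u (Z w)
    rw [LinearMap.sub_apply, LinearMap.sub_apply, Module.End.mul_apply, Module.End.mul_apply,
      Module.End.mul_apply, Module.End.mul_apply, map_sub, map_sub, LinearMap.sub_apply]
    linear_combination h1 - h2 - h3 + h4
  · have h1 : (Y * Z - Z * Y) * X - X * (Y * Z - Z * Y) =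
        (Y * (Z * X - X * Z) - (Z * X - X * Z) * Y) -
        (Z * (Y * X - X * Y) - (Y * X - X * Y) * Z) := by
      noncomm_ring
    rw [h1]
    exact Submodule.sub_mem _ (hY2 _ (hZ2 X hX)) (hZ2 _ (hY2 X hX))
  · rw [LinearMap.sub_apply, LinearMap.sub_apply, Module.End.mul_apply, Module.End.mul_apply,
      Module.End.mul_apply, Module.End.mul_apply, map_sub, hZ3 P hP, hY3 P hP, hY3 P hP, hZ3 P hP]

theorem nrmO_conj (hωρ : ∀ s u v, ω (ρ s u) (ρ s v) = ω u v) (s : Γ) (Y : Module.End Ω V)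
    (hY : Y ∈ nrmO ρ ω) : ρ s * Y * ρ s⁻¹ ∈ nrmO ρ ω := by
  obtain ⟨hY1, hY2, hY3⟩ := hY
  refine ⟨fun u w => ?_, fun X hX => ?_, fun P hP v => ?_⟩
  · have h1 := hY1 (ρ s⁻¹ u) (ρ s⁻¹ w)
    have h2 := hωρ s (Y (ρ s⁻¹ u)) (ρ s⁻¹ w)
    have h3 := hωρ s (ρ s⁻¹ u) (Y (ρ s⁻¹ w))
    rw [rho_inv'] at h2 h3
    rw [Module.End.mul_apply, Module.End.mul_apply, Module.End.mul_apply, Module.End.mul_apply,
      h2, h3]
    exact h1
  · have h1 := lieO_conj ρ s⁻¹ hX
    rw [inv_inv] at h1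
    have h2 := lieO_conj ρ s (hY2 _ h1)
    have h3 : ρ s * ρ s⁻¹ = 1 := by rw [← map_mul, mul_inv_cancel, map_one]
    have h4 : ρ s * (Y * (ρ s⁻¹ * X * ρ s) - ρ s⁻¹ * X * ρ s * Y) * ρ s⁻¹ =
        ρ s * Y * ρ s⁻¹ * X * (ρ s * ρ s⁻¹) - (ρ s * ρ s⁻¹) * X * (ρ s * Y * ρ s⁻¹) := by
      noncomm_ring
    rw [h4, h3, mul_one, one_mul] at h2
    exact h2
  · obtain ⟨Δ, hΔ, hP⟩ := hP
    have hP' : AlmostEq ρ (ρ s⁻¹ * P * ρ s) := by
      refine ⟨Δ.comap (MulAut.conj s).toMonoidHom, ⟨by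
        rw [Subgroup.index_comap_of_surjective _ (MulAut.conj s).surjective]
        exact hΔ.index_ne_zero⟩, fun t ht v => ?_⟩
      have h1 : s * t * s⁻¹ ∈ Δ := by
        rw [Subgroup.mem_comap] at ht
        exact ht
      have h2 := hP _ h1 (ρ s v)
      have h3 : ∀ v, ρ (s * t * s⁻¹) (ρ s v) = ρ s (ρ t v) := by
        intro v
        rw [map_mul, map_mul, Module.End.mul_apply, Module.End.mul_apply, rho_inv]
      rw [h3] at h2
      rw [Module.End.mul_apply, Module.End.mul_apply, Module.End.mul_apply, Module.End.mul_apply,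
        h2, map_mul, map_mul, Module.End.mul_apply, Module.End.mul_apply, rho_inv]
    have h1 := hY3 _ hP' (ρ s⁻¹ v)
    rw [Module.End.mul_apply, Module.End.mul_apply, Module.End.mul_apply, Module.End.mul_apply,
      rho_inv'] at h1
    rw [Module.End.mul_apply, Module.End.mul_apply, Module.End.mul_apply, Module.End.mul_apply, h1,
      rho_inv']

/-- `lieO` is contained in the normalizer. -/
theorem lieO_le_nrmO (hωρ : ∀ s u v, ω (ρ s u) (ρ s v) = ω u v)
    (hnd : ∀ u, (∀ w, ω u w = 0) → u = 0) {X : Module.End Ω V}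
    (hX : X ∈ lieO ρ) : X ∈ nrmO ρ ω := by
  have hω : IsFix2 ρ ω := ⟨⊤, inferInstance, fun s _ u v => hωρ s u v⟩
  refine ⟨lieO_bil ρ hω hX, fun Y hY => lieO_bracket ρ hX hY, fun P hP v => ?_⟩
  obtain ⟨Δ, hΔ, hP⟩ := hP
  have hB : IsFix2 ρ (ω.comp P) := by
    refine ⟨Δ, hΔ, fun s hs u v => ?_⟩
    rw [LinearMap.comp_apply, LinearMap.comp_apply, hP s hs, hωρ]
  rw [← sub_eq_zero]
  apply hnd
  intro w
  have h1 := lieO_bil ρ hB hX v w
  have h2 := lieO_bil ρ hω hX (P v) w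
  rw [LinearMap.comp_apply, LinearMap.comp_apply] at h1
  rw [map_sub, LinearMap.sub_apply]
  linear_combination h2 - h1

section

variable {R : Type*} [Fintype R] [DecidableEq R] (e : Basis R Ω V)
  {γ : Γ} {a : R → Ω} (hγ : ∀ x, ρ γ (e x) = a x • e x)

include hγ in
theorem pow_eig (M : ℕ) (x : R) : ρ (γ ^ M) (e x) = a x ^ M • e x := by
  induction M with
  | zero => rw [pow_zero, pow_zero, one_smul, map_one]; rfl
  | succ n ih =>
    rw [pow_succ, map_mul, pow_succ, Module.End.mul_apply, hγ, map_smul, ih, smul_smul, mul_comm]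

include hγ in
theorem repr_pow_eig (M : ℕ) (v : V) (z : R) :
    e.repr (ρ (γ ^ M) v) z = a z ^ M * e.repr v z := by
  conv_lhs => rw [← e.sum_repr v]
  rw [map_sum, map_sum, Finsupp.finsetSum_apply, Finset.sum_eq_single z]
  · rw [map_smul, pow_eig ρ e hγ, map_smul, map_smul, e.repr_self, Finsupp.smul_apply,
      Finsupp.smul_apply, Finsupp.single_eq_same, smul_eq_mul, smul_eq_mul]
    ring
  · intro b _ hb
    rw [map_smul, pow_eig ρ e hγ, map_smul, map_smul, e.repr_self, Finsupp.smul_apply,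
      Finsupp.smul_apply, Finsupp.single_eq_of_ne hb.symm, smul_zero, smul_zero]
  · intro h
    exact absurd (Finset.mem_univ _) h

include hγ in
theorem eig_ne_zero (x : R) : a x ≠ 0 := by
  intro h
  apply e.ne_zero x
  rw [← rho_inv ρ γ (e x), hγ, h, zero_smul, map_zero]

include hγ in
/-- An almost equivariant endomorphism is diagonal. -/
theorem diag_of_almost (hdist : ∀ M : ℕ, 0 < M → ∀ x y, a x ^ M = a y ^ M → x = y)
    {P : Module.End Ω V} (hP : AlmostEq ρ P) {x z : R} (h : e.repr (P (e x)) z ≠ 0) :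
    z = x := by
  obtain ⟨Δ, hΔ, hP⟩ := hP
  obtain ⟨M, hM, -, hMΔ⟩ := Subgroup.exists_pow_mem_of_index_ne_zero hΔ.index_ne_zero γ
  have h1 := congrArg (fun v => e.repr v z) (hP _ hMΔ (e x))
  simp only [pow_eig ρ e hγ, map_smul, Finsupp.smul_apply, smul_eq_mul, repr_pow_eig ρ e hγ] at h1
  exact (hdist M hM x z (mul_right_cancel₀ h h1)).symm

variable (𝔪 : Submodule Ω (Module.End Ω V)) (h𝔪 : ∀ X ∈ 𝔪, ρ γ * X * ρ γ⁻¹ ∈ 𝔪)

include hγ h𝔪 in
/-- Polynomials in the adjoint action of `γ`. -/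
theorem poly_mem (X : Module.End Ω V) (hX : X ∈ 𝔪) (p : Polynomial Ω) :
    ∃ Y ∈ 𝔪, ∀ x z, e.repr (Y (e x)) z = p.eval (a z / a x) * e.repr (X (e x)) z := by
  induction p using Polynomial.induction_on with
  | C c =>
    refine ⟨c • X, Submodule.smul_mem _ _ hX, fun x z => ?_⟩
    rw [Polynomial.eval_C, LinearMap.smul_apply, map_smul, Finsupp.smul_apply, smul_eq_mul]
  | add p q hp hq =>
    obtain ⟨Y, hY, hY'⟩ := hp
    obtain ⟨Z, hZ, hZ'⟩ := hq
    refine ⟨Y + Z, Submodule.add_mem _ hY hZ, fun x z => ?_⟩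
    rw [Polynomial.eval_add, LinearMap.add_apply, map_add, Finsupp.add_apply, hY', hZ']
    ring
  | monomial n c ih =>
    obtain ⟨Y, hY, hY'⟩ := ih
    refine ⟨ρ γ * Y * ρ γ⁻¹, h𝔪 _ hY, fun x z => ?_⟩
    have ha := eig_ne_zero ρ e hγ x
    have h1 : ρ γ⁻¹ (e x) = (a x)⁻¹ • e x := by
      have h2 : ρ γ⁻¹ (a x • e x) = e x := by rw [← hγ, rho_inv]
      rw [map_smul] at h2
      rw [← h2, smul_smul, inv_mul_cancel₀ ha, one_smul, h2]
    have h3 : ∀ v, e.repr (ρ γ v) z = a z * e.repr v z := by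
      intro v
      have h4 := repr_pow_eig ρ e hγ 1 v z
      rwa [pow_one, pow_one] at h4
    rw [Module.End.mul_apply, Module.End.mul_apply, h1, map_smul, map_smul, map_smul,
      Finsupp.smul_apply, h3, hY', smul_eq_mul]
    simp only [Polynomial.eval_mul, Polynomial.eval_C, Polynomial.eval_pow, Polynomial.eval_X]
    rw [pow_succ, div_eq_mul_inv]
    ring

include hγ h𝔪 in
/-- Multiplication of the matrix coefficients by a function of the ratio of the eigenvalues. -/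
theorem ratio_mem (δ : R → R → Ω)
    (hδ : ∀ x z x' z', a z / a x = a z' / a x' → δ x z = δ x' z') (X : Module.End Ω V)
    (hX : X ∈ 𝔪) :
    ∃ Y ∈ 𝔪, ∀ x z, e.repr (Y (e x)) z = δ x z * e.repr (X (e x)) z := by
  classical
  let r : R × R → Ω := fun p => a p.2 / a p.1
  let f : Ω → Ω := Function.extend r (fun p => δ p.1 p.2) 0
  have hf : ∀ x z, f (a z / a x) = δ x z := by
    intro x z
    have h1 : Function.FactorsThrough (fun p : R × R => δ p.1 p.2) r := by
      intro p p' h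
      exact hδ _ _ _ _ h
    exact h1.extend_apply 0 (x, z)
  obtain ⟨Y, hY, hY'⟩ := poly_mem ρ e hγ 𝔪 h𝔪 X hX
    (Lagrange.interpolate (Finset.univ.image r) id f)
  refine ⟨Y, hY, fun x z => ?_⟩
  rw [hY']
  congr 1
  have h1 : a z / a x ∈ Finset.univ.image r := Finset.mem_image.2 ⟨(x, z), Finset.mem_univ _, rfl⟩
  have h2 := Lagrange.eval_interpolate_at_node f (s := Finset.univ.image r) (v := id)
    Function.injective_id.injOn h1
  rw [id] at h2
  rw [h2, hf]

end

end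

end Pool.Agent.W516.Orth
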