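import Mathlib
import Pool.Agent.W516.OLie

/-!
# Roots and classes: the orthogonal case
-/

set_option linter.unusedSectionVars false

namespace Pool.Agent.W516.Orth

open Module Pool.Agent.H204R3.CM Pool.Agent.H204R3.SP

noncomputable section

/-- The endomorphism `v ↦ ω(u, v) w - ω(w, v) u`. -/
def AA {Ω : Type*} [Field Ω] {V : Type*} [AddCommGroup V] [Module Ω V]
    (ω : V →ₗ[Ω] V →ₗ[Ω] Ω) (u w : V) : Module.End Ω V :=
  (ω u).smulRight w - (ω w).smulRight u

section

variable {Ω : Type*} [Field Ω] {V : Type*} [AddCommGroup V] [Module Ω V]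
  (ω : V →ₗ[Ω] V →ₗ[Ω] Ω)

theorem AA_apply (u w v : V) : AA ω u w v = ω u v • w - ω w v • u := rfl

theorem AA_anti (u w : V) : AA ω u w = -AA ω w u := by
  ext v
  rw [LinearMap.neg_apply, AA_apply, AA_apply, neg_sub]

theorem AA_self (u : V) : AA ω u u = 0 := by
  ext v
  rw [LinearMap.zero_apply, AA_apply, sub_self]

theorem AA_smul_left (c : Ω) (u w : V) : AA ω (c • u) w = c • AA ω u w := by
  ext v
  rw [LinearMap.smul_apply, AA_apply, AA_apply, map_smul, LinearMap.smul_apply, smul_eq_mul]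
  module

theorem AA_zero_right (u : V) : AA ω u 0 = 0 := by
  ext v
  rw [LinearMap.zero_apply, AA_apply, map_zero, LinearMap.zero_apply, smul_zero, zero_smul,
    sub_zero]

/-- The bracket with an infinitesimal isometry. -/
theorem AA_bracket {X : Module.End Ω V} (hX : ∀ u w, ω (X u) w + ω u (X w) = 0) (u w : V) :
    X * AA ω u w - AA ω u w * X = AA ω (X u) w + AA ω u (X w) := by
  ext v
  have h1 : ω u (X v) = -ω (X u) v := by linear_combination hX u v
  have h2 : ω w (X v) = -ω (X w) v := by linear_combination hX w v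
  rw [LinearMap.sub_apply, LinearMap.add_apply, Module.End.mul_apply, Module.End.mul_apply,
    AA_apply, AA_apply, AA_apply, AA_apply, map_sub, map_smul, map_smul, h1, h2]
  module

theorem AA_skew (hsym : ∀ u v, ω u v = ω v u) (u w : V) :
    ∀ x y, ω (AA ω u w x) y + ω x (AA ω u w y) = 0 := by
  intro x y
  rw [AA_apply, AA_apply, map_sub, map_sub, map_smul, map_smul, map_smul, map_smul,
    LinearMap.sub_apply, LinearMap.smul_apply, LinearMap.smul_apply, smul_eq_mul, smul_eq_mul,
    smul_eq_mul, smul_eq_mul, hsym x w, hsym x u]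
  ring

end

variable {Ω : Type*} [Field Ω] [CharZero Ω] {V : Type*} [AddCommGroup V] [Module Ω V]
  {R : Type*} [Fintype R] [DecidableEq R] (e : Basis R Ω V) {inv : R → R} {jj : R → Ω}
  (hinv : ∀ x, inv (inv x) = x) (hjj : ∀ x, jj (inv x) = jj x) (hj0 : ∀ x, jj x ≠ 0)
  (ω : V →ₗ[Ω] V →ₗ[Ω] Ω) (hω : ∀ x y, ω (e x) (e y) = JJ inv jj x y)
  {Γ : Type*} [Group Γ] (ρ : Representation Ω Γ V)
  {γ : Γ} {a : R → Ω} (hγ : ∀ x, ρ γ (e x) = a x • e x) (hq : ∀ x, a x * a (inv x) = 1)

/-- There are no multiplicative relations of length four besides the trivial ones. -/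
def FourO (inv : R → R) (a : R → Ω) : Prop :=
  ∀ M : ℕ, 0 < M → ∀ x y z w : R, (a x * a y * a z * a w) ^ M = 1 →
    (y = inv x ∧ w = inv z) ∨ (z = inv x ∧ w = inv y) ∨ (w = inv x ∧ z = inv y)

variable (h4 : FourO inv a)

include hω hinv hjj in
theorem om_symm (u v : V) : ω u v = ω v u := by
  have h1 : ω = ω.flip := by
    refine e.ext fun x => e.ext fun y => ?_
    rw [LinearMap.flip_apply, hω, hω]
    unfold JJ
    by_cases h : y = inv x
    · have h2 : x = inv y := by rw [h, hinv]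
      rw [if_pos h, if_pos h2, h, hjj]
    · have h2 : ¬ x = inv y := fun h' => h (by rw [h', hinv])
      rw [if_neg h, if_neg h2]
  exact congrArg (fun F : V →ₗ[Ω] V →ₗ[Ω] Ω => F u v) h1

include hinv hj0 hω in
theorem om_coeff (u : V) (x : R) : ω u (e (inv x)) = e.repr u x * jj x := by
  conv_lhs => rw [← e.sum_repr u]
  rw [map_sum, LinearMap.sum_apply, Finset.sum_eq_single x]
  · rw [map_smul, LinearMap.smul_apply, hω, smul_eq_mul]
    unfold JJ
    rw [if_pos rfl]
  · intro b _ hb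
    rw [map_smul, LinearMap.smul_apply, hω]
    unfold JJ
    rw [if_neg, smul_zero]
    intro h3
    exact hb (by rw [← hinv b, ← h3, hinv])
  · intro h3
    exact absurd (Finset.mem_univ _) h3

include hinv hj0 hω in
theorem om_nondeg {u : V} (hu : ∀ w, ω u w = 0) : u = 0 := by
  rw [← LinearEquiv.map_eq_zero_iff e.repr]
  ext x
  have h1 := om_coeff e hinv hj0 ω hω u x
  rw [hu] at h1
  rw [Finsupp.zero_apply]
  exact (mul_eq_zero.1 h1.symm).resolve_right (hj0 x)

include hinv hq h4 in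
theorem four_dist : ∀ M : ℕ, 0 < M → ∀ x y, a x ^ M = a y ^ M → x = y := by
  intro M hM x y hxy
  have h1 : (a x * a (inv y) * a x * a (inv x)) ^ M = 1 := by
    rw [mul_assoc (a x * a (inv y)), hq, mul_one, mul_pow, hxy, ← mul_pow, hq, one_pow]
  rcases h4 M hM _ _ _ _ h1 with h | h | h
  · rw [← hinv x, ← h.1, hinv]
  · rw [h.1, h.2, hinv]
  · rw [h.2, hinv]

omit [CharZero Ω] in
include hinv in
theorem dd_bar (t y : R) : (dd inv t (inv y) : Ω) = -dd inv t y := by
  have e1 : (inv y = t) ↔ (y = inv t) :=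
    ⟨fun h => by rw [← h, hinv], fun h => by rw [h, hinv]⟩
  have e2 : (inv y = inv t) ↔ (y = t) :=
    ⟨fun h => by rw [← hinv y, h, hinv], fun h => by rw [h]⟩
  unfold dd
  simp only [e1, e2]
  ring

include hinv hq h4 hγ in
/-- Pairs of indices with the same ratio of eigenvalues. -/
theorem four_pairs {x z x' z' : R} (h : a z / a x = a z' / a x') :
    (x' = inv z ∧ z' = inv x) ∨ (z' = z ∧ x' = x) ∨ (z = x ∧ z' = x') := by
  have ha := eig_ne_zero ρ e hγ
  have h1 : a z * a x' = a z' * a x := by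
    rw [div_eq_div_iff (ha x) (ha x')] at h
    exact h
  have h2 : (a z * a x' * a (inv z') * a (inv x)) ^ 1 = 1 := by
    rw [h1]
    have e1 := hq z'
    have e2 := hq x
    rw [pow_one]
    linear_combination (a x * a (inv x)) * e1 + e2
  rcases h4 1 one_pos _ _ _ _ h2 with h | h | h
  · obtain ⟨h5, h6⟩ := h
    exact Or.inl ⟨h5, by rw [h6, hinv]⟩
  · obtain ⟨h5, h6⟩ := h
    exact Or.inr (Or.inl ⟨by rw [← hinv z', h5, hinv], by rw [← hinv x, h6, hinv]⟩)
  · obtain ⟨h5, h6⟩ := h
    exact Or.inr (Or.inr ⟨by rw [← hinv z, ← h5, hinv], by rw [← hinv z', h6, hinv]⟩)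

include hinv hq h4 hγ in
theorem four_ratio (t : R) (x z x' z' : R) (h : a z / a x = a z' / a x') :
    (dd inv t z - dd inv t x : Ω) = dd inv t z' - dd inv t x' := by
  rcases four_pairs e hinv ρ hγ hq h4 h with ⟨h1, h2⟩ | ⟨h1, h2⟩ | ⟨h1, h2⟩
  · rw [h1, h2, dd_bar hinv, dd_bar hinv]
    ring
  · rw [h1, h2]
  · rw [h1, h2]
    ring

include hinv hω in
theorem DD_so (y : R) (u w : V) : ω (DD e inv y u) w + ω u (DD e inv y w) = 0 := by
  have key : ω.comp (DD e inv y) + (ω.compl₂ (DD e inv y)) = 0 := by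
    refine e.ext fun x => e.ext fun z => ?_
    rw [LinearMap.add_apply, LinearMap.add_apply, LinearMap.comp_apply, LinearMap.compl₂_apply,
      DD_basis, DD_basis, map_smul, LinearMap.smul_apply, map_smul, hω, smul_eq_mul, smul_eq_mul,
      LinearMap.zero_apply, LinearMap.zero_apply]
    unfold JJ
    by_cases h : z = inv x
    · rw [if_pos h, h, dd_bar hinv]
      ring
    · rw [if_neg h]
      ring
  exact congrArg (fun F : V →ₗ[Ω] V →ₗ[Ω] Ω => F u w) key

include hinv hω hq h4 hγ in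
/-- The diagonal torus is in the normalizer. -/
theorem DD_nrmO (y : R) : DD e inv y ∈ nrmO ρ ω := by
  refine ⟨DD_so e hinv ω hω y, fun X hX => ?_, fun P hP v => ?_⟩
  · obtain ⟨Y, hY, hY'⟩ := ratio_mem ρ e hγ (lieO ρ) (fun X hX => lieO_conj ρ γ hX)
      (fun x z => dd inv y z - dd inv y x)
      (fun x z x' z' h => four_ratio e hinv ρ hγ hq h4 y x z x' z' h) X hX
    have h1 : DD e inv y * X - X * DD e inv y = Y := by
      refine e.ext fun x => e.repr.injective (Finsupp.ext fun z => ?_)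
      rw [hY', LinearMap.sub_apply, Module.End.mul_apply, Module.End.mul_apply, map_sub,
        Finsupp.sub_apply, DD_repr, DD_basis, map_smul, map_smul, Finsupp.smul_apply, smul_eq_mul]
      ring
    rw [h1]
    exact hY
  · have h1 : (DD e inv y).comp P = P.comp (DD e inv y) := by
      refine e.ext fun x => e.repr.injective (Finsupp.ext fun z => ?_)
      rw [LinearMap.comp_apply, LinearMap.comp_apply, DD_repr, DD_basis, map_smul, map_smul,
        Finsupp.smul_apply, smul_eq_mul]
      by_cases h : e.repr (P (e x)) z = 0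
      · rw [h, mul_zero, mul_zero]
      · rw [diag_of_almost ρ e hγ (four_dist hinv hq h4) hP h]
    exact congrArg (fun T : Module.End Ω V => T v) h1

variable (𝔫 : Submodule Ω (Module.End Ω V))
  (hbr : ∀ X ∈ 𝔫, ∀ Y ∈ 𝔫, X * Y - Y * X ∈ 𝔫)
  (hD : ∀ y, DD e inv y ∈ 𝔫)
  (hsk : ∀ X ∈ 𝔫, ∀ u w, ω (X u) w + ω u (X w) = 0)
  (hconj : ∀ (s : Γ) (X : Module.End Ω V), X ∈ 𝔫 → ρ s * X * ρ s⁻¹ ∈ 𝔫)
  (hcomm : ∀ X ∈ 𝔫, ∀ P, AlmostEq ρ P → ∀ v, X (P v) = P (X v))

include hinv hjj hj0 hω hsk in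
theorem coeff_bar_zero {X : Module.End Ω V} (hX : X ∈ 𝔫) (x : R) :
    e.repr (X (e x)) (inv x) = 0 := by
  have h1 := hsk X hX (e x) (e x)
  rw [om_symm e hinv hjj ω hω (e x) (X (e x))] at h1
  have h2 := om_coeff e hinv hj0 ω hω (X (e x)) (inv x)
  rw [hinv] at h2
  have h3 : (2 : Ω) * ω (X (e x)) (e x) = 0 := by linear_combination h1
  rw [(mul_eq_zero.1 h3).resolve_left two_ne_zero] at h2
  exact (mul_eq_zero.1 h2.symm).resolve_right (hj0 _)

include hinv hjj hj0 hω hsk hconj hq h4 hγ in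
/-- If an element of the Lie algebra has a nonzero matrix coefficient from `e x` to `e z`, the
corresponding root vector is in the Lie algebra. -/
theorem root_mem {X : Module.End Ω V} (hX : X ∈ 𝔫) {x z : R} (hxz : z ≠ x)
    (hc : e.repr (X (e x)) z ≠ 0) : z ≠ inv x ∧ AA ω (e (inv x)) (e z) ∈ 𝔫 := by
  have hz : z ≠ inv x := by
    rintro rfl
    exact hc (coeff_bar_zero e hinv hjj hj0 ω hω 𝔫 hsk hX x)
  refine ⟨hz, ?_⟩
  classical
  obtain ⟨Y, hY, hY'⟩ := ratio_mem ρ e hγ 𝔫 (fun X hX => hconj γ X hX)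
    (fun x' z' => if a z' / a x' = a z / a x then 1 else 0)
    (fun x1 z1 x2 z2 h => by rw [h]) X hX
  have hxz' : x ≠ inv z := fun h => hz (by rw [h, hinv])
  -- the relation
  have hrel : e.repr (Y (e x)) z * jj z + e.repr (Y (e (inv z))) (inv x) * jj x = 0 := by
    have h1 := hsk Y hY (e x) (e (inv z))
    rw [om_coeff e hinv hj0 ω hω, om_symm e hinv hjj ω hω (e x)] at h1
    have h2 := om_coeff e hinv hj0 ω hω (Y (e (inv z))) (inv x)
    rw [hinv, hjj] at h2
    rw [h2] at h1
    exact h1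
  have hYxz : e.repr (Y (e x)) z = e.repr (X (e x)) z := by
    rw [hY', if_pos rfl, one_mul]
  have hval : ∀ x' z', ¬ (x' = x ∧ z' = z) → ¬ (x' = inv z ∧ z' = inv x) →
      e.repr (Y (e x')) z' = 0 := by
    intro x' z' h1 h2
    rw [hY']
    by_cases h : a z' / a x' = a z / a x
    · exfalso
      rcases four_pairs e hinv ρ hγ hq h4 h.symm with ⟨h5, h6⟩ | ⟨h5, h6⟩ | ⟨h5, h6⟩
      · exact h2 ⟨h5, h6⟩
      · exact h1 ⟨h6, h5⟩
      · exact hxz h5
    · rw [if_neg h, zero_mul]
  have h1 : AA ω (e (inv x)) (e z) = (jj x / e.repr (X (e x)) z) • Y := by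
    refine e.ext fun x' => e.repr.injective (Finsupp.ext fun z' => ?_)
    rw [LinearMap.smul_apply, map_smul, Finsupp.smul_apply, AA_apply, map_sub, map_smul, map_smul,
      Finsupp.sub_apply, Finsupp.smul_apply, Finsupp.smul_apply, hω, hω, e.repr_self, e.repr_self,
      Finsupp.single_apply, Finsupp.single_apply, smul_eq_mul, smul_eq_mul, smul_eq_mul]
    by_cases hx' : x' = x
    · subst hx'
      have e1 : JJ inv jj (inv x') x' = jj x' := by
        unfold JJ
        rw [if_pos (hinv x').symm, hjj]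
      have e2 : JJ inv jj z x' = 0 := by
        unfold JJ
        rw [if_neg hxz']
      rw [e1, e2, zero_mul, sub_zero]
      by_cases hz' : z = z'
      · subst hz'
        rw [if_pos rfl, hYxz]
        field_simp
      · rw [if_neg hz', hval x' z' (fun h => hz' h.2.symm) (fun h => hxz' h.1)]
        ring
    · have e1 : JJ inv jj (inv x) x' = 0 := by
        unfold JJ
        rw [hinv, if_neg hx']
      rw [e1, zero_mul, zero_sub]
      by_cases hx2 : x' = inv z
      · subst hx2
        have e2 : JJ inv jj z (inv z) = jj z := by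
          unfold JJ
          rw [if_pos rfl]
        rw [e2]
        by_cases hz' : inv x = z'
        · subst hz'
          rw [if_pos rfl]
          have h3 : e.repr (Y (e (inv z))) (inv x) = -(e.repr (X (e x)) z * jj z / jj x) := by
            rw [hYxz] at hrel
            have := hj0 x
            field_simp
            linear_combination hrel
          rw [h3]
          have := hj0 x
          field_simp
        · rw [if_neg hz', hval (inv z) z' (fun h => hx' h.1) (fun h => hz' h.2.symm)]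
          ring
      · have e2 : JJ inv jj z x' = 0 := by
          unfold JJ
          rw [if_neg hx2]
        rw [e2, zero_mul, hval x' z' (fun h => hx' h.1) (fun h => hx2 h.1)]
        ring
  rw [h1]
  exact Submodule.smul_mem _ _ hY

/-- The root relation. -/
def Rt (inv : R → R) (x z : R) : Prop :=
  z ≠ x ∧ z ≠ inv x ∧ AA ω (e (inv x)) (e z) ∈ 𝔫

include hinv in
theorem Rt_bar {x z : R} (h : Rt e ω 𝔫 inv x z) : Rt e ω 𝔫 inv (inv z) (inv x) := by
  obtain ⟨h1, h2, h3⟩ := h
  refine ⟨fun h => h1 (by rw [← hinv z, ← h, hinv]), fun h => ?_, ?_⟩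
  · rw [hinv] at h
    exact h2 h.symm
  · rw [hinv, AA_anti]
    exact Submodule.neg_mem _ h3

include hinv hjj hj0 hω hbr in
theorem Rt_trans {x w z : R} (h1 : Rt e ω 𝔫 inv x w) (h2 : Rt e ω 𝔫 inv w z) (hzx : z ≠ x)
    (hzx' : z ≠ inv x) : Rt e ω 𝔫 inv x z := by
  refine ⟨hzx, hzx', ?_⟩
  have hs := om_symm e hinv hjj ω hω
  have h3 := hbr _ h1.2.2 _ h2.2.2
  rw [AA_bracket ω (AA_skew ω hs _ _)] at h3
  have e1 : AA ω (e (inv x)) (e w) (e (inv w)) = (-jj w) • e (inv x) := by
    rw [AA_apply, hω, hω]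
    have e2 : JJ inv jj (inv x) (inv w) = 0 := by
      unfold JJ
      rw [if_neg]
      intro h
      rw [hinv] at h
      exact h1.2.1 (by rw [← h, hinv])
    have e3 : JJ inv jj w (inv w) = jj w := by
      unfold JJ
      rw [if_pos rfl]
    rw [e2, e3]
    module
  have e2 : AA ω (e (inv x)) (e w) (e z) = 0 := by
    rw [AA_apply, hω, hω]
    have e2 : JJ inv jj (inv x) z = 0 := by
      unfold JJ
      rw [if_neg]
      rw [hinv]
      exact hzx
    have e3 : JJ inv jj w z = 0 := by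
      unfold JJ
      rw [if_neg h2.2.1]
    rw [e2, e3]
    module
  rw [e1, e2, AA_smul_left, AA_zero_right, add_zero] at h3
  exact (Submodule.smul_mem_iff _ (neg_ne_zero.2 (hj0 w))).1 h3

end

end Pool.Agent.W516.Orth
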