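import Mathlib
import Pool.Agent.W516.ORoot
import Pool.Agent.H204R3.GP.Classes

/-!
# Classes of basis vectors: the orthogonal case
-/

set_option linter.unusedSectionVars false

namespace Pool.Agent.W516.Orth

open Module Pool.Agent.H204R3.CM Pool.Agent.H204R3.SP

noncomputable section

variable {Ω : Type*} [Field Ω] [CharZero Ω] {V : Type*} [AddCommGroup V] [Module Ω V]
  {R : Type*} [Fintype R] [DecidableEq R] (e : Basis R Ω V) {inv : R → R} {jj : R → Ω}
  (hinv : ∀ x, inv (inv x) = x) (hjj : ∀ x, jj (inv x) = jj x) (hj0 : ∀ x, jj x ≠ 0)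
  (hfix : ∀ x y, inv x = x → inv y = y → x = y)
  (ω : V →ₗ[Ω] V →ₗ[Ω] Ω) (hω : ∀ x y, ω (e x) (e y) = JJ inv jj x y)
  {Γ : Type*} [Group Γ] (ρ : Representation Ω Γ V)
  (𝔫 : Submodule Ω (Module.End Ω V))
  (hbr : ∀ X ∈ 𝔫, ∀ Y ∈ 𝔫, X * Y - Y * X ∈ 𝔫)
  (hD : ∀ y, DD e inv y ∈ 𝔫)
  (hsk : ∀ X ∈ 𝔫, ∀ u w, ω (X u) w + ω u (X w) = 0)
  (hconj : ∀ (s : Γ) (X : Module.End Ω V), X ∈ 𝔫 → ρ s * X * ρ s⁻¹ ∈ 𝔫)
  (hcomm : ∀ X ∈ 𝔫, ∀ P, AlmostEq ρ P → ∀ v, X (P v) = P (X v))
  (hdiag : ∀ P, AlmostEq ρ P → ∀ x z, e.repr (P (e x)) z ≠ 0 → z = x)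
  (hroot : ∀ X ∈ 𝔫, ∀ x z, z ≠ x → e.repr (X (e x)) z ≠ 0 → Rt e ω 𝔫 inv x z)

include hinv hD in
theorem basis_mem' (U : Submodule Ω V) (hU : ∀ X ∈ 𝔫, ∀ u ∈ U, X u ∈ U) {v : V} (hv : v ∈ U)
    {z : R} (hz : e.repr v z ≠ 0) (hzz : inv z ≠ z) : e z ∈ U := by
  have h1 : DD e inv z (DD e inv z v) + DD e inv z v ∈ U :=
    Submodule.add_mem _ (hU _ (hD z) _ (hU _ (hD z) _ hv)) (hU _ (hD z) _ hv)
  have h2 : DD e inv z (DD e inv z v) + DD e inv z v = (2 * e.repr v z) • e z := by
    refine e.repr.injective (Finsupp.ext fun b => ?_)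
    rw [map_add, Finsupp.add_apply, DD_repr, DD_repr, map_smul, Finsupp.smul_apply, e.repr_self,
      Finsupp.single_apply, smul_eq_mul]
    by_cases hb : b = z
    · subst hb
      have e1 : (dd inv b b : Ω) = 1 := by
        unfold dd
        rw [if_pos rfl, if_neg (fun h => hzz h.symm), sub_zero]
      rw [e1, if_pos rfl]
      ring
    · rw [if_neg (Ne.symm hb)]
      by_cases hb2 : b = inv z
      · subst hb2
        have e1 : (dd inv z (inv z) : Ω) = -1 := by
          unfold dd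
          rw [if_neg hzz, if_pos rfl, zero_sub]
        rw [e1]
        ring
      · have e1 : (dd inv z b : Ω) = 0 := by
          unfold dd
          rw [if_neg hb, if_neg hb2, sub_zero]
        rw [e1]
        ring
  rw [h2] at h1
  have h3 := Submodule.smul_mem _ (2 * e.repr v z)⁻¹ h1
  rwa [smul_smul, inv_mul_cancel₀ (mul_ne_zero two_ne_zero hz), one_smul] at h3

include hinv hD hfix in
/-- Stable subspaces are spanned by basis vectors. -/
theorem basis_mem (U : Submodule Ω V) (hU : ∀ X ∈ 𝔫, ∀ u ∈ U, X u ∈ U) {v : V} (hv : v ∈ U)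
    {z : R} (hz : e.repr v z ≠ 0) : e z ∈ U := by
  by_cases hzz : inv z = z
  · have h1 : v = e.repr v z • e z + ∑ b ∈ Finset.univ.erase z, e.repr v b • e b := by
      rw [Finset.add_sum_erase Finset.univ (fun b => e.repr v b • e b) (Finset.mem_univ z)]
      exact (e.sum_repr v).symm
    have h2 : ∑ b ∈ Finset.univ.erase z, e.repr v b • e b ∈ U := by
      refine Submodule.sum_mem _ fun b hb => ?_
      by_cases h : e.repr v b = 0
      · rw [h, zero_smul]
        exact U.zero_mem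
      · refine U.smul_mem _ (basis_mem' e hinv 𝔫 hD U hU hv h ?_)
        intro hbb
        exact Finset.ne_of_mem_erase hb (hfix b z hbb hzz)
    have h3 : e.repr v z • e z ∈ U := by
      have h4 := U.sub_mem hv h2
      rwa [sub_eq_of_eq_add h1] at h4
    exact (Submodule.smul_mem_iff _ hz).1 h3
  · exact basis_mem' e hinv 𝔫 hD U hU hv hz hzz

include hinv hD hfix in
theorem eq_span (U : Submodule Ω V) (hU : ∀ X ∈ 𝔫, ∀ u ∈ U, X u ∈ U) :
    U = Submodule.span Ω (e '' {z | e z ∈ U}) := by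
  apply le_antisymm
  · intro v hv
    rw [e.mem_span_image]
    intro z hz
    rw [Finset.mem_coe, Finsupp.mem_support_iff] at hz
    exact basis_mem e hinv hfix 𝔫 hD U hU hv hz
  · rw [Submodule.span_le]
    rintro _ ⟨z, hz, rfl⟩
    exact hz

include hinv hfix hD hconj in
/-- Subspaces stable under the Lie algebra are stable under a subgroup of finite index. -/
theorem exists_stabilizer (U : Submodule Ω V) (hU : ∀ X ∈ 𝔫, ∀ u ∈ U, X u ∈ U) :
    ∃ Δ : Subgroup Γ, Δ.FiniteIndex ∧ ∀ s ∈ Δ, ∀ u ∈ U, ρ s u ∈ U := by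
  have hmm : ∀ s t : Γ, U.map (ρ (s * t)) = (U.map (ρ t)).map (ρ s) := by
    intro s t
    rw [map_mul]
    exact Submodule.map_comp (ρ t) (ρ s) U
  have hm1 : U.map (ρ (1 : Γ)) = U := by
    rw [map_one]
    exact Submodule.map_id U
  let Δ : Subgroup Γ :=
    { carrier := {s | U.map (ρ s) = U}
      one_mem' := hm1
      mul_mem' := by
        intro s t hs ht
        change U.map (ρ (s * t)) = U
        rw [hmm, show U.map (ρ t) = U from ht, show U.map (ρ s) = U from hs]
      inv_mem' := by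
        intro s hs
        change U.map (ρ s⁻¹) = U
        conv_lhs => rw [← show U.map (ρ s) = U from hs]
        rw [← hmm, inv_mul_cancel, hm1] }
  have hΔ : Δ.FiniteIndex := by
    let g : Γ → Set R := fun s => {z | e z ∈ U.map (ρ s)}
    have hg : ∀ s t, g s = g t → U.map (ρ s) = U.map (ρ t) := by
      intro s t h
      rw [eq_span e hinv hfix 𝔫 hD (U.map (ρ s)) (map_stable 𝔫 ρ hconj U hU s),
        eq_span e hinv hfix 𝔫 hD (U.map (ρ t)) (map_stable 𝔫 ρ hconj U hU t)]
      change Submodule.span Ω (e '' g s) = Submodule.span Ω (e '' g t)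
      rw [h]
    have hinj : Function.Injective (fun q : Γ ⧸ Δ => g q.out) := by
      intro q q' h
      have h1 := hg _ _ h
      have h2 : (q.out)⁻¹ * q'.out ∈ Δ := by
        change U.map (ρ ((q.out)⁻¹ * q'.out)) = U
        rw [hmm, ← h1, ← hmm, inv_mul_cancel, hm1]
      rw [← QuotientGroup.out_eq' q, ← QuotientGroup.out_eq' q']
      exact QuotientGroup.eq.2 h2
    have _ : Finite (Γ ⧸ Δ) := Finite.of_injective _ hinj
    exact Subgroup.finiteIndex_of_finite_quotient
  refine ⟨Δ, hΔ, fun s hs u hu => ?_⟩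
  have h1 : U.map (ρ s) = U := hs
  rw [← h1]
  exact ⟨u, hu, rfl⟩

/-- Two indices are equivalent if the stable subspaces do not separate them. -/
def Eqv (x z : R) : Prop :=
  ∀ U : Submodule Ω V, (∀ X ∈ 𝔫, ∀ u ∈ U, X u ∈ U) → (e x ∈ U ↔ e z ∈ U)

theorem Eqv_refl (x : R) : Eqv e 𝔫 x x := fun _ _ => Iff.rfl

theorem Eqv_symm {x z : R} (h : Eqv e 𝔫 x z) : Eqv e 𝔫 z x := fun U hU => (h U hU).symm

theorem Eqv_trans {x z w : R} (h : Eqv e 𝔫 x z) (h' : Eqv e 𝔫 z w) : Eqv e 𝔫 x w :=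
  fun U hU => (h U hU).trans (h' U hU)

variable (hss : Pool.Agent.H204R3.GP.HasProj ρ)

include hinv hjj hj0 hω hfix hD hconj hcomm hdiag hss in
theorem Rt_Eqv {x z : R} (h : Rt e ω 𝔫 inv x z) : Eqv e 𝔫 x z := by
  intro U hU
  obtain ⟨hzx, hzx', hA⟩ := h
  have h1 : AA ω (e (inv x)) (e z) (e x) = jj x • e z := by
    rw [AA_apply, hω, hω]
    have e2 : JJ inv jj (inv x) x = jj x := by
      unfold JJ
      rw [if_pos (hinv x).symm, hjj]
    have e3 : JJ inv jj z x = 0 := by
      unfold JJ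
      rw [if_neg]
      intro h
      exact hzx' (by rw [h, hinv])
    rw [e2, e3]
    module
  constructor
  · intro hx
    have h2 := hU _ hA _ hx
    rw [h1] at h2
    exact (Submodule.smul_mem_iff _ (hj0 x)).1 h2
  · intro hz
    obtain ⟨Δ, hΔ, hΔU⟩ := exists_stabilizer e hinv hfix ρ 𝔫 hD hconj U hU
    obtain ⟨P, hP1, hP2, hP3⟩ := hss Δ hΔ U hΔU
    have hPe : AlmostEq ρ P := ⟨Δ, hΔ, hP3⟩
    have h2 := hcomm _ hA P hPe (e x)
    rw [h1, map_smul, hP2 _ hz] at h2
    -- `P (e x)` is a multiple of `e x`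
    have h3 : P (e x) = e.repr (P (e x)) x • e x := by
      refine e.repr.injective (Finsupp.ext fun b => ?_)
      rw [map_smul, Finsupp.smul_apply, e.repr_self, Finsupp.single_apply, smul_eq_mul]
      by_cases hb : x = b
      · subst hb
        rw [if_pos rfl, mul_one]
      · rw [if_neg hb, mul_zero]
        by_contra h4
        exact hb (hdiag P hPe x b h4).symm
    rw [h3, map_smul, h1, smul_smul] at h2
    have h4 : e.repr (P (e x)) x * jj x = jj x := by
      have h5 := congrArg (fun v => e.repr v z) h2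
      simp only [map_smul, Finsupp.smul_apply, e.repr_self, Finsupp.single_eq_same, smul_eq_mul,
        mul_one] at h5
      exact h5
    have h5 : e.repr (P (e x)) x = 1 := mul_right_cancel₀ (hj0 x) (by rw [h4, one_mul])
    rw [h5, one_smul] at h3
    rw [← h3]
    exact hP1 _

/-- The indices that can be reached from `x` by roots. -/
def SX (inv : R → R) (x : R) : Set R :=
  {b | b = x ∨ Rt e ω 𝔫 inv x b ∨ (b = inv x ∧ ∃ w, Rt e ω 𝔫 inv x w ∧ Rt e ω 𝔫 inv w (inv x))}

include hinv hjj hj0 hω hbr hroot in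
theorem SX_stable (x : R) : ∀ X ∈ 𝔫, ∀ u ∈ Submodule.span Ω (e '' SX e ω 𝔫 inv x),
    X u ∈ Submodule.span Ω (e '' SX e ω 𝔫 inv x) := by
  have htr : ∀ {x w z : R}, Rt e ω 𝔫 inv x w → Rt e ω 𝔫 inv w z → z ≠ x → z ≠ inv x →
      Rt e ω 𝔫 inv x z := fun h1 h2 h3 h4 => Rt_trans e hinv hjj hj0 ω hω 𝔫 hbr h1 h2 h3 h4
  have hbar : ∀ {x z : R}, Rt e ω 𝔫 inv x z → Rt e ω 𝔫 inv (inv z) (inv x) :=
    fun h => Rt_bar e hinv ω 𝔫 h
  intro X hX u hu
  induction hu using Submodule.span_induction with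
  | mem u hu =>
    obtain ⟨w, hw, rfl⟩ := hu
    rw [e.mem_span_image]
    intro b hb
    rw [Finset.mem_coe, Finsupp.mem_support_iff] at hb
    by_cases hbw : b = w
    · rw [hbw]
      exact hw
    have hr := hroot X hX w b hbw hb
    by_cases hbx : b = x
    · exact Or.inl hbx
    rcases hw with rfl | hw | ⟨rfl, w', hw1, hw2⟩
    · exact Or.inr (Or.inl hr)
    · by_cases hbx' : b = inv x
      · exact Or.inr (Or.inr ⟨hbx', w, hw, by rw [← hbx']; exact hr⟩)
      · exact Or.inr (Or.inl (htr hw hr hbx hbx'))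
    · refine Or.inr (Or.inl ?_)
      by_cases h1 : b = w'
      · rw [h1]
        exact hw1
      by_cases h2 : b = inv w'
      · have h3 := hbar hw2
        rw [hinv] at h3
        rw [h2]
        exact h3
      exact htr hw1 (htr hw2 hr h1 h2) hbx hbw
  | zero => rw [map_zero]; exact Submodule.zero_mem _
  | add a b _ _ ha hb => rw [map_add]; exact Submodule.add_mem _ ha hb
  | smul c a _ ha => rw [map_smul]; exact Submodule.smul_mem _ _ ha

include hinv hjj hj0 hω hbr hroot in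
theorem Eqv_mem {x z : R} (h : Eqv e 𝔫 x z) : z ∈ SX e ω 𝔫 inv x := by
  have h1 := (h _ (SX_stable e hinv hjj hj0 ω hω 𝔫 hbr hroot x)).1
    (Submodule.subset_span ⟨x, Or.inl rfl, rfl⟩)
  rw [e.mem_span_image, e.repr_self] at h1
  exact h1 (by
    rw [Finset.mem_coe, Finsupp.mem_support_iff, Finsupp.single_eq_same]
    exact one_ne_zero)

include hinv hjj hj0 hω hbr hroot in
theorem Eqv_Rt {x z : R} (h : Eqv e 𝔫 x z) (h1 : z ≠ x) (h2 : z ≠ inv x) :
    Rt e ω 𝔫 inv x z := by
  rcases Eqv_mem e hinv hjj hj0 ω hω 𝔫 hbr hroot h with h3 | h3 | ⟨h3, -⟩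
  · exact absurd h3 h1
  · exact h3
  · exact absurd h3 h2

include hinv hjj hj0 hω hbr hroot in
theorem Eqv_self {x : R} (h : Eqv e 𝔫 x (inv x)) (h1 : inv x ≠ x) :
    ∃ w, Rt e ω 𝔫 inv x w ∧ Rt e ω 𝔫 inv w (inv x) := by
  rcases Eqv_mem e hinv hjj hj0 ω hω 𝔫 hbr hroot h with h3 | h3 | ⟨-, h3⟩
  · exact absurd h3 h1
  · exact absurd rfl h3.2.1
  · exact h3

include hinv hjj hj0 hω hfix hD hsk in
theorem Eqv_bar {x z : R} (h : Eqv e 𝔫 x z) : Eqv e 𝔫 (inv x) (inv z) := by
  intro U hU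
  -- the orthogonal complement
  let U' : Submodule Ω V :=
    { carrier := {v | ∀ u ∈ U, ω u v = 0}
      zero_mem' := fun u _ => map_zero _
      add_mem' := fun {a b} ha hb u hu => by rw [map_add, ha u hu, hb u hu, add_zero]
      smul_mem' := fun c a ha u hu => by rw [map_smul, ha u hu, smul_zero] }
  have hU' : ∀ X ∈ 𝔫, ∀ v ∈ U', X v ∈ U' := by
    intro X hX v hv u hu
    have h1 := hsk X hX u v
    rw [hv _ (hU X hX u hu), zero_add] at h1
    exact h1
  have key : ∀ y, e (inv y) ∈ U ↔ ¬ e y ∈ U' := by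
    intro y
    constructor
    · intro h1 h2
      have h3 := h2 _ h1
      rw [hω] at h3
      unfold JJ at h3
      rw [if_pos (hinv y).symm, hjj] at h3
      exact hj0 y h3
    · intro h1
      by_contra h2
      apply h1
      intro u hu
      have h3 : ω u (e y) = e.repr u (inv y) * jj (inv y) := by
        have h4 := om_coeff e hinv hj0 ω hω u (inv y)
        rwa [hinv] at h4
      rw [h3]
      have h4 : e.repr u (inv y) = 0 := by
        by_contra h5
        exact h2 (basis_mem e hinv hfix 𝔫 hD U hU hu h5)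
      rw [h4, zero_mul]
  rw [key, key, h U' hU']

include hinv hfix hD hconj hroot hjj hj0 hω hcomm hdiag hss in
/-- Diagonal endomorphisms that are constant on the classes are almost equivariant. -/
theorem dg_almost (c : R → Ω) (hc : ∀ x z, Eqv e 𝔫 x z → c z = c x) (P : Module.End Ω V)
    (hP : ∀ x, P (e x) = c x • e x) : AlmostEq ρ P := by
  have hst : ∀ x, ∀ X ∈ 𝔫, ∀ u ∈ Submodule.span Ω (e '' {z | Eqv e 𝔫 x z}),
      X u ∈ Submodule.span Ω (e '' {z | Eqv e 𝔫 x z}) := by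
    intro x X hX u hu
    induction hu using Submodule.span_induction with
    | mem u hu =>
      obtain ⟨w, hw, rfl⟩ := hu
      rw [e.mem_span_image]
      intro b hb
      rw [Finset.mem_coe, Finsupp.mem_support_iff] at hb
      by_cases hbw : b = w
      · rw [hbw]
        exact hw
      · exact Eqv_trans e 𝔫 hw (Rt_Eqv e hinv hjj hj0 hfix ω hω ρ 𝔫 hD hconj hcomm hdiag hss
          (hroot X hX w b hbw hb))
    | zero => rw [map_zero]; exact Submodule.zero_mem _
    | add a b _ _ ha hb => rw [map_add]; exact Submodule.add_mem _ ha hb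
    | smul c a _ ha => rw [map_smul]; exact Submodule.smul_mem _ _ ha
  choose Δx hΔx hΔx' using fun x : R => exists_stabilizer e hinv hfix ρ 𝔫 hD hconj
    (Submodule.span Ω (e '' {z | Eqv e 𝔫 x z})) (hst x)
  have h0 : ∀ (y : R), ∀ v ∈ Submodule.span Ω (e '' {z | Eqv e 𝔫 y z}), P v = c y • v := by
    intro y v hv
    induction hv using Submodule.span_induction with
    | mem v hv =>
      obtain ⟨z, hz, rfl⟩ := hv
      rw [hP, hc y z hz]
    | zero => rw [map_zero, smul_zero]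
    | add a b _ _ ha hb => rw [map_add, ha, hb, smul_add]
    | smul c' a _ ha => rw [map_smul, ha, smul_comm]
  refine ⟨⨅ x, Δx x, Subgroup.finiteIndex_iInf hΔx, fun s hs v => ?_⟩
  have h2 : P.comp (ρ s) = (ρ s).comp P := by
    refine e.ext fun y => ?_
    rw [LinearMap.comp_apply, LinearMap.comp_apply, h0 y (ρ s (e y)) (hΔx' y s
      ((Subgroup.mem_iInf.1 hs) y) _ (Submodule.subset_span ⟨y, Eqv_refl e 𝔫 y, rfl⟩)), hP,
      map_smul]
  exact congrArg (fun T : Module.End Ω V => T v) h2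

end

end Pool.Agent.W516.Orth
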