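import Mathlib
import Pool.Agent.H204R3.SP.FFT

/-!
# The first fundamental theorem in low degree, in coordinates: the orthogonal case
-/

set_option linter.unusedSectionVars false

namespace Pool.Agent.W516.Orth

open Equiv Pool.Agent.H204R3.SP

noncomputable section

/-- Diagonal dominance. -/
theorem dom {Ω : Type*} [Field Ω] [CharZero Ω] {G : Type*} [Finite G] {ι : Type*} (s : Finset ι)
    (τ : ι → G → G) (c : ℕ) (hc : s.card < c) (h : G → Ω)
    (hh : ∀ g, (c : Ω) * h g + ∑ i ∈ s, h (τ i g) = 0) (g : G) : h g = 0 := by
  by_contra hg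
  obtain ⟨ℓ, hℓ⟩ : ∃ ℓ : Module.Dual ℚ Ω, ℓ (h g) ≠ 0 := by
    by_contra hcon
    push Not at hcon
    exact hg ((Module.forall_dual_apply_eq_zero_iff ℚ _).1 hcon)
  have _ : Nonempty G := ⟨g⟩
  obtain ⟨g0, hg0⟩ := Finite.exists_max (fun g => |ℓ (h g)|)
  have h1 : (c : ℚ) * ℓ (h g0) + ∑ i ∈ s, ℓ (h (τ i g0)) = 0 := by
    have h2 := congrArg ℓ (hh g0)
    rw [map_add, map_sum, map_zero] at h2
    have h3 : (c : Ω) * h g0 = (c : ℚ) • h g0 := by
      rw [Algebra.smul_def]
      simp
    rw [h3, map_smul, smul_eq_mul] at h2
    exact h2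
  have h2 : 0 < |ℓ (h g0)| := lt_of_lt_of_le (abs_pos.2 hℓ) (hg0 g)
  have h3 : (c : ℚ) * |ℓ (h g0)| ≤ (s.card : ℚ) * |ℓ (h g0)| := by
    have h4 : (c : ℚ) * ℓ (h g0) = -∑ i ∈ s, ℓ (h (τ i g0)) := by linear_combination h1
    have h5 : |(c : ℚ) * ℓ (h g0)| = (c : ℚ) * |ℓ (h g0)| := by
      rw [abs_mul, Nat.abs_cast]
    rw [← h5, h4, abs_neg]
    refine (Finset.abs_sum_le_sum_abs _ _).trans ?_
    refine (Finset.sum_le_card_nsmul _ _ _ fun i _ => hg0 (τ i g0)).trans ?_
    rw [nsmul_eq_mul]
  have h4 : (s.card : ℚ) < c := by exact_mod_cast hc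
  nlinarith

variable {R Q : Type*} [Fintype R] [DecidableEq R] [DecidableEq Q] {Ω : Type*} [Field Ω]
  (inv : R → R) (jj : R → Ω) (cl : R → Q)

/-- The coefficient functions of the forms killed by the Lie algebra. -/
def InvO (κ : Type*) [Fintype κ] [DecidableEq κ] (F : (κ → R) → Ω) : Prop :=
  ∀ b c : R, cl (inv b) = cl c → ∀ I : κ → R, ∑ k, (JJ inv jj b (I k) * F (Function.update I k c) -
    JJ inv jj c (I k) * F (Function.update I k b)) = 0

/-- The products over perfect matchings. -/
def PO (κ : Type*) : Set ((κ → R) → Ω) :=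
  {G | ∃ (m : ℕ) (σ : Fin m × Fin 2 ≃ κ) (c : Fin m → R → Ω),
    (∀ j x z, cl x = cl z → c j x = c j z) ∧
    G = fun I => ∏ j, c j (I (σ (j, 0))) * JJ inv jj (I (σ (j, 0))) (I (σ (j, 1)))}

/-- The span of the products. -/
def SO (κ : Type*) : Submodule Ω ((κ → R) → Ω) := Submodule.span Ω (PO inv jj cl κ)

variable {κ : Type*} [Fintype κ] [DecidableEq κ]

theorem SO_pact (π : Perm κ) (G : (κ → R) → Ω) (hG : G ∈ SO inv jj cl κ) :
    pact κ π G ∈ SO inv jj cl κ := by
  induction hG using Submodule.span_induction with
  | mem G hG =>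
    obtain ⟨m, σ, c, hc, rfl⟩ := hG
    exact Submodule.subset_span ⟨m, σ.trans π, c, hc, rfl⟩
  | zero => rw [map_zero]; exact Submodule.zero_mem _
  | add a b _ _ ha hb => rw [map_add]; exact Submodule.add_mem _ ha hb
  | smul c a _ ha => rw [map_smul]; exact Submodule.smul_mem _ _ ha

/-- Multiplication with an indicator function. -/
def ind (t : κ → Q) : ((κ → R) → Ω) →ₗ[Ω] ((κ → R) → Ω) where
  toFun G := fun I => if (∀ l, cl (I l) = t l) then G I else 0
  map_add' G H := by
    funext I
    simp only [Pi.add_apply]
    split_ifs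
    · rfl
    · rw [add_zero]
  map_smul' c G := by
    funext I
    simp only [Pi.smul_apply, smul_eq_mul, RingHom.id_apply]
    split_ifs
    · rfl
    · rw [mul_zero]

theorem ind_apply (t : κ → Q) (G : (κ → R) → Ω) (I : κ → R) :
    ind (Ω := Ω) cl t G I = if (∀ l, cl (I l) = t l) then G I else 0 := rfl

theorem SO_ind (hcl : ∀ x z, cl x = cl z → cl (inv x) = cl (inv z)) (t : κ → Q)
    (G : (κ → R) → Ω) (hG : G ∈ SO inv jj cl κ) : ind cl t G ∈ SO inv jj cl κ := by
  induction hG using Submodule.span_induction with
  | mem G hG =>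
    obtain ⟨m, σ, c, hc, rfl⟩ := hG
    refine Submodule.subset_span ⟨m, σ, fun j x => c j x *
      (if cl x = t (σ (j, 0)) ∧ cl (inv x) = t (σ (j, 1)) then 1 else 0), ?_, ?_⟩
    · intro j x z hxz
      beta_reduce
      rw [hc j x z hxz, hxz, hcl x z hxz]
    · funext I
      rw [ind_apply]
      by_cases h : ∀ l, cl (I l) = t l
      · rw [if_pos h]
        refine Finset.prod_congr rfl fun j _ => ?_
        beta_reduce
        unfold JJ
        by_cases h1 : I (σ (j, 1)) = inv (I (σ (j, 0)))
        · have h2 : cl (I (σ (j, 0))) = t (σ (j, 0)) ∧ cl (inv (I (σ (j, 0)))) = t (σ (j, 1)) :=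
            ⟨h _, by rw [← h1]; exact h _⟩
          rw [if_pos h1, if_pos h2, mul_one]
        · rw [if_neg h1, mul_zero, mul_zero]
      · rw [if_neg h]
        push Not at h
        obtain ⟨l, hl⟩ := h
        symm
        refine Finset.prod_eq_zero (Finset.mem_univ (σ.symm l).1) ?_
        set j := (σ.symm l).1 with hj
        have hlj : l = σ (j, 0) ∨ l = σ (j, 1) := by
          have h1 : σ.symm l = (j, 0) ∨ σ.symm l = (j, 1) := by
            rcases h2 : σ.symm l with ⟨j', ε⟩
            have : j = j' := by rw [hj, h2]
            rw [this]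
            fin_cases ε
            · exact Or.inl rfl
            · exact Or.inr rfl
          rcases h1 with h1 | h1
          · exact Or.inl (by rw [← h1, Equiv.apply_symm_apply])
          · exact Or.inr (by rw [← h1, Equiv.apply_symm_apply])
        beta_reduce
        unfold JJ
        by_cases h1 : I (σ (j, 1)) = inv (I (σ (j, 0)))
        · have h2 : ¬ (cl (I (σ (j, 0))) = t (σ (j, 0)) ∧
              cl (inv (I (σ (j, 0)))) = t (σ (j, 1))) := by
            rintro ⟨h2, h3⟩
            rcases hlj with h4 | h4
            · exact hl (by rw [h4, h2])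
            · exact hl (by rw [h4, h1, h3])
          rw [if_neg h2, mul_zero, zero_mul]
        · rw [if_neg h1, mul_zero]
  | zero => rw [map_zero]; exact Submodule.zero_mem _
  | add a b _ _ ha hb => rw [map_add]; exact Submodule.add_mem _ ha hb
  | smul c a _ ha => rw [map_smul]; exact Submodule.smul_mem _ _ ha

theorem SO_ext {p k : κ} (hpk : p ≠ k) (c : R → Ω) (hc : ∀ x z, cl x = cl z → c x = c z)
    (G : ({l // l ≠ p ∧ l ≠ k} → R) → Ω) (hG : G ∈ SO inv jj cl {l // l ≠ p ∧ l ≠ k}) :
    (fun I : κ → R => c (I p) * JJ inv jj (I p) (I k) * G (fun l => I l.1)) ∈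
      SO inv jj cl κ := by
  induction hG using Submodule.span_induction with
  | mem G hG =>
    obtain ⟨m, σ, c', hc', rfl⟩ := hG
    have hcard : Fintype.card κ = 2 * (m + 1) := by
      have h1 := sum_split (Ω := ℚ) hpk (fun _ => (1 : ℚ))
      have h2 := Fintype.card_congr σ
      rw [Fintype.card_prod, Fintype.card_fin, Fintype.card_fin] at h2
      rw [Finset.sum_const, Finset.sum_const, Finset.card_univ, Finset.card_univ, ← h2,
        nsmul_eq_mul, nsmul_eq_mul] at h1
      have h3 : (Fintype.card κ : ℚ) = ((2 * (m + 1) : ℕ) : ℚ) := by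
        push_cast
        push_cast at h1
        linarith
      exact_mod_cast h3
    obtain ⟨σ', h0, h1, h2⟩ := exists_extend hpk hcard σ
    refine Submodule.subset_span ⟨m + 1, σ', Fin.cons c c', ?_, ?_⟩
    · intro j
      refine Fin.cases ?_ (fun j => ?_) j
      · exact hc
      · exact hc' j
    · funext I
      rw [Fin.prod_univ_succ, h0, h1]
      simp only [h2, Fin.cons_zero, Fin.cons_succ]
  | zero =>
    have h1 : (fun I : κ → R => c (I p) * JJ inv jj (I p) (I k) *
        (0 : ({l // l ≠ p ∧ l ≠ k} → R) → Ω) (fun l => I l.1)) = 0 := by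
      funext I
      simp
    rw [h1]
    exact Submodule.zero_mem _
  | add a b _ _ ha hb =>
    have h1 := Submodule.add_mem _ ha hb
    refine cast (congrArg (fun H => H ∈ SO inv jj cl κ) ?_) h1
    funext I
    simp only [Pi.add_apply]
    ring
  | smul c' a _ ha =>
    have h1 := Submodule.smul_mem _ c' ha
    refine cast (congrArg (fun H => H ∈ SO inv jj cl κ) ?_) h1
    funext I
    simp only [Pi.smul_apply, smul_eq_mul]
    ring

variable {inv jj} (hinv : ∀ x, inv (inv x) = x) (hjj : ∀ x, jj (inv x) = jj x)
  (hj0 : ∀ x, jj x ≠ 0) (hcl : ∀ x z, cl x = cl z → cl (inv x) = cl (inv z))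

include hinv hjj hj0 in
theorem contractionO (F : (κ → R) → Ω) (hF : InvO inv jj cl κ F) (p : κ) (I : κ → R) :
    (((Finset.univ.filter (fun y => cl y = cl (I p))).card : Ω) -
      (if cl (inv (I p)) = cl (I p) then 1 else 0)) * F I +
      ∑ k ∈ Finset.univ.erase p, (if cl (I k) = cl (I p) then F (fun l => I (swap p k l)) else 0) =
    ∑ k ∈ Finset.univ.erase p, JJ inv jj (I p) (I k) *
      ∑ y ∈ Finset.univ.filter (fun y => cl y = cl (I p)),
        (jj y)⁻¹ * F (Function.update (Function.update I p y) k (inv y)) := by
  set C : Finset R := Finset.univ.filter (fun y => cl y = cl (I p)) with hC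
  have hmem : ∀ y, y ∈ C ↔ cl y = cl (I p) := by
    intro y
    rw [hC, Finset.mem_filter, and_iff_right (Finset.mem_univ _)]
  have h1 : ∑ y ∈ C, (jj y)⁻¹ * ∑ k, (JJ inv jj (inv y) (Function.update I p y k) *
      F (Function.update (Function.update I p y) k (I p)) -
      JJ inv jj (I p) (Function.update I p y k) *
        F (Function.update (Function.update I p y) k (inv y))) = 0 := by
    refine Finset.sum_eq_zero fun y hy => ?_
    rw [hF (inv y) (I p) (by rw [hinv]; exact (hmem y).1 hy) (Function.update I p y), mul_zero]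
  have h2 : ∀ y, ∑ k, (JJ inv jj (inv y) (Function.update I p y k) *
      F (Function.update (Function.update I p y) k (I p)) -
      JJ inv jj (I p) (Function.update I p y k) *
        F (Function.update (Function.update I p y) k (inv y))) =
      (jj y * F I - (if y = inv (I p) then jj (I p) else 0) * F (Function.update I p (inv y))) +
      ∑ k ∈ Finset.univ.erase p, ((if I k = y then jj y else 0) *
        F (Function.update (Function.update I p y) k (I p)) -
        JJ inv jj (I p) (I k) * F (Function.update (Function.update I p y) k (inv y))) := by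
    intro y
    rw [← Finset.add_sum_erase _ _ (Finset.mem_univ p)]
    congr 1
    · rw [Function.update_self, Function.update_idem, Function.update_idem,
        Function.update_eq_self]
      unfold JJ
      rw [hinv, if_pos rfl, hjj]
    · refine Finset.sum_congr rfl fun k hk => ?_
      rw [Function.update_of_ne (Finset.ne_of_mem_erase hk)]
      congr 2
      unfold JJ
      rw [hinv, hjj]
  rw [Finset.sum_congr rfl (fun y _ => by rw [h2 y, mul_add]), Finset.sum_add_distrib] at h1
  have h3 : ∑ y ∈ C, (jj y)⁻¹ * (jj y * F I - (if y = inv (I p) then jj (I p) else 0) *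
      F (Function.update I p (inv y))) = ((C.card : Ω) -
      (if cl (inv (I p)) = cl (I p) then 1 else 0)) * F I := by
    have h4 : ∀ y, (jj y)⁻¹ * (jj y * F I - (if y = inv (I p) then jj (I p) else 0) *
        F (Function.update I p (inv y))) = F I - (if y = inv (I p) then F I else 0) := by
      intro y
      by_cases h : y = inv (I p)
      · subst h
        rw [if_pos rfl, if_pos rfl, hinv, Function.update_eq_self, hjj]
        have := hj0 (I p)
        field_simp
      · rw [if_neg h, if_neg h, zero_mul, sub_zero, sub_zero, inv_mul_cancel_left₀ (hj0 y)]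
    rw [Finset.sum_congr rfl (fun y _ => h4 y), Finset.sum_sub_distrib, Finset.sum_const,
      Finset.sum_ite_eq' C (inv (I p)), nsmul_eq_mul]
    by_cases h5 : cl (inv (I p)) = cl (I p)
    · rw [if_pos h5, if_pos ((hmem _).2 h5)]
      ring
    · rw [if_neg h5, if_neg (fun h => h5 ((hmem _).1 h))]
      ring
  have h5 : ∑ y ∈ C, (jj y)⁻¹ * ∑ k ∈ Finset.univ.erase p, ((if I k = y then jj y else 0) *
        F (Function.update (Function.update I p y) k (I p)) -
        JJ inv jj (I p) (I k) * F (Function.update (Function.update I p y) k (inv y))) =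
      ∑ k ∈ Finset.univ.erase p, (if cl (I k) = cl (I p) then F (fun l => I (swap p k l)) else 0) -
      ∑ k ∈ Finset.univ.erase p, JJ inv jj (I p) (I k) *
        ∑ y ∈ C, (jj y)⁻¹ * F (Function.update (Function.update I p y) k (inv y)) := by
    simp only [Finset.mul_sum]
    rw [Finset.sum_comm, ← Finset.sum_sub_distrib]
    refine Finset.sum_congr rfl fun k hk => ?_
    have hkp := Finset.ne_of_mem_erase hk
    simp only [mul_sub, Finset.sum_sub_distrib]
    congr 1
    · have h6 : ∀ y, (jj y)⁻¹ * ((if I k = y then jj y else 0) *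
          F (Function.update (Function.update I p y) k (I p))) =
          if I k = y then F (Function.update (Function.update I p (I k)) k (I p)) else 0 := by
        intro y
        by_cases h : I k = y
        · rw [if_pos h, if_pos h, h, inv_mul_cancel_left₀ (hj0 y)]
        · rw [if_neg h, if_neg h, zero_mul, mul_zero]
      rw [Finset.sum_congr rfl (fun y _ => h6 y), Finset.sum_ite_eq]
      have h7 : Function.update (Function.update I p (I k)) k (I p) =
          fun l => I (swap p k l) := by
        funext l
        by_cases hl : l = k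
        · subst hl
          rw [Function.update_self, swap_apply_right]
        · rw [Function.update_of_ne hl]
          by_cases hl2 : l = p
          · subst hl2
            rw [Function.update_self, swap_apply_left]
          · rw [Function.update_of_ne hl2, swap_apply_of_ne_of_ne hl2 hl]
      rw [h7]
      by_cases h8 : cl (I k) = cl (I p)
      · rw [if_pos h8, if_pos ((hmem _).2 h8)]
      · rw [if_neg h8, if_neg (fun h => h8 ((hmem _).1 h))]
    · refine Finset.sum_congr rfl fun x _ => by ring
  rw [h3, h5] at h1
  linear_combination h1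

/-- The contraction of a form at the positions `p`, `k`. -/
def contrO (inv : R → R) (jj : R → Ω) (cl : R → Q) (p k : κ) (q : Q) (F : (κ → R) → Ω) :
    ({l // l ≠ p ∧ l ≠ k} → R) → Ω :=
  fun I => ∑ y ∈ Finset.univ.filter (fun y => cl y = q), (jj y)⁻¹ * F (fill p k y (inv y) I)

include hinv hjj hj0 hcl in
theorem contrO_mem {p k : κ} (hpk : p ≠ k) (q : Q) (F : (κ → R) → Ω) (hF : InvO inv jj cl κ F) :
    InvO inv jj cl {l // l ≠ p ∧ l ≠ k} (contrO inv jj cl p k q F) := by
  intro b c hbc I
  have h1 : ∀ y, ∑ l : {l // l ≠ p ∧ l ≠ k}, (JJ inv jj b (I l) *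
      F (fill p k y (inv y) (Function.update I l c)) - JJ inv jj c (I l) *
      F (fill p k y (inv y) (Function.update I l b))) =
      -((if y = inv b then jj b else 0) * F (fill p k c (inv y) I) -
        (if y = inv c then jj c else 0) * F (fill p k b (inv y) I) +
        ((if y = b then jj b else 0) * F (fill p k y c I) -
        (if y = c then jj c else 0) * F (fill p k y b I))) := by
    intro y
    have h2 := hF b c hbc (fill p k y (inv y) I)
    rw [sum_split hpk, fill_p, fill_k hpk, fill_update_p hpk, fill_update_p hpk,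
      fill_update_k hpk, fill_update_k hpk, JJ_inv_right hinv, JJ_inv_right hinv] at h2
    simp only [fill_l, ← fill_update] at h2
    unfold JJ at h2 ⊢
    linear_combination h2
  have h4 : ∑ l : {l // l ≠ p ∧ l ≠ k}, (JJ inv jj b (I l) *
      contrO inv jj cl p k q F (Function.update I l c) - JJ inv jj c (I l) *
      contrO inv jj cl p k q F (Function.update I l b)) =
      ∑ y ∈ Finset.univ.filter (fun y => cl y = q), (jj y)⁻¹ *
      ∑ l : {l // l ≠ p ∧ l ≠ k}, (JJ inv jj b (I l) *
      F (fill p k y (inv y) (Function.update I l c)) - JJ inv jj c (I l) *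
      F (fill p k y (inv y) (Function.update I l b))) := by
    simp only [contrO, Finset.mul_sum]
    conv_rhs => rw [Finset.sum_comm]
    refine Finset.sum_congr rfl fun l _ => ?_
    rw [← Finset.sum_sub_distrib]
    refine Finset.sum_congr rfl fun x _ => ?_
    ring
  rw [h4, Finset.sum_congr rfl (fun y _ => by rw [h1 y])]
  have h5 : ∀ y, (jj y)⁻¹ * -((if y = inv b then jj b else 0) * F (fill p k c (inv y) I) -
        (if y = inv c then jj c else 0) * F (fill p k b (inv y) I) +
        ((if y = b then jj b else 0) * F (fill p k y c I) -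
        (if y = c then jj c else 0) * F (fill p k y b I))) =
      ((if y = inv c then F (fill p k b c I) else 0) - (if y = b then F (fill p k b c I) else 0)) +
      ((if y = c then F (fill p k c b I) else 0) -
        (if y = inv b then F (fill p k c b I) else 0)) := by
    intro y
    have e1 : (jj y)⁻¹ * ((if y = inv b then jj b else 0) * F (fill p k c (inv y) I)) =
        if y = inv b then F (fill p k c b I) else 0 := by
      by_cases h : y = inv b
      · subst h
        rw [if_pos rfl, if_pos rfl, hinv, hjj, inv_mul_cancel_left₀ (hj0 b)]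
      · rw [if_neg h, if_neg h, zero_mul, mul_zero]
    have e2 : (jj y)⁻¹ * ((if y = inv c then jj c else 0) * F (fill p k b (inv y) I)) =
        if y = inv c then F (fill p k b c I) else 0 := by
      by_cases h : y = inv c
      · subst h
        rw [if_pos rfl, if_pos rfl, hinv, hjj, inv_mul_cancel_left₀ (hj0 c)]
      · rw [if_neg h, if_neg h, zero_mul, mul_zero]
    have e3 : (jj y)⁻¹ * ((if y = b then jj b else 0) * F (fill p k y c I)) =
        if y = b then F (fill p k b c I) else 0 := by
      by_cases h : y = b
      · subst h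
        rw [if_pos rfl, if_pos rfl, inv_mul_cancel_left₀ (hj0 y)]
      · rw [if_neg h, if_neg h, zero_mul, mul_zero]
    have e4 : (jj y)⁻¹ * ((if y = c then jj c else 0) * F (fill p k y b I)) =
        if y = c then F (fill p k c b I) else 0 := by
      by_cases h : y = c
      · subst h
        rw [if_pos rfl, if_pos rfl, inv_mul_cancel_left₀ (hj0 y)]
      · rw [if_neg h, if_neg h, zero_mul, mul_zero]
    linear_combination -e1 + e2 - e3 + e4
  rw [Finset.sum_congr rfl (fun y _ => h5 y)]
  simp only [Finset.sum_add_distrib, Finset.sum_sub_distrib, Finset.sum_ite_eq',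
    Finset.mem_filter, Finset.mem_univ, true_and]
  have h6 : cl (inv c) = cl b := by
    rw [← hcl _ _ hbc, hinv]
  rw [h6, hbc]
  ring

include hinv hjj hj0 hcl in
/-- The first fundamental theorem in low degree. -/
theorem InvO_mem [Fintype Q] [CharZero Ω] (n : ℕ) :
    ∀ (κ : Type) [Fintype κ] [DecidableEq κ], Fintype.card κ = n →
      (∀ x : R, n < (Finset.univ.filter (fun y => cl y = cl x)).card) →
      ∀ F : (κ → R) → Ω, InvO inv jj cl κ F → F ∈ SO inv jj cl κ := by
  induction n using Nat.strong_induction_on with
  | _ n ih =>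
  intro κ _ _ hκ hbig F hF
  rcases Nat.eq_zero_or_pos n with hn | hn
  · -- no variables
    have hE : IsEmpty κ := Fintype.card_eq_zero_iff.1 (hκ.trans hn)
    have h1 : F = F (fun l => hE.elim l) • (fun _ => (1 : Ω)) := by
      funext I
      rw [Pi.smul_apply, smul_eq_mul, mul_one]
      congr 1
      funext l
      exact hE.elim l
    rw [h1]
    refine Submodule.smul_mem _ _ (Submodule.subset_span ⟨0,
      Equiv.equivOfIsEmpty _ _, fun _ _ => 1, fun _ _ _ _ => rfl, ?_⟩)
    funext I
    simp
  have hne : Nonempty κ := Fintype.card_pos_iff.1 (by omega)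
  obtain ⟨p⟩ := hne
  -- the decomposition by types
  have hsum : F = ∑ t : κ → Q, ind cl t F := by
    funext I
    rw [Finset.sum_apply, Finset.sum_eq_single (fun l => cl (I l))]
    · rw [ind_apply, if_pos (fun _ => rfl)]
    · intro t _ ht
      rw [ind_apply, if_neg]
      intro h
      exact ht (funext fun l => (h l).symm)
    · intro h
      exact absurd (Finset.mem_univ _) h
  rw [hsum]
  refine Submodule.sum_mem _ fun t _ => ?_
  by_cases hx : ∃ x, cl x = t p
  swap
  · have h1 : ind cl t F = 0 := by
      funext I
      rw [ind_apply, if_neg]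
      · rfl
      · intro h
        exact hx ⟨_, h p⟩
    rw [h1]
    exact Submodule.zero_mem _
  obtain ⟨x, hx⟩ := hx
  by_contra hcon
  obtain ⟨ℓ, hℓ, hℓU⟩ := Submodule.exists_le_ker_of_notMem hcon
  set ε : ℕ := if cl (inv x) = cl x then 1 else 0 with hε
  have hε1 : ε ≤ 1 := by
    rw [hε]
    split_ifs <;> omega
  set c : ℕ := (Finset.univ.filter (fun y => cl y = cl x)).card - ε with hc
  have hcpos := hbig x
  have hcn : n ≤ c := by omega
  have hcast : (c : Ω) = ((Finset.univ.filter (fun y => cl y = cl x)).card : Ω) -
      (if cl (inv x) = cl x then 1 else 0) := by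
    rw [hc, Nat.cast_sub (by omega), hε]
    push_cast
    rfl
  let s : Finset κ := (Finset.univ.erase p).filter (fun k => t k = t p)
  have hs : s.card < c := by
    have h1 : s.card ≤ (Finset.univ.erase p).card := Finset.card_filter_le _ _
    rw [Finset.card_erase_of_mem (Finset.mem_univ p), Finset.card_univ, hκ] at h1
    omega
  -- the basic relation
  have hrel : (c : Ω) • ind cl t F + ∑ k ∈ s, pact κ (swap p k) (ind cl t F) ∈
      SO inv jj cl κ := by
    have h1 : (c : Ω) • ind cl t F + ∑ k ∈ s, pact κ (swap p k) (ind cl t F) =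
        ind cl t (∑ k ∈ Finset.univ.erase p, fun I => (if cl (I p) = t p then 1 else 0) *
          JJ inv jj (I p) (I k) * contrO inv jj cl p k (t p) F (fun l => I l.1)) := by
      funext I
      rw [Pi.add_apply, Pi.smul_apply, smul_eq_mul, Finset.sum_apply, ind_apply, ind_apply]
      have h2 : ∀ k ∈ s, pact κ (swap p k) (ind cl t F) I =
          if (∀ l, cl (I l) = t l) then F (fun l => I (swap p k l)) else 0 := by
        intro k hk
        rw [pact_apply, ind_apply]
        have hk' : t k = t p := (Finset.mem_filter.1 hk).2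
        have ht : ∀ l, t (swap p k l) = t l := by
          intro l
          by_cases h : l = p
          · rw [h, swap_apply_left, hk']
          · by_cases h' : l = k
            · rw [h', swap_apply_right, hk']
            · rw [swap_apply_of_ne_of_ne h h']
        by_cases h3 : ∀ l, cl (I l) = t l
        · rw [if_pos h3, if_pos]
          intro l
          rw [h3, ht]
        · rw [if_neg h3, if_neg]
          intro h4
          apply h3
          intro l
          have h5 := h4 (swap p k l)
          rwa [swap_apply_self, ht] at h5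
      rw [Finset.sum_congr rfl h2]
      by_cases h3 : ∀ l, cl (I l) = t l
      · rw [if_pos h3, if_pos h3, Finset.sum_apply]
        have h4 := contractionO cl hinv hjj hj0 F hF p I
        have h5 : cl (I p) = cl x := by rw [h3, hx]
        have h6 : cl (inv (I p)) = cl (inv x) := hcl _ _ h5
        rw [h6, h5, ← hcast] at h4
        have h7 : ∑ k ∈ Finset.univ.erase p, (if cl (I k) = cl x then
            F (fun l => I (swap p k l)) else 0) = ∑ k ∈ s, F (fun l => I (swap p k l)) := by
          rw [← Finset.sum_filter]
          refine Finset.sum_congr ?_ fun _ _ => rfl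
          ext k
          simp only [s, Finset.mem_filter]
          rw [h3, hx]
        rw [h7] at h4
        have h8 : ∀ k ∈ s, (if (∀ l, cl (I l) = t l) then F (fun l => I (swap p k l)) else 0) =
            F (fun l => I (swap p k l)) := fun k _ => if_pos h3
        rw [Finset.sum_congr rfl h8, h4]
        refine Finset.sum_congr rfl fun k hk => ?_
        have hkp := (Finset.ne_of_mem_erase hk).symm
        rw [if_pos (h3 p), one_mul]
        congr 1
        unfold contrO
        rw [hx]
        refine Finset.sum_congr rfl fun y _ => ?_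
        rw [fill_restrict hkp]
      · rw [if_neg h3, if_neg h3, mul_zero, zero_add]
        exact Finset.sum_eq_zero fun k _ => if_neg h3
    rw [h1]
    refine SO_ind inv jj cl hcl t _ (Submodule.sum_mem _ fun k hk => ?_)
    have hkp := (Finset.ne_of_mem_erase hk).symm
    refine SO_ext inv jj cl hkp (fun x => if cl x = t p then 1 else 0) (fun y z h => by
      beta_reduce
      rw [h]) _ ?_
    have hcard : Fintype.card {l // l ≠ p ∧ l ≠ k} + 2 = n := by
      have h1 := sum_split (Ω := ℚ) hkp (fun _ => (1 : ℚ))
      rw [Finset.sum_const, Finset.sum_const, Finset.card_univ, Finset.card_univ, hκ,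
        nsmul_eq_mul, nsmul_eq_mul] at h1
      have h3 : ((Fintype.card {l // l ≠ p ∧ l ≠ k} + 2 : ℕ) : ℚ) = (n : ℚ) := by
        push_cast
        linarith
      exact_mod_cast h3
    exact ih _ (by omega) _ rfl (fun y => lt_trans (by omega) (hbig y)) _
      (contrO_mem cl hinv hjj hj0 hcl hkp (t p) F hF)
  apply hℓ
  have hmain := dom s (fun k π => π * swap p k) c hs (fun π : Perm κ => ℓ (pact κ π (ind cl t F)))
    (fun π => by
      have h1 := hℓU (SO_pact inv jj cl π _ hrel)
      rw [LinearMap.mem_ker] at h1
      simp only [map_add, map_smul, map_sum, smul_eq_mul] at h1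
      simp only [map_mul, Module.End.mul_apply]
      exact h1) 1
  rw [map_one] at hmain
  exact hmain

end

end Pool.Agent.W516.Orth
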