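import Mathlib
import Pool.Agent.W516.OClasses
import Pool.Agent.W516.OFFT
import Pool.Agent.W516.Four

/-!
# Forms of low degree are killed by the Lie algebras of the classes: the orthogonal case
-/

set_option linter.unusedSectionVars false

namespace Pool.Agent.W516.Orth

open Module Pool.Agent.H204R3.CM Pool.Agent.H204R3.SP
open Pool.Agent.W516.FT (exists_log log_one log_prod log_pow dg dg_basis kills_dg DD_eq_dg)

noncomputable section

variable {Ω : Type*} [Field Ω] [CharZero Ω] {V : Type*} [AddCommGroup V] [Module Ω V]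
  {R : Type*} [Fintype R] [DecidableEq R] (e : Basis R Ω V) {inv : R → R} {jj : R → Ω}
  (hinv : ∀ x, inv (inv x) = x) (hjj : ∀ x, jj (inv x) = jj x) (hj0 : ∀ x, jj x ≠ 0)
  (hfix : ∀ x y, inv x = x → inv y = y → x = y)
  (ω : V →ₗ[Ω] V →ₗ[Ω] Ω) (hω : ∀ x y, ω (e x) (e y) = JJ inv jj x y)
  {Γ : Type*} [Group Γ] (ρ : Representation Ω Γ V)
  (hωρ : ∀ s u v, ω (ρ s u) (ρ s v) = ω u v)
  (hss : Pool.Agent.H204R3.GP.HasProj ρ)
  {γ : Γ} {a : R → Ω} (hγ : ∀ x, ρ γ (e x) = a x • e x) (hq : ∀ x, a x * a (inv x) = 1)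
  (h4 : FourO inv a)

include hγ in
/-- The diagonal element attached to a logarithm kills all Tate tensors. -/
theorem log_memO {F : Ω → Ω} (hF : ∀ x y, x ≠ 0 → y ≠ 0 → F (x * y) = F x + F y) :
    dg e (fun x => F (a x)) ∈ lieO ρ := by
  rintro N φ ⟨Δ, hΔ, hφ⟩
  rw [kills_dg]
  intro I hI
  obtain ⟨M, hM, -, hMΔ⟩ := Subgroup.exists_pow_mem_of_index_ne_zero hΔ.index_ne_zero γ
  have h1 := hφ (γ ^ M) hMΔ (fun l => e (I l))
  simp only [pow_eig ρ e hγ] at h1
  rw [MultilinearMap.map_smul_univ, smul_eq_mul] at h1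
  have h3 : ∏ i, a (I i) ^ M = 1 := mul_right_cancel₀ hI (by rw [h1, one_mul])
  have ha := eig_ne_zero ρ e hγ
  have h4 := congrArg F h3
  rw [log_prod hF _ _ (fun i _ => pow_ne_zero _ (ha _)), log_one hF] at h4
  have h5 : ∑ i, F (a (I i) ^ M) = M * ∑ i, F (a (I i)) := by
    rw [Finset.mul_sum]
    exact Finset.sum_congr rfl fun i _ => log_pow hF (ha _) M
  have hM0 : (M : Ω) ≠ 0 := Nat.cast_ne_zero.2 hM.ne'
  rw [h5] at h4
  exact (mul_eq_zero.1 h4).resolve_left hM0

include hinv hω in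
theorem dg_skew (x : R → Ω) (hx : ∀ y, x (inv y) = -x y) (u w : V) :
    ω (dg e x u) w + ω u (dg e x w) = 0 := by
  have key : ω.comp (dg e x) + (ω.compl₂ (dg e x)) = 0 := by
    refine e.ext fun y => e.ext fun z => ?_
    rw [LinearMap.add_apply, LinearMap.add_apply, LinearMap.comp_apply, LinearMap.compl₂_apply,
      dg_basis, dg_basis, map_smul, LinearMap.smul_apply, map_smul, hω, smul_eq_mul, smul_eq_mul,
      LinearMap.zero_apply, LinearMap.zero_apply]
    unfold JJ
    by_cases h : z = inv y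
    · rw [if_pos h, h, hx]
      ring
    · rw [if_neg h]
      ring
  exact congrArg (fun F : V →ₗ[Ω] V →ₗ[Ω] Ω => F u w) key

theorem AA_smul_right (c : Ω) (u w : V) : AA ω u (c • w) = c • AA ω u w := by
  rw [AA_anti, AA_smul_left, AA_anti ω w u, smul_neg, neg_neg]

include hinv hω hq h4 hγ in
/-- The root vectors of the normalizer are in the Lie algebra. -/
theorem AA_lieO {b c : R} (hbc : c ≠ inv b) (h : AA ω (e b) (e c) ∈ nrmO ρ ω) :
    AA ω (e b) (e c) ∈ lieO ρ := by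
  have ha := eig_ne_zero ρ e hγ
  have ht0 : a b * a c ≠ 0 := mul_ne_zero (ha b) (ha c)
  obtain ⟨F, hF, hFt⟩ := exists_log ht0 (by
    intro M hM h1
    apply hbc
    apply four_dist hinv hq h4 M hM
    have h2 : a b ^ M ≠ 0 := pow_ne_zero _ (ha b)
    apply mul_left_cancel₀ h2
    rw [← mul_pow, ← mul_pow, h1, hq, one_pow])
  have h1 := h.2.1 _ (log_memO e ρ hγ hF)
  have h2 := AA_bracket ω (dg_skew e hinv ω hω (fun x => F (a x)) (fun y => by
    have h2 := hF _ _ (ha y) (ha (inv y))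
    rw [hq, log_one hF] at h2
    linear_combination -h2)) (e b) (e c)
  rw [dg_basis, dg_basis, AA_smul_left, AA_smul_right, ← add_smul] at h2
  have h3 := Submodule.neg_mem _ h1
  rw [neg_sub, h2] at h3
  refine (Submodule.smul_mem_iff _ ?_).1 h3
  rw [← hF _ _ (ha b) (ha c)]
  exact hFt

include hω hinv hjj in
theorem AA_DD (b : R) : AA ω (e (inv b)) (e b) = jj b • DD e inv b := by
  refine e.ext fun c => ?_
  rw [LinearMap.smul_apply, DD_basis, AA_apply, hω, hω]
  unfold JJ dd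
  rw [hinv]
  by_cases hc : c = b
  · subst hc
    rw [if_pos rfl, if_pos rfl, hjj]
    by_cases hd : c = inv c
    · rw [if_pos hd, if_pos hd, sub_self, zero_smul, smul_zero, ← hd, sub_self]
    · rw [if_neg hd, if_neg hd, zero_smul, sub_zero, sub_zero, one_smul]
  · rw [if_neg hc, if_neg hc, zero_smul, zero_sub]
    by_cases hc2 : c = inv b
    · rw [if_pos hc2, if_pos hc2, hc2]
      module
    · rw [if_neg hc2, if_neg hc2]
      module

include hinv hjj hj0 hω hq h4 hγ in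
theorem DD_sub_mem {b b' : R} (h : Rt e ω (nrmO ρ ω) inv b b') (h' : Rt e ω (nrmO ρ ω) inv b' b) :
    DD e inv b - DD e inv b' ∈ lieO ρ := by
  have h1 : AA ω (e (inv b)) (e b') ∈ lieO ρ :=
    AA_lieO e hinv ω hω ρ hγ hq h4 (by rw [hinv]; exact h.1) h.2.2
  have h2 : AA ω (e (inv b')) (e b) ∈ lieO ρ :=
    AA_lieO e hinv ω hω ρ hγ hq h4 (by rw [hinv]; exact h'.1) h'.2.2
  have h3 := lieO_bracket ρ h2 h1
  rw [AA_bracket ω (AA_skew ω (om_symm e hinv hjj ω hω) _ _)] at h3
  have e1 : AA ω (e (inv b')) (e b) (e (inv b)) = (-jj b) • e (inv b') := by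
    rw [AA_apply, hω, hω]
    unfold JJ
    rw [if_pos rfl, if_neg]
    · module
    · intro h5
      rw [hinv] at h5
      exact h.2.1 (by rw [← h5])
  have e2 : AA ω (e (inv b')) (e b) (e b') = jj b' • e b := by
    rw [AA_apply, hω, hω]
    unfold JJ
    rw [if_pos (hinv b').symm, if_neg h.2.1, hjj]
    module
  rw [e1, e2, AA_smul_left, AA_smul_right, AA_DD e hinv hjj ω hω, AA_DD e hinv hjj ω hω] at h3
  have h5 : (-jj b) • jj b' • DD e inv b' + jj b' • jj b • DD e inv b =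
      (jj b * jj b') • (DD e inv b - DD e inv b') := by
    module
  rw [h5] at h3
  exact (Submodule.smul_mem_iff _ (mul_ne_zero (hj0 b) (hj0 b'))).1 h3

include hinv hjj hj0 hω hωρ hγ hq h4 in
theorem hrootN : ∀ X ∈ nrmO ρ ω, ∀ x z, z ≠ x → e.repr (X (e x)) z ≠ 0 →
    Rt e ω (nrmO ρ ω) inv x z := by
  intro X hX x z h1 h2
  have h3 := root_mem e hinv hjj hj0 ω hω ρ hγ hq h4 (nrmO ρ ω) (fun X hX => hX.1)
    (nrmO_conj ρ ω hωρ) hX h1 h2
  exact ⟨h1, h3.1, h3.2⟩

include hinv hjj hj0 hω hωρ hγ hq h4 in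
theorem Eqv_RtN {x z : R} (h : Eqv e (nrmO ρ ω) x z) (h1 : z ≠ x) (h2 : z ≠ inv x) :
    Rt e ω (nrmO ρ ω) inv x z :=
  Eqv_Rt e hinv hjj hj0 ω hω (nrmO ρ ω) (nrmO_bracket ρ ω)
    (hrootN e hinv hjj hj0 ω hω ρ hωρ hγ hq h4) h h1 h2

include hinv hjj hj0 hfix hω hωρ hss hγ hq h4 in
theorem Rt_EqvN {x z : R} (h : Rt e ω (nrmO ρ ω) inv x z) : Eqv e (nrmO ρ ω) x z :=
  Rt_Eqv e hinv hjj hj0 hfix ω hω ρ (nrmO ρ ω) (DD_nrmO e hinv ω hω ρ hγ hq h4)
    (nrmO_conj ρ ω hωρ) (fun X hX => hX.2.2)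
    (fun P hP x z h => diag_of_almost ρ e hγ (four_dist hinv hq h4) hP h) hss h

include hinv hjj hj0 hfix hω hγ hq h4 in
theorem Eqv_barN {x z : R} (h : Eqv e (nrmO ρ ω) x z) : Eqv e (nrmO ρ ω) (inv x) (inv z) :=
  Eqv_bar e hinv hjj hj0 hfix ω hω (nrmO ρ ω) (DD_nrmO e hinv ω hω ρ hγ hq h4)
    (fun X hX => hX.1) h

include hinv hjj hj0 hfix hω hωρ hss hγ hq h4 in
theorem DD_eqv {b b' : R} (h : Rt e ω (nrmO ρ ω) inv b b') :
    DD e inv b - DD e inv b' ∈ lieO ρ := by
  have h1 := Rt_EqvN e hinv hjj hj0 hfix ω hω ρ hωρ hss hγ hq h4 h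
  exact DD_sub_mem e hinv hjj hj0 ω hω ρ hγ hq h4 h
    (Eqv_RtN e hinv hjj hj0 ω hω ρ hωρ hγ hq h4 (Eqv_symm e (nrmO ρ ω) h1) h.1.symm
      (fun h2 => h.2.1 (by rw [h2, hinv])))

include hinv in
theorem DD_inv (b : R) : DD e inv (inv b) = -DD e inv b := by
  refine e.ext fun x => ?_
  rw [LinearMap.neg_apply, DD_basis, DD_basis]
  unfold dd
  rw [hinv]
  module

include hinv hjj hj0 hfix hω hωρ hss hγ hq h4 in
theorem DD_self_mem {b : R} (h : Eqv e (nrmO ρ ω) b (inv b)) : DD e inv b ∈ lieO ρ := by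
  by_cases hb : inv b = b
  · have h1 : DD e inv b = 0 := by
      have h2 := DD_inv e hinv b
      rw [hb] at h2
      have h3 : (2 : Ω) • DD e inv b = 0 := by
        rw [two_smul]
        nth_rewrite 1 [h2]
        rw [neg_add_cancel]
      exact (smul_eq_zero.1 h3).resolve_left two_ne_zero
    rw [h1]
    exact Submodule.zero_mem _
  · obtain ⟨w, h1, h2⟩ := Eqv_self e hinv hjj hj0 ω hω (nrmO ρ ω) (nrmO_bracket ρ ω)
      (hrootN e hinv hjj hj0 ω hω ρ hωρ hγ hq h4) h hb
    have h3 := DD_eqv e hinv hjj hj0 hfix ω hω ρ hωρ hss hγ hq h4 h1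
    have h5 := DD_eqv e hinv hjj hj0 hfix ω hω ρ hωρ hss hγ hq h4 h2
    have h6 := Submodule.add_mem _ h3 h5
    rw [DD_inv e hinv] at h6
    have h7 : DD e inv b - DD e inv w + (DD e inv w - -DD e inv b) = (2 : Ω) • DD e inv b := by
      module
    rw [h7] at h6
    exact (Submodule.smul_mem_iff _ two_ne_zero).1 h6

theorem sum_ddN {N : ℕ} (inv : R → R) (I : Fin N → R) (y : R) :
    ∑ k, (dd inv y (I k) : Ω) = ((Finset.univ.filter (fun k => I k = y)).card : Ω) -
      ((Finset.univ.filter (fun k => I k = inv y)).card : Ω) := by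
  unfold dd
  rw [Finset.sum_sub_distrib, Finset.sum_boole, Finset.sum_boole]

include hinv hjj hj0 hfix hω hωρ hss hγ hq h4 in
/-- The weights of Tate tensors of low degree are balanced. -/
theorem balancedO {N : ℕ} (hbig : ∀ x, N < ({z | Eqv e (nrmO ρ ω) x z} : Set R).ncard)
    (φ : MultilinearMap Ω (fun _ : Fin N => V) Ω) (hφ : IsFix ρ φ)
    (I : Fin N → R) (hI : φ (fun k => e (I k)) ≠ 0) (y : R) :
    (Finset.univ.filter (fun k => I k = y)).card =
      (Finset.univ.filter (fun k => I k = inv y)).card := by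
  classical
  set n : R → ℕ := fun y => (Finset.univ.filter (fun k => I k = y)).card with hn
  change n y = n (inv y)
  have hcard : ∀ S : Set R, (∀ z ∈ S, 0 < n z) → S.ncard ≤ N := by
    intro S hS
    have h1 : S ⊆ Set.range I := by
      intro z hz
      obtain ⟨k, hk⟩ := Finset.card_pos.1 (hS z hz)
      rw [Finset.mem_filter] at hk
      exact ⟨k, hk.2⟩
    refine (Set.ncard_le_ncard h1 (Set.finite_range I)).trans ?_
    rw [← Set.image_univ]
    refine (Set.ncard_image_le Set.finite_univ).trans ?_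
    rw [Set.ncard_univ, Nat.card_eq_fintype_card, Fintype.card_fin]
  by_cases hy : Eqv e (nrmO ρ ω) y (inv y)
  · have h1 := DD_self_mem e hinv hjj hj0 hfix ω hω ρ hωρ hss hγ hq h4 hy N φ hφ
    rw [DD_eq_dg, kills_dg] at h1
    have h2 := h1 I hI
    rw [sum_ddN] at h2
    have h3 : (n y : Ω) = (n (inv y) : Ω) := sub_eq_zero.1 h2
    exact_mod_cast h3
  · have h1 : ∀ b', Eqv e (nrmO ρ ω) y b' →
        (n y : ℤ) - n (inv y) = (n b' : ℤ) - n (inv b') := by
      intro b' hb'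
      by_cases hyb : b' = y
      · rw [hyb]
      have hyb2 : b' ≠ inv y := fun h => hy (by rw [← h]; exact hb')
      have h2 := DD_eqv e hinv hjj hj0 hfix ω hω ρ hωρ hss hγ hq h4
        (Eqv_RtN e hinv hjj hj0 ω hω ρ hωρ hγ hq h4 hb' hyb hyb2) N φ hφ
      have h3 : DD e inv y - DD e inv b' = dg e (fun z => dd inv y z - dd inv b' z) := by
        refine e.ext fun z => ?_
        rw [LinearMap.sub_apply, DD_basis, DD_basis, dg_basis, sub_smul]
      rw [h3, kills_dg] at h2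
      have h4 := h2 I hI
      rw [Finset.sum_sub_distrib, sum_ddN, sum_ddN] at h4
      have h5 : (((n y : ℤ) - n (inv y) : ℤ) : Ω) = (((n b' : ℤ) - n (inv b') : ℤ) : Ω) := by
        push_cast
        linear_combination h4
      exact_mod_cast h5
    have h2 := hbig y
    by_contra hcon
    rcases Nat.lt_or_gt_of_ne hcon with h3 | h3
    · have h4 := hcard (inv '' {z | Eqv e (nrmO ρ ω) y z}) (by
        rintro _ ⟨z, hz, rfl⟩
        have h5 := h1 z hz
        omega)
      rw [Set.ncard_image_of_injective _ (Function.Involutive.injective hinv)] at h4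
      omega
    · have h4 := hcard {z | Eqv e (nrmO ρ ω) y z} (by
        intro z hz
        have h5 := h1 z hz
        omega)
      omega

include hinv hjj hj0 hfix hω hωρ hss hγ hq h4 in
/-- The Lie algebras of the classes kill the Tate tensors of low degree. -/
theorem killsO {N : ℕ} (hbig : ∀ x, N < ({z | Eqv e (nrmO ρ ω) x z} : Set R).ncard)
    (φ : MultilinearMap Ω (fun _ : Fin N => V) Ω) (hφ : IsFix ρ φ) (b c : R)
    (hbc : Eqv e (nrmO ρ ω) (inv b) c) : Kills (AA ω (e b) (e c)) φ := by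
  by_cases h1 : c = inv b
  · have h2 : AA ω (e b) (e c) = dg e (fun z => (-jj b) * dd inv b z) := by
      rw [h1, AA_anti, AA_DD e hinv hjj ω hω]
      refine e.ext fun z => ?_
      rw [LinearMap.neg_apply, LinearMap.smul_apply, DD_basis, dg_basis, smul_smul, neg_mul,
        neg_smul]
    rw [h2, kills_dg]
    intro I hI
    rw [← Finset.mul_sum, sum_ddN, balancedO e hinv hjj hj0 hfix ω hω ρ hωρ hss hγ hq h4
      hbig φ hφ I hI b, sub_self, mul_zero]
  by_cases h2 : c = b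
  · rw [h2, AA_self]
    intro v
    refine Finset.sum_eq_zero fun k _ => ?_
    rw [LinearMap.zero_apply]
    exact φ.map_coord_zero k (Function.update_self _ _ _)
  · have h3 := Eqv_RtN e hinv hjj hj0 ω hω ρ hωρ hγ hq h4 hbc h1 (by rw [hinv]; exact h2)
    have h5 := h3.2.2
    rw [hinv] at h5
    exact AA_lieO e hinv ω hω ρ hγ hq h4 h1 h5 N φ hφ

/-- The product of bilinear forms over a perfect matching. -/
def mmN {m N : ℕ} (σ : Fin m × Fin 2 ≃ Fin N) (B : Fin m → (V →ₗ[Ω] V →ₗ[Ω] Ω)) :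
    MultilinearMap Ω (fun _ : Fin N => V) Ω :=
  (prodMap (fun l : Fin m => bil2 (B l))).domDomCongr σ

theorem mmN_apply {m N : ℕ} (σ : Fin m × Fin 2 ≃ Fin N) (B : Fin m → (V →ₗ[Ω] V →ₗ[Ω] Ω))
    (v : Fin N → V) : mmN σ B v = ∏ s, B s (v (σ (s, 0))) (v (σ (s, 1))) := rfl

/-- The products of Tate forms over perfect matchings. -/
def PF (N : ℕ) : Set (MultilinearMap Ω (fun _ : Fin N => V) Ω) :=
  {φ | ∃ (m : ℕ) (σ : Fin m × Fin 2 ≃ Fin N) (B : Fin m → (V →ₗ[Ω] V →ₗ[Ω] Ω)),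
    (∀ l, IsFix2 ρ (B l)) ∧ φ = mmN σ B}

include hinv hjj hj0 hfix hω hωρ hss hγ hq h4 in
theorem fixO_mem {N : ℕ} (hbig : ∀ x, N < ({z | Eqv e (nrmO ρ ω) x z} : Set R).ncard)
    (φ : MultilinearMap Ω (fun _ : Fin N => V) Ω) (hφ : IsFix ρ φ) :
    φ ∈ Submodule.span Ω (PF ρ N) := by
  classical
  let cl : R → Set R := fun x => {z | Eqv e (nrmO ρ ω) x z}
  have hclEqv : ∀ x z, cl x = cl z ↔ Eqv e (nrmO ρ ω) x z := by
    intro x z
    constructor
    · intro h
      have h1 : z ∈ cl z := Eqv_refl e (nrmO ρ ω) z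
      rw [← h] at h1
      exact h1
    · intro h
      ext w
      exact ⟨fun hw => Eqv_trans e (nrmO ρ ω) (Eqv_symm e (nrmO ρ ω) h) hw,
        fun hw => Eqv_trans e (nrmO ρ ω) h hw⟩
  have hcl : ∀ x z, cl x = cl z → cl (inv x) = cl (inv z) := by
    intro x z h
    rw [hclEqv] at h ⊢
    exact Eqv_barN e hinv hjj hj0 hfix ω hω ρ hγ hq h4 h
  -- the coefficient function
  let ev : MultilinearMap Ω (fun _ : Fin N => V) Ω →ₗ[Ω] ((Fin N → R) → Ω) :=
    { toFun := fun ψ I => ψ (fun k => e (I k))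
      map_add' := fun _ _ => rfl
      map_smul' := fun _ _ => rfl }
  have hinj : Function.Injective ev := by
    intro ψ ψ' h
    exact Basis.ext_multilinear (fun _ => e) fun I => congrFun h I
  have h1 : InvO inv jj cl (Fin N) (ev φ) := by
    intro b c hbc I
    rw [hclEqv] at hbc
    have h2 := killsO e hinv hjj hj0 hfix ω hω ρ hωρ hss hγ hq h4 hbig φ hφ b c hbc
      (fun k => e (I k))
    rw [← h2]
    refine Finset.sum_congr rfl fun k _ => ?_
    rw [AA_apply, hω, hω, MultilinearMap.map_update_sub, MultilinearMap.map_update_smul,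
      MultilinearMap.map_update_smul, smul_eq_mul, smul_eq_mul]
    have h3 : ∀ x : R, (fun l => e (Function.update I k x l)) =
        Function.update (fun l => e (I l)) k (e x) := by
      intro x
      funext l
      by_cases h : l = k
      · subst h
        rw [Function.update_self, Function.update_self]
      · rw [Function.update_of_ne h, Function.update_of_ne h]
    change _ * φ (fun l => e (Function.update I k c l)) - _ *
      φ (fun l => e (Function.update I k b l)) = _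
    rw [h3, h3]
  have hcard : ∀ x, N < (Finset.univ.filter (fun y => cl y = cl x)).card := by
    intro x
    refine (hbig x).trans_le (le_of_eq ?_)
    rw [Set.ncard_eq_toFinset_card']
    congr 1
    ext z
    rw [Set.mem_toFinset, Finset.mem_filter, and_iff_right (Finset.mem_univ _), hclEqv]
    exact ⟨fun h => Eqv_symm e (nrmO ρ ω) h, fun h => Eqv_symm e (nrmO ρ ω) h⟩
  have h2 := InvO_mem cl hinv hjj hj0 hcl N (Fin N) (Fintype.card_fin N) hcard (ev φ) h1
  have h3 : SO inv jj cl (Fin N) ≤ (Submodule.span Ω (PF ρ N)).map ev := by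
    unfold SO
    rw [Submodule.span_le]
    rintro _ ⟨m, σ, c, hc, rfl⟩
    refine ⟨mmN σ (fun j => ω.comp (dg e (c j))), Submodule.subset_span ⟨m, σ, _, fun j => ?_,
      rfl⟩, ?_⟩
    · obtain ⟨Δ, hΔ, h5⟩ := dg_almost e hinv hjj hj0 hfix ω hω ρ (nrmO ρ ω)
        (DD_nrmO e hinv ω hω ρ hγ hq h4) (nrmO_conj ρ ω hωρ) (fun X hX => hX.2.2)
        (fun P hP x z h => diag_of_almost ρ e hγ (four_dist hinv hq h4) hP h)
        (hrootN e hinv hjj hj0 ω hω ρ hωρ hγ hq h4) hss (c j)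
        (fun x z h => (hc j x z ((hclEqv x z).2 h)).symm) (dg e (c j)) (fun x => dg_basis e _ x)
      refine ⟨Δ, hΔ, fun s hs u v => ?_⟩
      rw [LinearMap.comp_apply, LinearMap.comp_apply, h5 s hs, hωρ]
    · funext I
      change mmN σ (fun j => ω.comp (dg e (c j))) (fun k => e (I k)) = _
      rw [mmN_apply]
      refine Finset.prod_congr rfl fun j _ => ?_
      rw [LinearMap.comp_apply, dg_basis, map_smul, LinearMap.smul_apply, hω, smul_eq_mul]
  obtain ⟨φ', hφ', h5⟩ := h3 h2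
  rwa [← hinj h5]

end

end Pool.Agent.W516.Orth
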