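import Mathlib
import Pool.Agent.W516.OKill
import Pool.Agent.W516.ODefs
import Pool.Agent.W516.FourMain

/-!
# Tate tensors in low degree: the theorem over the field of coefficients, the orthogonal case
-/

set_option linter.unusedSectionVars false

namespace Pool.Agent.W516.Orth

open Module TensorProduct Pool.Agent.H204R3.CM Pool.Agent.H204R3.SP Pool.Agent.H204R3.GP
open Pool.Agent.W516.FT (dg dg_basis exists_eigenbasis relations_transfer
  OnlyTrivialRelationsOfLengthFour formRank)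

noncomputable section

section

variable {Ω : Type*} [Field Ω] [CharZero Ω] {V : Type*} [AddCommGroup V] [Module Ω V]
  {R : Type*} [Fintype R] [DecidableEq R] (e : Basis R Ω V) {inv : R → R} {jj : R → Ω}
  (hinv : ∀ x, inv (inv x) = x) (hjj : ∀ x, jj (inv x) = jj x) (hj0 : ∀ x, jj x ≠ 0)
  (hfix : ∀ x y, inv x = x → inv y = y → x = y)
  (ω : V →ₗ[Ω] V →ₗ[Ω] Ω) (hω : ∀ x y, ω (e x) (e y) = JJ inv jj x y)
  {Γ : Type*} [Group Γ] (ρ : Representation Ω Γ V)
  (hωρ : ∀ s u v, ω (ρ s u) (ρ s v) = ω u v)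
  (hss : HasProj ρ)
  {γ : Γ} {a : R → Ω} (hγ : ∀ x, ρ γ (e x) = a x • e x) (hq : ∀ x, a x * a (inv x) = 1)
  (h4 : FourO inv a)

include hinv hjj hj0 hfix hω hωρ hss hγ hq h4 in
theorem class_big {N : ℕ} (hrank : ∀ B : V →ₗ[Ω] V →ₗ[Ω] Ω, IsFix2 ρ B → B ≠ 0 →
    N < finrank Ω (LinearMap.range B)) (x : R) :
    N < ({z | Eqv e (nrmO ρ ω) x z} : Set R).ncard := by
  classical
  let c : R → Ω := fun z => if Eqv e (nrmO ρ ω) x z then 1 else 0
  let B : V →ₗ[Ω] V →ₗ[Ω] Ω := ω.comp (dg e c)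
  have hBe : ∀ x y, B (e x) (e y) = c x * JJ inv jj x y := by
    intro x y
    change ω (dg e c (e x)) (e y) = _
    rw [dg_basis, map_smul, LinearMap.smul_apply, hω, smul_eq_mul]
  have hB2 : IsFix2 ρ B := by
    obtain ⟨Δ, hΔ, h5⟩ := dg_almost e hinv hjj hj0 hfix ω hω ρ (nrmO ρ ω)
      (DD_nrmO e hinv ω hω ρ hγ hq h4) (nrmO_conj ρ ω hωρ) (fun X hX => hX.2.2)
      (fun P hP x z h => diag_of_almost ρ e hγ (four_dist hinv hq h4) hP h)
      (hrootN e hinv hjj hj0 ω hω ρ hωρ hγ hq h4) hss c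
      (fun y z h => by
        simp only [c]
        have h1 : Eqv e (nrmO ρ ω) x z ↔ Eqv e (nrmO ρ ω) x y :=
          ⟨fun h' => Eqv_trans e _ h' (Eqv_symm e _ h), fun h' => Eqv_trans e _ h' h⟩
        simp only [h1]) (dg e c) (fun x => dg_basis e _ x)
    refine ⟨Δ, hΔ, fun s hs u v => ?_⟩
    change ω (dg e c (ρ s u)) (ρ s v) = ω (dg e c u) v
    rw [h5 s hs, hωρ]
  have hB3 : B ≠ 0 := by
    intro h
    have h1 := hBe x (inv x)
    rw [h, LinearMap.zero_apply, LinearMap.zero_apply] at h1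
    have h2 : c x = 1 := if_pos (Eqv_refl e _ x)
    unfold JJ at h1
    rw [h2, if_pos rfl, one_mul] at h1
    exact hj0 x h1.symm
  have h1 := hrank B hB2 hB3
  refine h1.trans_le ?_
  have h2 : LinearMap.range B ≤
      Submodule.span Ω ((fun z => ω (e z)) '' {z | Eqv e (nrmO ρ ω) x z}) := by
    rintro _ ⟨v, rfl⟩
    rw [← e.sum_repr v, map_sum]
    refine Submodule.sum_mem _ fun z _ => ?_
    rw [map_smul]
    refine Submodule.smul_mem _ _ ?_
    change ω (dg e c (e z)) ∈ _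
    rw [dg_basis, map_smul]
    by_cases hz : Eqv e (nrmO ρ ω) x z
    · exact Submodule.smul_mem _ _ (Submodule.subset_span ⟨z, hz, rfl⟩)
    · have h3 : c z = 0 := if_neg hz
      rw [h3, zero_smul]
      exact Submodule.zero_mem _
  have hfd : Module.Finite Ω
      (Submodule.span Ω ((fun z => ω (e z)) '' {z | Eqv e (nrmO ρ ω) x z})) :=
    FiniteDimensional.span_of_finite Ω (Set.toFinite _)
  have h3 := Submodule.finrank_mono h2
  have h5 := finrank_span_le_card (R := Ω) ((fun z => ω (e z)) '' {z | Eqv e (nrmO ρ ω) x z})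
  rw [← Set.ncard_eq_toFinset_card'] at h5
  have h6 : ((fun z => ω (e z)) '' {z | Eqv e (nrmO ρ ω) x z}).ncard ≤
      ({z | Eqv e (nrmO ρ ω) x z} : Set R).ncard := Set.ncard_image_le (Set.toFinite _)
  omega

end

section

variable {k Ω : Type*} [Field k] [Field Ω] [Algebra k Ω] {V : Type*} [AddCommGroup V] [Module k V]
  [CharZero k] [CharZero Ω] {ν : Type*} [Fintype ν] [DecidableEq ν] (b : Basis ν k V)
  {Γ : Type*} [Group Γ] (ρ : Representation k Γ V)

theorem bcm_fix {N : ℕ} (φ : MultilinearMap k (fun _ : Fin N => V) k)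
    (hφ : IsFix ρ φ) : IsFix (bcr ρ Ω) (bcm (Ω := Ω) b φ) := by
  obtain ⟨Δ, hΔ, h⟩ := hφ
  refine ⟨Δ, hΔ, fun s hs => ?_⟩
  have h1 : (bcm (Ω := Ω) b φ).compLinearMap (fun _ => bcr ρ Ω s) = bcm (Ω := Ω) b φ := by
    refine Basis.ext_multilinear (fun _ => b.baseChange Ω) fun I => ?_
    change (bcm (Ω := Ω) b φ) (fun l => bcr ρ Ω s (b.baseChange Ω (I l))) =
      (bcm (Ω := Ω) b φ) (fun l => b.baseChange Ω (I l))
    rw [bcm_basis]
    have h2 : ∀ l, bcr ρ Ω s (b.baseChange Ω (I l)) = (1 : Ω) ⊗ₜ[k] ρ s (b (I l)) := by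
      intro l
      rw [Basis.baseChange_apply, bcr_tmul]
    simp only [h2]
    rw [bcm_one, h s hs]
  intro v
  exact congrArg (fun F : MultilinearMap Ω (fun _ : Fin N => Ω ⊗[k] V) Ω => F v) h1

theorem comp2_fix {n : ℕ} (w : Basis (Fin n) k Ω)
    {B : (Ω ⊗[k] V) →ₗ[Ω] (Ω ⊗[k] V) →ₗ[Ω] Ω} (hB : IsFix2 (bcr ρ Ω) B) (i : Fin n) :
    IsFix2 ρ (comp2 w B i) := by
  obtain ⟨Δ, hΔ, h⟩ := hB
  refine ⟨Δ, hΔ, fun s hs u v => ?_⟩
  rw [comp2_apply, comp2_apply]
  have h1 := h s hs ((1 : Ω) ⊗ₜ[k] u) ((1 : Ω) ⊗ₜ[k] v)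
  rw [bcr_tmul, bcr_tmul] at h1
  rw [h1]

include b in
/-- Descent. -/
theorem fix_descent [FiniteDimensional k Ω] {N : ℕ}
    (hall : ∀ φ : MultilinearMap Ω (fun _ : Fin N => Ω ⊗[k] V) Ω,
      IsFix (bcr ρ Ω) φ → φ ∈ Submodule.span Ω (PF (bcr ρ Ω) N))
    (φ : MultilinearMap k (fun _ : Fin N => V) k) (hφ : IsFix ρ φ) :
    φ ∈ Submodule.span k (PF ρ N) := by
  classical
  have h1 := hall _ (bcm_fix (Ω := Ω) b ρ φ hφ)
  let w := Module.finBasis k Ω
  let res : MultilinearMap Ω (fun _ : Fin N => Ω ⊗[k] V) Ω →ₗ[Ω]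
      ((Fin N → V) → Ω) :=
    { toFun := fun F v => F (fun l => (1 : Ω) ⊗ₜ[k] v l)
      map_add' := fun _ _ => rfl
      map_smul' := fun _ _ => rfl }
  let emb : MultilinearMap k (fun _ : Fin N => V) k →ₗ[k]
      ((Fin N → V) → k) :=
    { toFun := fun F v => F v
      map_add' := fun _ _ => rfl
      map_smul' := fun _ _ => rfl }
  have h2 : res (bcm (Ω := Ω) b φ) = fun v => algebraMap k Ω (φ v) := by
    funext v
    exact bcm_one b φ v
  have h3 : (fun v => algebraMap k Ω (φ v)) ∈ Submodule.span Ω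
      {g : (Fin N → V) → Ω | ∃ s ∈ emb '' (PF ρ N),
        g = fun x => algebraMap k Ω (s x)} := by
    rw [← h2]
    have h4 : (Submodule.span Ω (PF (bcr ρ Ω) N)).map res ≤ Submodule.span Ω
      {g : (Fin N → V) → Ω | ∃ s ∈ emb '' (PF ρ N),
        g = fun x => algebraMap k Ω (s x)} := by
      rw [Submodule.map_span, Submodule.span_le]
      rintro _ ⟨_, ⟨m, σ, B, hB, rfl⟩, rfl⟩
      have h5 : res (mmN σ B) = ∑ g : Fin m → Fin (finrank k Ω), (∏ l, w (g l)) •
          (fun v => algebraMap k Ω (mmN σ (fun l => comp2 w (B l) (g l)) v)) := by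
        funext v
        rw [Finset.sum_apply]
        change mmN σ B (fun l => (1 : Ω) ⊗ₜ[k] v l) = _
        rw [mmN_apply]
        have h6 : ∀ l, B l ((1 : Ω) ⊗ₜ[k] v (σ (l, 0))) ((1 : Ω) ⊗ₜ[k] v (σ (l, 1))) =
            ∑ i, w i * algebraMap k Ω (comp2 w (B l) i (v (σ (l, 0))) (v (σ (l, 1)))) := by
          intro l
          conv_lhs => rw [← w.sum_repr (B l ((1 : Ω) ⊗ₜ[k] v (σ (l, 0)))
            ((1 : Ω) ⊗ₜ[k] v (σ (l, 1))))]
          refine Finset.sum_congr rfl fun i _ => ?_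
          rw [comp2_apply, Algebra.smul_def, mul_comm]
        rw [Finset.prod_congr rfl (fun l _ => h6 l), Finset.prod_univ_sum, Fintype.piFinset_univ]
        refine Finset.sum_congr rfl fun g _ => ?_
        rw [Finset.prod_mul_distrib, Pi.smul_apply, smul_eq_mul, mmN_apply, map_prod]
      rw [h5]
      refine Submodule.sum_mem _ fun g _ => Submodule.smul_mem _ _ (Submodule.subset_span ?_)
      exact ⟨_, ⟨_, ⟨m, σ, _, fun l => comp2_fix ρ w (hB l) (g l), rfl⟩, rfl⟩, rfl⟩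
    exact h4 (Submodule.mem_map_of_mem h1)
  have h4 := span_descent_k _ _ h3
  rw [← Submodule.map_span] at h4
  obtain ⟨φ', hφ', hφφ⟩ := h4
  have h6 : φ' = φ := MultilinearMap.ext fun v => congrFun hφφ v
  rwa [← h6]

end

/-- The main theorem. -/
theorem fix_of_four {k : Type} [Field k] [CharZero k] {V : Type*} [AddCommGroup V]
    [Module k V] [FiniteDimensional k V]
    {Γ : Type*} [Group Γ] (ρ : Representation k Γ V)
    (ω : V →ₗ[k] V →ₗ[k] k) (hsym : ∀ u v, ω u v = ω v u) (hnd : ∀ u, (∀ v, ω v u = 0) → u = 0)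
    (hωρ : ∀ s u v, ω (ρ s u) (ρ s v) = ω u v)
    (hss : ∀ Δ : Subgroup Γ, Δ.FiniteIndex → SemiUnder (ρ '' (Δ : Set Γ)))
    (γ : Γ) {P : Polynomial ℚ} (hP : P.Separable)
    (hγ : (ρ γ).charpoly = P.map (algebraMap ℚ k)) (h4 : OnlyTrivialRelationsOfLengthFour P 1)
    {N : ℕ} (hrank : TateBilinearFormsHaveRankGreaterThan ρ N)
    (φ : MultilinearMap k (fun _ : Fin N => V) k) (hφ : IsFix ρ φ) :
    φ ∈ Submodule.span k (PF ρ N) := by
  classical
  let Ω := (P.map (algebraMap ℚ k)).SplittingField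
  have _ : CharZero Ω := charZero_of_injective_algebraMap (algebraMap k Ω).injective
  have hnd' : ∀ u, (∀ v, ω u v = 0) → u = 0 := by
    intro u hu
    apply hnd
    intro v
    rw [hsym, hu]
  let b := Module.finBasis k V
  have hmap : (P.map (algebraMap ℚ k)).map (algebraMap k Ω) = P.map (algebraMap ℚ Ω) := by
    rw [Polynomial.map_map]
    congr 1
  have hTchar : (bcr ρ Ω γ).charpoly = P.map (algebraMap ℚ Ω) := by
    change ((ρ γ).baseChange Ω).charpoly = _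
    rw [LinearMap.charpoly_baseChange, hγ, hmap]
  have hsplit : (P.map (algebraMap ℚ Ω)).Splits := by
    rw [← hmap]
    exact Polynomial.SplittingField.splits _
  have hcard : Fintype.card (P.rootSet Ω) = finrank Ω (Ω ⊗[k] V) := by
    rw [Polynomial.card_rootSet_eq_natDegree hP hsplit, ← LinearMap.charpoly_natDegree (bcr ρ Ω γ),
      hTchar, Polynomial.natDegree_map]
  obtain ⟨e, he⟩ := exists_eigenbasis (bcr ρ Ω γ) (P.rootSet Ω) (fun x hx => by
    rw [hTchar, Polynomial.IsRoot.def, Polynomial.eval_map_algebraMap]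
    exact (Polynomial.mem_rootSet.1 hx).2) hcard
  have hsymΩ : ∀ u v, bcb Ω ω u v = bcb Ω ω v u := by
    have h1 : bcb Ω ω = (bcb Ω ω).flip := by
      refine (b.baseChange Ω).ext fun i => (b.baseChange Ω).ext fun l => ?_
      rw [LinearMap.flip_apply, Basis.baseChange_apply,
        Basis.baseChange_apply, bcb_one, bcb_one, hsym]
    intro u v
    exact congrArg (fun F : (Ω ⊗[k] V) →ₗ[Ω] (Ω ⊗[k] V) →ₗ[Ω] Ω => F u v) h1
  have hinvΩ : ∀ s u v, bcb Ω ω (bcr ρ Ω s u) (bcr ρ Ω s v) = bcb Ω ω u v := by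
    intro s u v
    have h1 := bcb_inv ρ (1 : Γ →* k) (Ω := Ω) ω (fun s u v => by
      rw [hωρ, MonoidHom.one_apply, one_mul]) s u v
    rwa [bcc_apply, MonoidHom.one_apply, map_one, one_mul] at h1
  -- the involution
  have hprod : ∀ x y : P.rootSet Ω, bcb Ω ω (e x) (e y) ≠ 0 → (x : Ω) * y = 1 := by
    intro x y h0
    have h1 := hinvΩ γ (e x) (e y)
    rw [he, he, map_smul, map_smul, LinearMap.smul_apply, smul_eq_mul, smul_eq_mul,
      ← mul_assoc] at h1
    have h2 := mul_right_cancel₀ h0 (h1.trans (one_mul _).symm)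
    rw [← h2, mul_comm]
  have hex : ∀ x : P.rootSet Ω, ∃ y, bcb Ω ω (e x) (e y) ≠ 0 := by
    intro x
    by_contra hcon
    push Not at hcon
    apply e.ne_zero x
    apply bcb_nondeg b ω hnd hnd'
    intro v
    rw [hsymΩ, ← e.sum_repr v, map_sum]
    refine Finset.sum_eq_zero fun y _ => ?_
    rw [map_smul, hcon, smul_zero]
  choose inv hinv0 using hex
  have hxinv : ∀ x : P.rootSet Ω, (x : Ω) * inv x = 1 := fun x => hprod x _ (hinv0 x)
  have hx0 : ∀ x : P.rootSet Ω, (x : Ω) ≠ 0 := by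
    intro x h
    have h1 := hxinv x
    rw [h, zero_mul] at h1
    exact zero_ne_one h1
  have huniq : ∀ x y : P.rootSet Ω, (x : Ω) * y = 1 → y = inv x := by
    intro x y h
    apply Subtype.coe_injective
    apply mul_left_cancel₀ (hx0 x)
    rw [h, hxinv]
  have hinv : ∀ x, inv (inv x) = x := fun x =>
    (huniq (inv x) x (by rw [mul_comm, hxinv])).symm
  let jj : P.rootSet Ω → Ω := fun x => bcb Ω ω (e x) (e (inv x))
  have hjj : ∀ x, jj (inv x) = jj x := by
    intro x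
    simp only [jj, hinv]
    exact hsymΩ _ _
  have hj0 : ∀ x, jj x ≠ 0 := hinv0
  have hω : ∀ x y, bcb Ω ω (e x) (e y) = JJ inv jj x y := by
    intro x y
    unfold JJ
    by_cases hy : y = inv x
    · rw [if_pos hy, hy]
    · rw [if_neg hy]
      by_contra h0
      exact hy (huniq x y (hprod x y h0))
  have hfour : FourO inv (fun x : P.rootSet Ω => (x : Ω)) := by
    intro M hM x y z w h
    have h5 := relations_transfer (Polynomial.Separable.ne_zero hP) h4 M hM (x : Ω) y z w x.2 y.2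
      z.2 w.2 (by rw [Nat.cast_one, one_pow]; exact h)
    rw [Nat.cast_one] at h5
    rcases h5 with h | h | h
    · exact Or.inl ⟨huniq _ _ h.1, huniq _ _ h.2⟩
    · exact Or.inr (Or.inl ⟨huniq _ _ h.1, huniq _ _ h.2⟩)
    · exact Or.inr (Or.inr ⟨huniq _ _ h.1, huniq _ _ h.2⟩)
  have hfix : ∀ x y, inv x = x → inv y = y → x = y := by
    intro x y hx hy
    have h1 := hxinv x
    have h2 := hxinv y
    rw [hx] at h1
    rw [hy] at h2
    have h3 : ((x : Ω) * x * x * y) ^ 2 = 1 := by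
      linear_combination ((x : Ω) * x * x * x * y * y) * h1 + ((x : Ω) * x * y * y + y * y) * h1 +
        h2
    rcases hfour 2 (by norm_num) x x x y h3 with h | h | h
    · rw [h.2, hx]
    · rw [h.2, hx]
    · rw [h.1, hx]
  have hproj : HasProj (bcr ρ Ω) := by
    intro Δ hΔ U hU
    obtain ⟨P', hP1, hP2, hP3⟩ := exists_proj_baseChange (Ω := Ω) (ρ '' (Δ : Set Γ)) (hss Δ hΔ) U
      (by
        rintro _ ⟨s, hs, rfl⟩ u hu
        exact hU s hs u hu)
    exact ⟨P', hP1, hP2, fun s hs v => hP3 _ ⟨s, hs, rfl⟩ v⟩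
  refine fix_descent (Ω := Ω) b ρ ?_ φ hφ
  intro φ' hφ'
  refine fixO_mem e hinv hjj hj0 hfix (bcb Ω ω) hω (bcr ρ Ω) hinvΩ hproj he hxinv hfour
    (class_big e hinv hjj hj0 hfix (bcb Ω ω) hω (bcr ρ Ω) hinvΩ hproj he hxinv hfour ?_) φ' hφ'
  rintro B ⟨Δ, hΔ, hB2⟩ hB3
  -- the form on `V` with values in `Ω`
  let B' : V →ₗ[k] V →ₗ[k] Ω := LinearMap.mk₂ k
    (fun u v => B ((1 : Ω) ⊗ₜ[k] u) ((1 : Ω) ⊗ₜ[k] v))
    (fun u u' v => by rw [TensorProduct.tmul_add, map_add, LinearMap.add_apply])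
    (fun c u v => by
      rw [TensorProduct.tmul_smul, ← algebraMap_smul Ω c ((1 : Ω) ⊗ₜ[k] u), map_smul,
        LinearMap.smul_apply, algebraMap_smul])
    (fun u v v' => by rw [TensorProduct.tmul_add, map_add])
    (fun c u v => by
      rw [TensorProduct.tmul_smul, ← algebraMap_smul Ω c ((1 : Ω) ⊗ₜ[k] v), map_smul,
        algebraMap_smul])
  have hB'a : ∀ u v, B' u v = B ((1 : Ω) ⊗ₜ[k] u) ((1 : Ω) ⊗ₜ[k] v) := fun _ _ => rfl
  have h1 := hrank Ω B' ⟨Δ, hΔ, fun s hs u v => by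
    have h2 := hB2 s hs ((1 : Ω) ⊗ₜ[k] u) ((1 : Ω) ⊗ₜ[k] v)
    rw [bcr_tmul, bcr_tmul] at h2
    rw [hB'a, hB'a, h2]⟩ (by
    intro h
    apply hB3
    refine (b.baseChange Ω).ext fun i => (b.baseChange Ω).ext fun l => ?_
    have h2 := congrArg (fun F : V →ₗ[k] V →ₗ[k] Ω => F (b i) (b l)) h
    simp only [hB'a, LinearMap.zero_apply] at h2
    rw [Basis.baseChange_apply, Basis.baseChange_apply, h2, LinearMap.zero_apply,
      LinearMap.zero_apply])
  refine h1.trans_le ?_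
  let res : ((Ω ⊗[k] V) →ₗ[Ω] Ω) →ₗ[Ω] (V → Ω) :=
    { toFun := fun F v => F ((1 : Ω) ⊗ₜ[k] v)
      map_add' := fun _ _ => rfl
      map_smul' := fun _ _ => rfl }
  have h2 : Submodule.span Ω (Set.range fun (u : V) (v : V) => B' u v) ≤
      (LinearMap.range B).map res := by
    rw [Submodule.span_le]
    rintro _ ⟨u, rfl⟩
    exact ⟨B ((1 : Ω) ⊗ₜ[k] u), ⟨_, rfl⟩, rfl⟩
  exact (Submodule.finrank_mono h2).trans (Submodule.finrank_map_le res (LinearMap.range B))

end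

end Pool.Agent.W516.Orth
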