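import Mathlib
import Pool.Agent.W516.OMain

/-!
# Adding a part on which a subgroup of finite index acts trivially
-/

set_option linter.unusedSectionVars false

namespace Pool.Agent.W516.Orth

open Module Pool.Agent.H204R3.SP

noncomputable section

variable {k : Type*} [Field k] [CharZero k] {V W : Type*} [AddCommGroup V] [Module k V]
  [AddCommGroup W] [Module k W] [FiniteDimensional k W]
  {Γ : Type*} [Group Γ] (ρ : Representation k Γ V) (τ : Representation k Γ W)

/-- The product of linear forms in some variables and a multilinear form in the others. -/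
def theta {n N : ℕ} (S : Finset (Fin n)) (eqv : {i // i ∉ S} ≃ Fin N)
    (L : Fin n → (V × W →ₗ[k] k)) (ψ : MultilinearMap k (fun _ : Fin N => V) k) :
    MultilinearMap k (fun _ : Fin n => V × W) k :=
  ((LinearMap.mul' k k).compMultilinearMap
    (((MultilinearMap.mkPiAlgebra k {i // i ∈ S} k).compLinearMap (fun i => L i)).domCoprod
      (ψ.compLinearMap (fun _ => LinearMap.fst k V W)))).domDomCongr
    ((Equiv.sumCongr (Equiv.refl _) eqv.symm).trans (Equiv.sumCompl (fun i => i ∈ S)))

theorem theta_apply {n N : ℕ} (S : Finset (Fin n)) (eqv : {i // i ∉ S} ≃ Fin N)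
    (L : Fin n → (V × W →ₗ[k] k)) (ψ : MultilinearMap k (fun _ : Fin N => V) k)
    (v : Fin n → V × W) :
    theta S eqv L ψ v = (∏ i ∈ S, L i (v i)) * ψ (fun t => (v (eqv.symm t)).1) := by
  unfold theta
  rw [MultilinearMap.domDomCongr_apply, LinearMap.compMultilinearMap_apply,
    MultilinearMap.domCoprod_apply, LinearMap.mul'_apply, MultilinearMap.compLinearMap_apply,
    MultilinearMap.mkPiAlgebra_apply, MultilinearMap.compLinearMap_apply,
    ← Finset.prod_coe_sort S (fun i => L i (v i))]
  rfl

theorem tensor_mem (hτ : ∃ Δ : Subgroup Γ, Δ.FiniteIndex ∧ ∀ s ∈ Δ, ∀ w, τ s w = w) {n : ℕ}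
    (hall : ∀ N ≤ n, ∀ φ : MultilinearMap k (fun _ : Fin N => V) k, IsFix ρ φ →
      φ ∈ Submodule.span k (PF ρ N))
    (φ : MultilinearMap k (fun _ : Fin n => V × W) k) (hφ : IsTateTensor (ρ.prod τ) φ) :
    φ ∈ Submodule.span k {ψ | IsProductOfTateForms (ρ.prod τ) ψ} := by
  classical
  obtain ⟨Δ₀, hΔ₀, hτ⟩ := hτ
  obtain ⟨Δ, hΔ, hφ⟩ := hφ
  let w := Module.finBasis k W
  let part : Option (Fin (finrank k W)) → (V × W →ₗ[k] V × W) := fun o =>
    o.elim ((LinearMap.inl k V W).comp (LinearMap.fst k V W))
      (fun r => ((w.coord r).comp (LinearMap.snd k V W)).smulRight (LinearMap.inr k V W (w r)))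
  have hpart : ∀ x : V × W, ∑ o, part o x = x := by
    intro x
    rw [Fintype.sum_option]
    change (x.1, (0 : W)) + ∑ r, (w.repr x.2 r) • ((0 : V), w r) = x
    have h1 : ∑ r, (w.repr x.2 r) • ((0 : V), w r) = ((0 : V), x.2) := by
      have h2 : ∀ r, (w.repr x.2 r) • ((0 : V), w r) =
          LinearMap.inr k V W ((w.repr x.2 r) • w r) := by
        intro r
        rw [map_smul]
        rfl
      rw [Finset.sum_congr rfl (fun r _ => h2 r), ← map_sum, w.sum_repr]
      rfl
    rw [h1]
    ext <;> simp
  have hsum : φ = ∑ J : Fin n → Option (Fin (finrank k W)),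
      φ.compLinearMap (fun i => part (J i)) := by
    ext v
    rw [MultilinearMap.sum_apply]
    have h1 := φ.map_sum (fun (i : Fin n) (o : Option (Fin (finrank k W))) => part o (v i))
    simp only [hpart] at h1
    exact h1
  rw [hsum]
  refine Submodule.sum_mem _ fun J _ => ?_
  let S : Finset (Fin n) := Finset.univ.filter (fun i => (J i).isSome)
  let L : Fin n → (V × W →ₗ[k] k) := fun i =>
    (J i).elim 0 (fun r => (w.coord r).comp (LinearMap.snd k V W))
  let u : Fin n → W := fun i => (J i).elim 0 (fun r => w r)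
  let eqv : {i // i ∉ S} ≃ Fin (Fintype.card {i // i ∉ S}) := Fintype.equivFin _
  let ψ : MultilinearMap k (fun _ : Fin (Fintype.card {i // i ∉ S}) => V) k :=
    ((φ.domDomRestrict (fun i => i ∉ S) (fun i => LinearMap.inr k V W (u i))).compLinearMap
      (fun _ => LinearMap.inl k V W)).domDomCongr eqv
  have hψapp : ∀ v, ψ v = φ (fun i => if h : i ∉ S then (v (eqv ⟨i, h⟩), 0) else (0, u i)) :=
    fun v => rfl
  have hJφ : φ.compLinearMap (fun i => part (J i)) = theta S eqv L ψ := by
    ext v
    rw [theta_apply, MultilinearMap.compLinearMap_apply, hψapp]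
    have h1 : (fun i => part (J i) (v i)) = fun i => (if i ∈ S then L i (v i) else 1) •
        (if h : i ∉ S then ((v (eqv.symm (eqv ⟨i, h⟩))).1, (0 : W)) else ((0 : V), u i)) := by
      funext i
      rcases hJ : J i with _ | r
      · have hi : i ∉ S := by
          simp [S, hJ]
        rw [if_neg hi, dif_pos hi, one_smul, Equiv.symm_apply_apply]
        rfl
      · have hi : i ∈ S := by
          simp [S, hJ]
        rw [if_pos hi, dif_neg (not_not.2 hi)]
        simp only [L, u, hJ]
        rfl
    rw [h1, MultilinearMap.map_smul_univ, smul_eq_mul]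
    congr 1
    rw [Finset.prod_ite_mem, Finset.univ_inter]
  rw [hJφ]
  have hψfix : IsFix ρ ψ := by
    refine ⟨Δ ⊓ Δ₀, inferInstance, fun s hs v => ?_⟩
    rw [hψapp, hψapp, ← hφ s hs.1 (fun i => if h : i ∉ S then (v (eqv ⟨i, h⟩), 0) else (0, u i))]
    congr 1
    funext i
    by_cases h : i ∉ S
    · rw [dif_pos h, dif_pos h]
      change _ = (ρ s (v (eqv ⟨i, h⟩)), τ s 0)
      rw [map_zero]
    · rw [dif_neg h, dif_neg h]
      change _ = (ρ s 0, τ s (u i))
      rw [map_zero, hτ s hs.2]
  have hcard : Fintype.card {i // i ∉ S} ≤ n := by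
    have h1 := Fintype.card_subtype_le (fun i => i ∉ S)
    rwa [Fintype.card_fin] at h1
  have hL : ∀ i, IsTateLinearForm (ρ.prod τ) (L i) := by
    intro i
    refine ⟨Δ₀, hΔ₀, fun s hs v => ?_⟩
    rcases hJ : J i with _ | r
    · simp only [L, hJ]
      rfl
    · simp only [L, hJ]
      change w.coord r (τ s v.2) = w.coord r v.2
      rw [hτ s hs]
  have hmem := hall _ hcard ψ hψfix
  clear_value ψ
  clear hψapp hJφ hψfix
  induction hmem using Submodule.span_induction with
  | mem ψ hψ =>
    obtain ⟨m, σ, B, hB, rfl⟩ := hψ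
    refine Submodule.subset_span ⟨S, m, σ.trans eqv.symm, L,
      fun j => (B j).compl₁₂ (LinearMap.fst k V W) (LinearMap.fst k V W), hL, fun j => ?_,
      fun v => ?_⟩
    · obtain ⟨Δ', hΔ', h1⟩ := hB j
      refine ⟨Δ', hΔ', fun s hs a b => ?_⟩
      exact h1 s hs a.1 b.1
    · rw [theta_apply, mmN_apply]
      rfl
  | zero =>
    have h1 : theta S eqv L (0 : MultilinearMap k
        (fun _ : Fin (Fintype.card {i // i ∉ S}) => V) k) = 0 := by
      ext v
      rw [theta_apply, MultilinearMap.zero_apply, mul_zero, MultilinearMap.zero_apply]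
    rw [h1]
    exact Submodule.zero_mem _
  | add a b _ _ ha hb =>
    have h1 : theta S eqv L (a + b) = theta S eqv L a + theta S eqv L b := by
      ext v
      rw [MultilinearMap.add_apply, theta_apply, theta_apply, theta_apply,
        MultilinearMap.add_apply, mul_add]
    rw [h1]
    exact Submodule.add_mem _ ha hb
  | smul c a _ ha =>
    have h1 : theta S eqv L (c • a) = c • theta S eqv L a := by
      ext v
      rw [MultilinearMap.smul_apply, theta_apply, theta_apply, MultilinearMap.smul_apply,
        smul_eq_mul, smul_eq_mul]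
      ring
    rw [h1]
    exact Submodule.smul_mem _ _ ha

end

end Pool.Agent.W516.Orth
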