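import Mathlib
import Pool.Agent.W516.FourDefs
import Pool.Agent.H204R3.GP.MTDefs
import Pool.Agent.H204R3.GP.TateG

/-!
# No symmetric Tate forms
-/

namespace Pool.Agent.W516.FT

open Module Pool.Agent.H204R3.GP

noncomputable section

/-- All endomorphisms of `A` are symmetric with respect to the Rosati involution. -/
def RosatiTrivial {W T : Type*} [AddCommGroup W] [Module ℚ W] [AddCommGroup T] [Module ℂ T]
    (per : W →+ T) (ω₀ : W →ₗ[ℚ] W →ₗ[ℚ] ℚ) : Prop :=
  ∀ P : W →ₗ[ℚ] W, IsHodgeEnd per P → ∀ x y, ω₀ (P x) y = ω₀ x (P y)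

theorem no_symmetric {k : Type} {V Γ : Type*} [Field k] [CharZero k] [AddCommGroup V] [Module k V]
    [FiniteDimensional k V] [Group Γ] {W T : Type*} [AddCommGroup W] [Module ℚ W]
    [AddCommGroup T] [Module ℂ T] (per : W →+ T) (comp : W →+ V)
    (hspan : Submodule.span k (Set.range comp) = ⊤) (ρ : Representation k Γ V) (χ : Γ →* k)
    (ω : V →ₗ[k] V →ₗ[k] k) (halt : ∀ v, ω v v = 0) (hnd' : ∀ u, (∀ v, ω u v = 0) → u = 0)
    (hωρ : ∀ s u v, ω (ρ s u) (ρ s v) = χ s * ω u v)
    (ω₀ : W →ₗ[ℚ] W →ₗ[ℚ] ℚ) (hωω : ∀ x y, ω (comp x) (comp y) = ((ω₀ x y : ℚ) : k))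
    (hF : FaltingsEnd per comp ρ) (hR : RosatiTrivial per ω₀) (d : ℕ) :
    SymmetricTateFormsHaveRankGreaterThan ρ χ d := by
  classical
  have hanti : ∀ u v, ω u v = -ω v u := by
    intro u v
    have h1 := halt (u + v)
    simp only [map_add, LinearMap.add_apply, halt, zero_add, add_zero] at h1
    exact eq_neg_of_add_eq_zero_left (by rw [← h1]; ring)
  have hinj : Function.Injective ω := by
    rw [injective_iff_map_eq_zero]
    intro u hu
    exact hnd' u fun v => by rw [hu]; rfl
  let eqv : V ≃ₗ[k] (V →ₗ[k] k) := LinearMap.linearEquivOfInjective ω hinj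
    (Subspace.dual_finrank_eq (K := k) (V := V)).symm
  have heqv : ∀ u, eqv u = ω u := fun u => rfl
  -- symmetric Tate forms with values in `k` vanish
  have key : ∀ B : V →ₗ[k] V →ₗ[k] k, (∀ u v, B u v = B v u) → IsTate2 ρ χ B → B = 0 := by
    intro B hB1 hB2
    let P : Module.End k V := eqv.symm.toLinearMap ∘ₗ B
    have hP : ∀ x y, ω (P x) y = B x y := by
      intro x y
      have h1 : eqv (P x) = B x := eqv.apply_symm_apply (B x)
      rw [← heqv, h1]
    obtain ⟨Δ, hΔ, hB2⟩ := hB2
    have hPc : ∀ s ∈ Δ, ∀ v, P (ρ s v) = ρ s (P v) := by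
      intro s hs v
      apply hinj
      ext y
      obtain ⟨y', rfl⟩ : ∃ y', ρ s y' = y := ⟨ρ s⁻¹ y, by
        change (ρ s * ρ s⁻¹) y = y
        rw [← map_mul, mul_inv_cancel, map_one]
        rfl⟩
      rw [hP, hB2 s hs, hωρ, hP]
    have h1 := hF P ⟨Δ, hΔ, hPc⟩
    have h2 : ∀ P' ∈ Submodule.span k {P' : Module.End k V | ∃ P₀ : W →ₗ[ℚ] W,
        IsHodgeEnd per P₀ ∧ ∀ w, P' (comp w) = comp (P₀ w)}, ∀ u v, ω (P' u) v = ω u (P' v) := by
      intro P' hP'
      induction hP' using Submodule.span_induction with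
      | mem P' hP' =>
        obtain ⟨P₀, hP₀, hP₁⟩ := hP'
        intro u v
        have hu : u ∈ Submodule.span k (Set.range comp) := by rw [hspan]; trivial
        have hv : v ∈ Submodule.span k (Set.range comp) := by rw [hspan]; trivial
        induction hu using Submodule.span_induction with
        | mem u hu =>
          obtain ⟨x, rfl⟩ := hu
          induction hv using Submodule.span_induction with
          | mem v hv =>
            obtain ⟨y, rfl⟩ := hv
            rw [hP₁, hP₁, hωω, hωω, hR P₀ hP₀]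
          | zero => simp only [map_zero]
          | add a b _ _ ha hb => simp only [map_add, ha, hb]
          | smul c a _ ha => simp only [map_smul, ha]
        | zero => simp only [map_zero, LinearMap.zero_apply]
        | add a b _ _ ha hb => simp only [map_add, LinearMap.add_apply, ha, hb]
        | smul c a _ ha => simp only [map_smul, LinearMap.smul_apply, ha]
      | zero =>
        intro u v
        simp only [LinearMap.zero_apply, map_zero]
      | add P Q _ _ hP hQ =>
        intro u v
        simp only [map_add, LinearMap.add_apply, hP, hQ]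
      | smul c P _ hP =>
        intro u v
        simp only [map_smul, LinearMap.smul_apply, hP]
    refine LinearMap.ext fun u => LinearMap.ext fun v => ?_
    have h3 := h2 P h1 u v
    rw [hanti u, hP, hP] at h3
    have h4 := hB1 u v
    have h5 : (2 : k) * B u v = 0 := by linear_combination h3 + h4
    rw [LinearMap.zero_apply, LinearMap.zero_apply]
    exact (mul_eq_zero.1 h5).resolve_left two_ne_zero
  intro Ω _ _ _ B hB hB0
  exfalso
  apply hB0
  obtain ⟨hB1, Δ, hΔ, hB2⟩ := hB
  refine LinearMap.ext fun u => LinearMap.ext fun v => ?_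
  rw [LinearMap.zero_apply, LinearMap.zero_apply]
  let b := Module.finBasis k Ω
  rw [← LinearEquiv.map_eq_zero_iff b.repr]
  ext i
  rw [Finsupp.zero_apply]
  let B' : V →ₗ[k] V →ₗ[k] k := LinearMap.mk₂ k (fun u v => b.repr (B u v) i)
    (fun u u' v => by rw [map_add, LinearMap.add_apply, map_add, Finsupp.add_apply])
    (fun c u v => by rw [map_smul, LinearMap.smul_apply, map_smul, Finsupp.smul_apply])
    (fun u v v' => by rw [map_add, map_add, Finsupp.add_apply])
    (fun c u v => by rw [map_smul, map_smul, Finsupp.smul_apply])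
  have h1 := key B' (fun u v => by
    change b.repr (B u v) i = b.repr (B v u) i
    rw [hB1]) ⟨Δ, hΔ, fun s hs u v => by
    change b.repr (B (ρ s u) (ρ s v)) i = χ s * b.repr (B u v) i
    rw [hB2 s hs, map_smul, Finsupp.smul_apply, smul_eq_mul]⟩
  have h2 := congrArg (fun F : V →ₗ[k] V →ₗ[k] k => F u v) h1
  exact h2

end

end Pool.Agent.W516.FT
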